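import Pool.Agent.NOD.StmL

/-! Piece ARK of project NOD, section S3. -/

set_option autoImplicit false

namespace Pool.Agent.NOD.L3

theorem t_ARK : S_ARK := by
  intro D _ _ _ f c hc
  obtain ⟨r, hr⟩ := Ideal.exists_pow_inf_eq_pow_smul (Ideal.span {f} : Ideal D)
    (Ideal.span {c} : Submodule D D)
  refine ⟨r, fun k hk x hx => ?_⟩
  have h1 : c * x ∈ (Ideal.span {f} : Ideal D) ^ k • (⊤ : Submodule D D) ⊓ Ideal.span {c} := by
    refine ⟨?_, Ideal.mul_mem_right _ _ (Ideal.subset_span rfl)⟩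
    rw [smul_eq_mul, Ideal.mul_top, Ideal.span_singleton_pow]
    exact hx
  rw [hr k hk] at h1
  have h2 : c * x ∈ (Ideal.span {f} : Ideal D) ^ (k - r) • (Ideal.span {c} : Submodule D D) :=
    Submodule.smul_mono le_rfl inf_le_right h1
  rw [smul_eq_mul, Ideal.span_singleton_pow, Ideal.span_singleton_mul_span_singleton,
    Ideal.mem_span_singleton'] at h2
  obtain ⟨a, ha⟩ := h2
  rw [Ideal.mem_span_singleton']
  refine ⟨a, mul_left_cancel₀ hc ?_⟩
  rw [← ha]
  ring

end Pool.Agent.NOD.L3
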