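import Pool.Agent.NOD.L3.Bas
import Pool.Agent.NOD.S1.Basic

set_option autoImplicit false

namespace Pool.Agent.NOD.L3

open Pool.Agent.NOD.L3.Z21

open MvPolynomial

namespace BPDx

theorem LI_prime {P : Ideal A} (hP : P.IsPrime) {s r s' : A} (hr : r ∉ P) (hs' : s' ∉ P) {z : K}
    (hz : z ∈ LI ⊤ s) (h : algebraMap A K r * z ∈ LI P s') : z ∈ LI P s := by
  obtain ⟨n, p, -, e⟩ := hz
  obtain ⟨m, q, hq, e'⟩ := h
  refine ⟨n, p, ?_, e⟩
  have e2 : s' ^ m * r * p = s ^ n * q := by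
    apply IsFractionRing.injective A K
    simp only [map_mul, map_pow, ← e, ← e']
    ring
  have h3 : s' ^ m * r * p ∈ P := by
    rw [e2]
    exact P.mul_mem_left _ hq
  rcases hP.mem_or_mem h3 with h4 | h4
  · rcases hP.mem_or_mem h4 with h5 | h5
    · exact absurd (hP.mem_of_pow_mem _ h5) hs'
    · exact absurd h5 hr
  · exact h4

theorem LI_mul {I : Ideal A} {s : A} {x y : K} (hx : x ∈ LI I s) (hy : y ∈ LI ⊤ s) :
    x * y ∈ LI I s := by
  obtain ⟨n, p, hp, e⟩ := hx
  obtain ⟨m, q, -, e'⟩ := hy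
  refine ⟨n + m, p * q, I.mul_mem_right _ hp, ?_⟩
  rw [map_mul, ← e, ← e']
  ring

theorem LI_left {I : Ideal A} {s : A} (r : A) {x : K} (hx : x ∈ LI I s) : x ∈ LI I (s * r) := by
  obtain ⟨n, p, hp, e⟩ := hx
  refine ⟨n, r ^ n * p, I.mul_mem_left _ hp, ?_⟩
  rw [map_mul, map_mul, ← e, map_pow]
  ring

theorem LI_right {I : Ideal A} {s : A} (r : A) {x : K} (hx : x ∈ LI I s) : x ∈ LI I (r * s) := by
  rw [mul_comm]
  exact LI_left r hx

theorem LI_amul {I : Ideal A} {s : A} (r : A) {x : K} (hx : x ∈ LI I s) :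
    algebraMap A K r * x ∈ LI I s := by
  rw [← Algebra.smul_def]
  exact Submodule.smul_mem _ _ hx

theorem pow_BP {P : Ideal A} {u : Fin 3 → A} {t : ℤ} {β : Fin 3 → K} (hβ : β ∈ BP P u t) (n : ℕ) :
    (fun i => β i ^ n) ∈ BP P u (n * t) := by
  induction n with
  | zero =>
    refine ⟨fun i => ⟨⟨0, 1, Submodule.mem_top, by simp⟩, ?_⟩, fun i j => by simp⟩
    have h := alg_mem_HS (isHomogeneous_one (Fin 5) ℂ)
    simpa using h
  | succ n ih =>
    obtain ⟨h1, h2⟩ := hβ
    obtain ⟨h3, h4⟩ := ih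
    refine ⟨fun i => ⟨?_, ?_⟩, fun i j => ?_⟩
    · change β i ^ (n + 1) ∈ _
      rw [pow_succ]
      exact LI_mul (h3 i).1 (h1 i).1
    · change β i ^ (n + 1) ∈ _
      rw [pow_succ]
      have := mul_mem_HS (h3 i).2 (h1 i).2
      have e : ((n + 1 : ℕ) : ℤ) * t = n * t + t := by
        push_cast
        ring
      rw [e]
      exact this
    · change β i ^ (n + 1) - β j ^ (n + 1) ∈ _
      have e : β i ^ (n + 1) - β j ^ (n + 1) = (β i ^ n - β j ^ n) * β i + (β i - β j) * β j ^ n := by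
        ring
      rw [e]
      exact Submodule.add_mem _ (LI_mul (h4 i j) (LI_left _ (h1 i).1))
        (LI_mul (h2 i j) (LI_right _ (h3 j).1))

theorem key (h1 : S_CHG) (h2 : S_POW) {d : ℕ} {F : A} {P : Ideal A} {u g : Fin 3 → A}
    {del gam : Fin 3 → ℕ} {a : ℕ → Fin 3 → Fin 3 → K} (D : Dat d F P u g del gam a) (t : ℤ)
    (β : Fin 3 → K) (hβ : β ∈ BP P u t) :
    ∃ c : A, (0 ≤ t + del 0 → c.IsHomogeneous (t + del 0).toNat) ∧ (t + del 0 < 0 → c = 0) ∧
      ∀ i, algebraMap A K (u 0) * β i - algebraMap A K c ∈ LI P (u i) := by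
  classical
  obtain ⟨hb1, hb2⟩ := hβ
  have hu0 : ∀ i, u i ≠ 0 := fun i h => D.u_not i (by rw [h]; exact P.zero_mem)
  have hI : HomId (Ideal.span {F, g 0}) := homId_span (by
    rintro _ (rfl | rfl)
    · exact ⟨d, D.F_hom⟩
    · exact ⟨gam 0, D.g_hom 0⟩)
  have n1 : NZD (Ideal.span {F, g 0}) (u 1) := by
    have h := D.reg2 {0, 1} 2 (by decide)
    simpa [Set.image_insert_eq] using h
  have n2 : NZD (Ideal.span {F, g 0}) (u 2) := by
    have h := D.reg2 {0, 1} 3 (by decide)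
    simpa [Set.image_insert_eq] using h
  have n12 : ∀ n, NZD (Ideal.span {F, g 0} ⊔ Ideal.span {u 1 ^ n}) (u 2) := by
    intro n
    have h := h2 4 ![F, g 0, u 1, u 2] ![1, 1, n, 1] D.reg2 {0, 1, 2} 3 (by decide)
    have e : Ideal.span {F, g 0} ⊔ Ideal.span {u 1 ^ n} = Ideal.span
        ((fun i => (![F, g 0, u 1, u 2] : Fin 4 → A) i ^ (![1, 1, n, 1] : Fin 4 → ℕ) i) ''
          ((({0, 1, 2} : Finset (Fin 4))) : Set (Fin 4))) := by
      rw [← Ideal.span_union]
      congr 1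
      simp only [Finset.coe_insert, Finset.coe_singleton, Set.image_insert_eq, Set.image_singleton]
      ext x
      simp
      tauto
    rw [e]
    simpa using h
  have hx : ∀ i, algebraMap A K (u 0) * β i ∈ HS (t + del 0) := by
    intro i
    rw [mul_comm]
    exact mul_mem_HS (hb1 i).2 (alg_mem_HS (D.u_hom 0))
  have h12 : algebraMap A K (u 0) * β 1 - algebraMap A K (u 0) * β 2 ∈
      LI (Ideal.span {F, g 0}) (u 1 * u 2) := by
    obtain ⟨n, p, hp, e⟩ := hb2 1 2
    refine ⟨n, u 0 * p, D.loc 0 p hp, ?_⟩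
    rw [map_mul (algebraMap A K) (u 0) p, ← e]
    ring
  obtain ⟨c, hc1, hc2, hc3, hc4⟩ := h1 (Ideal.span {F, g 0}) (u 1) (u 2) (del 1) (del 2)
    (t + del 0) (algebraMap A K (u 0) * β 1) (algebraMap A K (u 0) * β 2) hI (D.del_pos 1)
    (D.del_pos 2) (D.u_hom 1) (D.u_hom 2) (hu0 1) (hu0 2) n1 n2 n12 (LI_amul _ (hb1 1).1)
    (LI_amul _ (hb1 2).1) (hx 1) (hx 2) h12
  have hle : Ideal.span {F, g 0} ≤ P := by
    rw [Ideal.span_le]
    rintro _ (rfl | rfl)
    · exact D.F_mem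
    · exact D.g_mem 0
  refine ⟨c, hc1, hc2, ?_⟩
  have hP := D.P_prime
  have h01 : algebraMap A K (u 0) * β 0 - algebraMap A K c ∈ LI P (u 0) := by
    have hu01 : u 0 * u 1 ∉ P := by
      intro h
      rcases hP.mem_or_mem h with h | h
      · exact D.u_not 0 h
      · exact D.u_not 1 h
    apply LI_prime hP (r := 1) (s' := u 0 * u 1) (fun h => hP.ne_top ((Ideal.eq_top_iff_one _).2 h))
      hu01
    · exact Submodule.sub_mem _ (LI_amul _ (hb1 0).1) (alg_mem_LI Submodule.mem_top _)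
    · rw [map_one, one_mul]
      have e : algebraMap A K (u 0) * β 0 - algebraMap A K c =
          algebraMap A K (u 0) * (β 0 - β 1) + (algebraMap A K (u 0) * β 1 - algebraMap A K c) := by
        ring
      rw [e]
      exact Submodule.add_mem _ (LI_amul _ (hb2 0 1)) (LI_right _ (LI_mono hle _ hc3))
  intro i
  fin_cases i
  · exact h01
  · exact LI_mono hle _ hc3
  · exact LI_mono hle _ hc4

theorem neg (h1 : S_CHG) (h2 : S_POW) {d : ℕ} {F : A} {P : Ideal A} {u g : Fin 3 → A}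
    {del gam : Fin 3 → ℕ} {a : ℕ → Fin 3 → Fin 3 → K} (D : Dat d F P u g del gam a) (t : ℤ)
    (ht : t < 0) (β : Fin 3 → K) (hβ : β ∈ BP P u t) (i : Fin 3) : β i ∈ LI P (u i) := by
  have hP := D.P_prime
  obtain ⟨c, -, hc, h3⟩ := key h1 h2 D _ _ (pow_BP hβ (del 0 + 1))
  have hneg : ((del 0 + 1 : ℕ) : ℤ) * t + del 0 < 0 := by
    push_cast
    nlinarith [Int.natCast_nonneg (del 0)]
  have h4 := h3 i
  rw [hc hneg, map_zero, sub_zero] at h4
  have h5 : β i ^ (del 0 + 1) ∈ LI P (u i) :=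
    LI_prime hP (D.u_not 0) (D.u_not i) ((pow_BP hβ (del 0 + 1)).1 i).1 h4
  obtain ⟨m, q, -, e⟩ := (hβ.1 i).1
  obtain ⟨k, p, hp, e'⟩ := h5
  refine ⟨m, q, ?_, e⟩
  have e2 : u i ^ k * q ^ (del 0 + 1) = u i ^ (m * (del 0 + 1)) * p := by
    apply IsFractionRing.injective A K
    simp only [map_mul, map_pow]
    rw [← e, ← e', mul_pow, ← pow_mul]
    ring
  have h6 : u i ^ k * q ^ (del 0 + 1) ∈ P := by
    rw [e2]
    exact P.mul_mem_left _ hp
  rcases hP.mem_or_mem h6 with h7 | h7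
  · exact absurd (hP.mem_of_pow_mem _ h7) (D.u_not i)
  · exact hP.mem_of_pow_mem _ h7

instance fin (n : ℕ) : Module.Finite ℂ (homogeneousSubmodule (Fin 5) ℂ n) :=
  Module.Finite.iff_fg.2 (homogeneousSubmodule_fg (Fin 5) ℂ n)

/-- The relation. -/
noncomputable def Gam (P : Ideal A) (u : Fin 3 → A) (t : ℤ) (N : ℕ) :
    Submodule ℂ (VB P u t × homogeneousSubmodule (Fin 5) ℂ N) where
  carrier := {z | ∃ β ∈ BP P u t, (Nul P u).mkQ β = z.1 ∧
    ∀ i, algebraMap A K (u 0) * β i - algebraMap A K (z.2 : A) ∈ LI P (u i)}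
  zero_mem' := ⟨0, Submodule.zero_mem _, by simp, fun i => by simp⟩
  add_mem' := by
    rintro x y ⟨β, h1, h2, h3⟩ ⟨β', h1', h2', h3'⟩
    refine ⟨β + β', Submodule.add_mem _ h1 h1', ?_, fun i => ?_⟩
    · rw [map_add, h2, h2']
      rfl
    · have e : algebraMap A K (u 0) * (β + β') i - algebraMap A K ((x + y).2 : A) =
          (algebraMap A K (u 0) * β i - algebraMap A K (x.2 : A)) +
            (algebraMap A K (u 0) * β' i - algebraMap A K (y.2 : A)) := by
        simp only [Pi.add_apply, Prod.snd_add, Submodule.coe_add, map_add]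
        ring
      rw [e]
      exact Submodule.add_mem _ (h3 i) (h3' i)
  smul_mem' := by
    rintro c x ⟨β, h1, h2, h3⟩
    refine ⟨c • β, Submodule.smul_mem _ _ h1, ?_, fun i => ?_⟩
    · rw [map_smul, h2]
      rfl
    · have e : algebraMap A K (u 0) * (c • β) i - algebraMap A K ((c • x).2 : A) =
          (C c : A) • (algebraMap A K (u 0) * β i - algebraMap A K (x.2 : A)) := by
        have e1 : ((c • x).2 : A) = C c * (x.2 : A) := by
          rw [Prod.smul_snd, Submodule.coe_smul, MvPolynomial.smul_eq_C_mul]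
        have e2 : (c • β) i = algebraMap A K (C c) * β i := by
          rw [Pi.smul_apply, Algebra.smul_def, IsScalarTower.algebraMap_apply ℂ A K c,
            ← MvPolynomial.algebraMap_eq]
        rw [e1, e2, map_mul, Algebra.smul_def]
        ring
      rw [e]
      exact Submodule.smul_mem _ _ (h3 i)

end BPDx

open BPDx in
theorem t_BPD (h1 : S_CHG) (h2 : S_POW) (h3 : S_LINREL) : S_BPD := by
  intro d F P u g del gam a D
  have hneg := fun t ht β hβ i => neg h1 h2 D t ht β hβ i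
  refine ⟨?_, hneg⟩
  intro t
  have hP := D.P_prime
  by_cases ht : 0 ≤ t + del 0
  · set N := (t + del 0).toNat with hN
    have h4 := h3 (VB P u t) (homogeneousSubmodule (Fin 5) ℂ N) (Gam P u t N) ⊥
      ((P.restrictScalars ℂ).comap (homogeneousSubmodule (Fin 5) ℂ N).subtype) ?_ ?_ inferInstance
    · obtain ⟨h5, h6⟩ := h4
      have eq := Submodule.quotEquivOfEqBot (⊥ : Submodule ℂ (VB P u t)) rfl
      refine ⟨Module.Finite.equiv eq, ?_⟩
      rw [LinearEquiv.finrank_eq eq] at h6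
      have h7 := Submodule.finrank_quotient_add_finrank
        ((P.restrictScalars ℂ).comap (homogeneousSubmodule (Fin 5) ℂ N).subtype)
      have h8 : hI ⊤ (t + del 0) = Module.finrank ℂ (homogeneousSubmodule (Fin 5) ℂ N) := by
        have e0 : ((⊤ : Ideal A).restrictScalars ℂ ⊓ homogeneousSubmodule (Fin 5) ℂ N :
            Submodule ℂ A) = homogeneousSubmodule (Fin 5) ℂ N :=
          inf_eq_right.2 (fun _ _ => Submodule.mem_top)
        unfold hI
        rw [if_pos ht, ← hN]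
        rw [e0]
      have h9 : hI P (t + del 0) = Module.finrank ℂ
          ((P.restrictScalars ℂ).comap (homogeneousSubmodule (Fin 5) ℂ N).subtype) := by
        unfold hI
        rw [if_pos ht, ← hN]
        have e := Submodule.map_comap_subtype (homogeneousSubmodule (Fin 5) ℂ N)
          (P.restrictScalars ℂ)
        rw [inf_comm, ← e]
        exact Submodule.finrank_map_subtype_eq _ _
      omega
    · rintro ⟨x, β, hβ, rfl⟩
      obtain ⟨c, hc1, -, hc3⟩ := key h1 h2 D t β hβ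
      exact ⟨⟨c, (mem_homogeneousSubmodule _ _).2 (hc1 ht)⟩, β, hβ, rfl, hc3⟩
    · rintro x y ⟨β, hβ, e, h5⟩ hy
      rw [Submodule.mem_bot]
      apply Subtype.ext
      change (x : (Fin 3 → K) ⧸ Nul P u) = 0
      rw [← show (Nul P u).mkQ β = (x : (Fin 3 → K) ⧸ Nul P u) from e]
      rw [Submodule.mkQ_apply, Submodule.Quotient.mk_eq_zero]
      intro i
      have h6 : algebraMap A K (u 0) * β i ∈ LI P (u i) := by
        have h7 := Submodule.add_mem _ (h5 i) (alg_mem_LI (I := P) (p := (y : A)) hy (u i))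
        simpa using h7
      exact LI_prime hP (D.u_not 0) (D.u_not i) (hβ.1 i).1 h6
  · have hlt : t + del 0 < 0 := by omega
    have ht0 : t < 0 := by omega
    have hbot : VB P u t = ⊥ := by
      rw [eq_bot_iff]
      rintro x ⟨β, hβ, rfl⟩
      rw [Submodule.mem_bot, Submodule.mkQ_apply, Submodule.Quotient.mk_eq_zero]
      exact fun i => hneg t ht0 β hβ i
    rw [hbot]
    refine ⟨inferInstance, ?_⟩
    simp [hI, ht]

end Pool.Agent.NOD.L3
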