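import Pool.Agent.NOD.StmL

/-!
Basic facts for the section theorem of S3.
-/

set_option autoImplicit false

namespace Pool.Agent.NOD.L3.Z21

open MvPolynomial

theorem mem_LI_top {s : A} {x : K} (h : x ∈ Loc s) : x ∈ LI ⊤ s := by
  obtain ⟨n, p, hp⟩ := h
  exact ⟨n, p, Submodule.mem_top, hp⟩

theorem mem_LI_of_FLoc {f s : A} {x : K} (h : x ∈ FLoc f s) : x ∈ LI (Ideal.span {f}) s := by
  obtain ⟨y, ⟨n, p, hp⟩, rfl⟩ := h
  refine ⟨n, f * p, Ideal.mul_mem_right _ _ (Ideal.mem_span_singleton_self f), ?_⟩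
  rw [map_mul, ← hp]
  ring

theorem LI_mono {I J : Ideal A} (h : I ≤ J) (s : A) : LI I s ≤ LI J s := by
  rintro x ⟨n, p, hp, hx⟩
  exact ⟨n, p, h hp, hx⟩

theorem alg_mem_LI {I : Ideal A} {p : A} (h : p ∈ I) (s : A) : algebraMap A K p ∈ LI I s :=
  ⟨0, p, h, by simp⟩

/-- A polynomial in `LI I s`. -/
theorem pow_mul_mem {I : Ideal A} {p s : A} (h : algebraMap A K p ∈ LI I s) :
    ∃ n : ℕ, s ^ n * p ∈ I := by
  obtain ⟨n, q, hq, hx⟩ := h
  refine ⟨n, ?_⟩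
  have h1 : algebraMap A K (s ^ n * p) = algebraMap A K q := by rw [map_mul, map_pow, hx]
  rw [IsFractionRing.injective A K h1]
  exact hq

theorem mem_prime_of_LI {P : Ideal A} (hP : P.IsPrime) {p s : A} (hs : s ∉ P)
    (h : algebraMap A K p ∈ LI P s) : p ∈ P := by
  obtain ⟨n, hn⟩ := pow_mul_mem h
  rcases hP.mem_or_mem hn with h1 | h1
  · exact absurd (hP.mem_of_pow_mem _ h1) hs
  · exact h1

theorem alg_mem_HS {p : A} {n : ℕ} (h : p.IsHomogeneous n) : algebraMap A K p ∈ HS n :=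
  ⟨n, 0, p, 1, h, isHomogeneous_one _ _, one_ne_zero, by simp, by simp⟩

theorem mul_mem_HS {x y : K} {t t' : ℤ} (hx : x ∈ HS t) (hy : y ∈ HS t') : x * y ∈ HS (t + t') := by
  obtain ⟨n, m, p, q, hp, hq, hq0, h1, h2⟩ := hx
  obtain ⟨n', m', p', q', hp', hq', hq0', h1', h2'⟩ := hy
  refine ⟨n + n', m + m', p * p', q * q', hp.mul hp', hq.mul hq', mul_ne_zero hq0 hq0', ?_, ?_⟩
  · push_cast
    omega
  · rw [map_mul, map_mul, ← h2, ← h2']
    ring

theorem preg_four {F v : A} {u : Fin 3 → A} (h : PReg ![F, u 0, u 1, u 2, v]) :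
    PReg ![F, u 0, u 1, u 2] := by
  intro S i hi
  have h1 := h (S.map Fin.castSuccEmb) i.castSucc (by simpa using hi)
  have e : ∀ j : Fin 4, (![F, u 0, u 1, u 2, v] : Fin 5 → A) j.castSucc = ![F, u 0, u 1, u 2] j := by
    intro j
    fin_cases j <;> rfl
  have e2 : (![F, u 0, u 1, u 2, v] : Fin 5 → A) '' ((S.map Fin.castSuccEmb : Finset (Fin 5)) : Set (Fin 5)) =
      ![F, u 0, u 1, u 2] '' (S : Set (Fin 4)) := by
    ext x
    simp only [Set.mem_image, Finset.mem_coe, Finset.mem_map, Fin.coe_castSuccEmb]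
    constructor
    · rintro ⟨_, ⟨j, hj, rfl⟩, rfl⟩
      exact ⟨j, hj, (e j).symm⟩
    · rintro ⟨j, hj, rfl⟩
      exact ⟨_, ⟨j, hj, rfl⟩, e j⟩
  rw [e2, e i] at h1
  exact h1

theorem dat_of {d : ℕ} {F : A} {zs : Finset (Fin 5 → ℂ)} {P : Ideal A} (C : Chart F zs P)
    (a : ℕ → Fin 3 → Fin 3 → K) (hd : 3 ≤ d) (hF : F.IsHomogeneous d) (hFp : Prime F)
    (hP : P.IsPrime) (hPh : HomId P) (hFP : F ∈ P) (hht : P.height = 2)
    (hs : ∀ k, 1 ≤ k → Sys F C k (a k))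
    (hc : ∀ k, 1 ≤ k → ∀ i j, a (k + 1) i j - a k i j ∈ FLoc (F ^ k) (C.u i * C.u j)) :
    Dat d F P C.u C.g C.del C.gam a where
  hd := hd
  F_hom := hF
  F_prime := hFp
  P_prime := hP
  P_hom := hPh
  F_mem := hFP
  P_ht := hht
  del_pos := C.del_pos
  u_hom := C.u_hom
  g_hom := C.g_hom
  g_mem := C.g_mem
  u_not := C.u_not
  loc := C.loc
  reg := preg_four C.reg
  reg2 := C.reg2
  mem := fun k hk i j => mem_LI_top ((hs k hk).mem i j)
  hom := fun k hk i j => (hs k hk).hom i j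
  diag := fun k hk i => (hs k hk).diag i
  gen := fun k hk i j => mem_LI_of_FLoc ((hs k hk).gen i j)
  coc := fun k hk i j l => mem_LI_of_FLoc ((hs k hk).coc i j l)
  comp := fun k hk i j => mem_LI_of_FLoc (hc k hk i j)

end Pool.Agent.NOD.L3.Z21
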