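import Pool.Agent.NOD.StmL

/-!
# Project NOD, section S3, piece CH0 (sections of `A / F`)
-/

set_option autoImplicit false

namespace Pool.Agent.NOD.L3

open MvPolynomial

namespace CH0

theorem homId_span {d : ℕ} {F : A} (hF : F.IsHomogeneous d) : HomId (Ideal.span {F}) := by
  intro f hf n
  rw [Ideal.mem_span_singleton] at hf
  obtain ⟨g, rfl⟩ := hf
  rw [← sum_homogeneousComponent g, Finset.mul_sum, map_sum]
  refine Ideal.sum_mem _ fun i _ => ?_
  have h1 : F * homogeneousComponent i g ∈ homogeneousSubmodule (Fin 5) ℂ (d + i) :=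
    hF.mul (homogeneousComponent_isHomogeneous i g)
  rw [homogeneousComponent_of_mem h1]
  split_ifs
  · exact Ideal.mul_mem_right _ _ (Ideal.mem_span_singleton_self F)
  · exact Ideal.zero_mem _

/-- larger denominators -/
theorem LI_dvd {I : Ideal A} {s s' : A} {m : ℕ} (h : s ∣ s' ^ m) {x : K} (hx : x ∈ LI I s) :
    x ∈ LI I s' := by
  obtain ⟨n, p, hp, hx⟩ := hx
  obtain ⟨e, he⟩ := h
  refine ⟨m * n, e ^ n * p, I.mul_mem_left _ hp, ?_⟩
  rw [pow_mul, ← map_pow, he, map_mul, map_mul, ← hx, map_pow]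
  ring

theorem LI_top {I : Ideal A} {s : A} {x : K} (hx : x ∈ LI I s) : x ∈ LI ⊤ s := by
  obtain ⟨n, p, _, hx⟩ := hx
  exact ⟨n, p, trivial, hx⟩

theorem LI_alg (s c : A) : algebraMap A K c ∈ LI ⊤ s := ⟨0, c, trivial, by simp⟩

/-- smaller denominators, for a prime ideal -/
theorem LI_prime {I : Ideal A} (hI : I.IsPrime) {s r : A} (hs : s ∉ I) (hr : r ∉ I)
    {x : K} (hx : x ∈ LI I (s * r)) (hx' : x ∈ LI ⊤ s) : x ∈ LI I s := by
  obtain ⟨n, p, hp, hx⟩ := hx
  obtain ⟨m, q, _, hx'⟩ := hx'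
  refine ⟨m, q, ?_, hx'⟩
  have h1 : algebraMap A K ((s * r) ^ n * q) = algebraMap A K (s ^ m * p) := by
    rw [map_mul, map_mul, ← hx', ← hx, map_pow, map_pow]
    ring
  have h2 : (s * r) ^ n * q = s ^ m * p := IsFractionRing.injective A K h1
  have h3 : (s * r) ^ n * q ∈ I := by
    rw [h2]
    exact I.mul_mem_left _ hp
  rcases hI.mem_or_mem h3 with h4 | h4
  · have h5 := hI.mem_of_pow_mem n h4
    rcases hI.mem_or_mem h5 with h6 | h6
    · exact absurd h6 hs
    · exact absurd h6 hr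
  · exact h4

end CH0

theorem t_CH0 (h1 : S_CHG) (h2 : S_POW) : S_CH0 := by
  intro d F P u g del gam a hD t s hs hss
  have hne : ∀ i, u i ≠ 0 := by
    intro i h
    apply hD.u_not i
    rw [h]
    exact P.zero_mem
  have hFI : (Ideal.span {F} : Ideal A).IsPrime :=
    (Ideal.span_singleton_prime hD.F_prime.ne_zero).mpr hD.F_prime
  have hnot : ∀ i, u i ∉ Ideal.span {F} := by
    intro i h
    exact hD.u_not i ((Ideal.span_singleton_le_iff_mem P).mpr hD.F_mem h)
  have hnzd : ∀ i, NZD (Ideal.span {F}) (u i) := by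
    intro i f hf
    rcases hFI.mem_or_mem hf with h | h
    · exact absurd h (hnot i)
    · exact h
  have hpow : ∀ n, NZD (Ideal.span {F} ⊔ Ideal.span {u 0 ^ n}) (u 1) := by
    intro n
    have h3 := h2 4 ![F, u 0, u 1, u 2] ![1, n, 1, 1] hD.reg {0, 1} 2 (by decide)
    have e1 : (fun i => ![F, u 0, u 1, u 2] i ^ ![1, n, 1, 1] i) ''
        ((({0, 1} : Finset (Fin 4)) : Set (Fin 4))) = {F, u 0 ^ n} := by
      rw [Finset.coe_insert, Finset.coe_singleton, Set.image_insert_eq, Set.image_singleton]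
      simp
    rw [e1, Ideal.span_insert] at h3
    simpa using h3
  obtain ⟨c, hc1, hc2, hc3, hc4⟩ := h1 (Ideal.span {F}) (u 0) (u 1) (del 0) (del 1) t (s 0) (s 1)
    (CH0.homId_span hD.F_hom) (hD.del_pos 0) (hD.del_pos 1) (hD.u_hom 0) (hD.u_hom 1) (hne 0)
    (hne 1) (hnzd 0) (hnzd 1) hpow (hs 0).1 (hs 1).1 (hs 0).2 (hs 1).2 (hss 0 1)
  refine ⟨c, hc1, hc2, ?_⟩
  have hc5 : s 2 - algebraMap A K c ∈ LI (Ideal.span {F}) (u 2) := by
    refine CH0.LI_prime hFI (hnot 2) (hnot 0) ?_ (Submodule.sub_mem _ (hs 2).1 (CH0.LI_alg _ _))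
    have e : s 2 - algebraMap A K c = (s 2 - s 0) + (s 0 - algebraMap A K c) := by ring
    rw [e]
    refine Submodule.add_mem _ (hss 2 0) (CH0.LI_dvd (m := 1) ?_ hc3)
    rw [pow_one]
    exact Dvd.intro_left _ rfl
  intro i
  fin_cases i
  · exact hc3
  · exact hc4
  · exact hc5

end Pool.Agent.NOD.L3
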