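import Pool.Agent.NOD.StmL

/-!
# PROJECT NOD, section S3, piece CH1: the cocycles of `A / F` split.
-/

set_option autoImplicit false

namespace Pool.Agent.NOD.L3

open MvPolynomial

namespace CH1

theorem hc_mul {v : A} {e : ℕ} (hv : v.IsHomogeneous e) (b : A) (k : ℕ) :
    homogeneousComponent (k + e) (v * b) = v * homogeneousComponent k b := by
  have h1 : v * b = ∑ j ∈ Finset.range (b.totalDegree + 1), v * homogeneousComponent j b := by
    rw [← Finset.mul_sum, sum_homogeneousComponent]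
  rw [h1, map_sum]
  have h2 : ∀ j, homogeneousComponent (k + e) (v * homogeneousComponent j b) =
      if j = k then v * homogeneousComponent j b else 0 := by
    intro j
    have h3 : (v * homogeneousComponent j b).IsHomogeneous (e + j) :=
      hv.mul (homogeneousComponent_isHomogeneous j b)
    rw [homogeneousComponent_of_mem ((mem_homogeneousSubmodule _ _).2 h3)]
    by_cases h : j = k
    · rw [if_pos (by omega), if_pos h]
    · rw [if_neg (by omega), if_neg h]
  simp only [h2]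
  rw [Finset.sum_ite_eq']
  split_ifs with h
  · rfl
  · rw [homogeneousComponent_eq_zero _ _ (by rw [Finset.mem_range] at h; omega), mul_zero]

theorem dvd_hc {F : A} {d : ℕ} (hF : F.IsHomogeneous d) (f : A) (m : ℕ) :
    F ∣ homogeneousComponent m (F * f) := by
  have h1 : F * f = ∑ j ∈ Finset.range (f.totalDegree + 1), F * homogeneousComponent j f := by
    rw [← Finset.mul_sum, sum_homogeneousComponent]
  rw [h1, map_sum]
  refine Finset.dvd_sum fun j _ => ?_
  have h3 : (F * homogeneousComponent j f).IsHomogeneous (d + j) :=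
    hF.mul (homogeneousComponent_isHomogeneous j f)
  rw [homogeneousComponent_of_mem ((mem_homogeneousSubmodule _ _).2 h3)]
  split_ifs
  · exact dvd_mul_right _ _
  · exact dvd_zero _

theorem hc_self {p : A} {m : ℕ} (hp : p.IsHomogeneous m) : homogeneousComponent m p = p := by
  rw [homogeneousComponent_of_mem ((mem_homogeneousSubmodule _ _).2 hp), if_pos rfl]

/-- enlarge the denominators -/
theorem LI_mul {I : Ideal A} {s : A} (w : A) {x : K} (hx : x ∈ LI I s) : x ∈ LI I (s * w) := by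
  obtain ⟨n, p, hp, h⟩ := hx
  refine ⟨n, w ^ n * p, I.mul_mem_left _ hp, ?_⟩
  rw [map_mul, map_mul, mul_pow, ← h, map_pow]
  ring

theorem LI_cancel {F s w : A} (hF : Prime F) (hw : ¬ F ∣ w) {x : K} (h1 : x ∈ LI ⊤ s)
    (h2 : x ∈ LI (Ideal.span {F}) (s * w)) : x ∈ LI (Ideal.span {F}) s := by
  obtain ⟨n, p, -, hp⟩ := h1
  obtain ⟨m, q, hq, h⟩ := h2
  refine ⟨n + m, s ^ m * p, ?_, ?_⟩
  · rw [Ideal.mem_span_singleton] at hq ⊢
    have h3 : w ^ m * (s ^ m * p) = s ^ n * q := by
      apply IsFractionRing.injective A K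
      simp only [map_mul, map_pow]
      rw [← hp, ← h, map_mul]
      ring
    have h4 : F ∣ w ^ m * (s ^ m * p) := by
      rw [h3]; exact dvd_mul_of_dvd_right hq _
    rcases hF.dvd_or_dvd h4 with h5 | h5
    · exact absurd (hF.dvd_of_dvd_pow h5) hw
    · exact h5
  · rw [map_mul, map_pow, ← hp]
    ring

theorem not_dvd {d : ℕ} {F : A} {P : Ideal A} {u g : Fin 3 → A} {del gam : Fin 3 → ℕ}
    {a : ℕ → Fin 3 → Fin 3 → K} (D : Dat d F P u g del gam a) (i : Fin 3) : ¬ F ∣ u i := by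
  intro h
  exact D.u_not i (P.mem_of_dvd h D.F_mem)

/-- the three pairs suffice -/
theorem all_pairs {d : ℕ} {F : A} {P : Ideal A} {u g : Fin 3 → A} {del gam : Fin 3 → ℕ}
    {a : ℕ → Fin 3 → Fin 3 → K} (D : Dat d F P u g del gam a) (E : Fin 3 → Fin 3 → K)
    (hE : ∀ i j, E i j ∈ LI ⊤ (u i * u j))
    (hc : ∀ i j l, E i j + E j l - E i l ∈ LI (Ideal.span {F}) (u i * u j * u l))
    (h01 : E 0 1 ∈ LI (Ideal.span {F}) (u 0 * u 1))
    (h12 : E 1 2 ∈ LI (Ideal.span {F}) (u 1 * u 2))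
    (h02 : E 0 2 ∈ LI (Ideal.span {F}) (u 0 * u 2)) :
    ∀ i j, E i j ∈ LI (Ideal.span {F}) (u i * u j) := by
  have hii : ∀ i, E i i ∈ LI (Ideal.span {F}) (u i * u i) := by
    intro i
    have h := hc i i i
    rw [add_sub_cancel_right] at h
    exact LI_cancel D.F_prime (not_dvd D i) (hE i i) h
  have hji : ∀ i j, E i j ∈ LI (Ideal.span {F}) (u i * u j) →
      E j i ∈ LI (Ideal.span {F}) (u j * u i) := by
    intro i j h
    have h1 := hc i j i
    have h2 : E j i = (E i j + E j i - E i i) - E i j + E i i := by ring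
    have h3 : E j i ∈ LI (Ideal.span {F}) (u j * u i * u i) := by
      rw [h2]
      refine Submodule.add_mem _ (Submodule.sub_mem _ ?_ ?_) ?_
      · have e : u j * u i * u i = u i * u j * u i := by ring
        rw [e]; exact h1
      · have e : u j * u i * u i = u i * u j * u i := by ring
        rw [e]; exact LI_mul _ h
      · have e : u j * u i * u i = u i * u i * u j := by ring
        rw [e]; exact LI_mul _ (hii i)
    exact LI_cancel D.F_prime (not_dvd D i) (hE j i) h3
  intro i j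
  fin_cases i <;> fin_cases j
  · exact hii 0
  · exact h01
  · exact h02
  · exact hji 0 1 h01
  · exact hii 1
  · exact h12
  · exact hji 0 2 h02
  · exact hji 1 2 h12
  · exact hii 2

theorem span_three {a b c x : A} (h : x ∈ Ideal.span ({a, b, c} : Set A)) :
    ∃ f p q, x = a * f + b * p + c * q := by
  rw [Ideal.mem_span_insert] at h
  obtain ⟨f, z, hz, rfl⟩ := h
  rw [Ideal.mem_span_pair] at hz
  obtain ⟨p, q, rfl⟩ := hz
  exact ⟨f, p, q, by ring⟩

theorem span_two {a b x : A} (h : x ∈ Ideal.span ({a, b} : Set A)) :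
    ∃ f p, x = a * f + b * p := by
  rw [Ideal.mem_span_pair] at h
  obtain ⟨p, q, rfl⟩ := h
  exact ⟨p, q, by ring⟩

/-- the section `b / v^n` -/
theorem mk_sec {v b : A} {e k n : ℕ} {t : ℤ} (hv : v.IsHomogeneous e) (hv0 : v ≠ 0)
    (hb : b.IsHomogeneous k) (hk : (k : ℤ) = t + n * e) :
    ∃ z : K, z ∈ LI ⊤ v ∧ z ∈ HS t ∧ algebraMap A K v ^ n * z = algebraMap A K b := by
  have h0 : algebraMap A K v ≠ 0 := by
    intro h
    exact hv0 ((IsFractionRing.injective A K) (by rw [h, map_zero]))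
  refine ⟨algebraMap A K b / algebraMap A K v ^ n, ?_, ?_, ?_⟩
  · exact ⟨n, b, Submodule.mem_top, by field_simp⟩
  · refine ⟨k, n * e, b, v ^ n, hb, ?_, pow_ne_zero _ hv0, ?_, ?_⟩
    · have := hv.pow n
      rwa [mul_comm] at this
    · push_cast
      omega
    · rw [map_pow]
      field_simp
  · field_simp

end CH1

open CH1

theorem t_CH1 (h1 : S_HNUM) (h2 : S_POW) : S_CH1 := by
  intro d F P u g del gam a D t y hy hc
  have hF := D.F_prime
  have hu0 : ∀ i, u i ≠ 0 := by
    intro i h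
    exact not_dvd D i (by rw [h]; exact dvd_zero _)
  have hF0 : F ≠ 0 := hF.ne_zero
  -- numerators
  have num : ∀ i j, ∃ N : ℕ, ∀ n ≥ N, ∃ (m : ℕ) (p : A), (m : ℤ) = t + n * (del i + del j : ℕ) ∧
      p.IsHomogeneous m ∧ algebraMap A K (u i * u j) ^ n * y i j = algebraMap A K p := by
    intro i j
    obtain ⟨N, hN⟩ := h1 ⊤ (u i * u j) (del i + del j) t (y i j)
      (by have := D.del_pos i; omega) ((D.u_hom i).mul (D.u_hom j))
      (mul_ne_zero (hu0 i) (hu0 j)) (hy i j).1 (hy i j).2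
    refine ⟨N, fun n hn => ?_⟩
    obtain ⟨m, p, h3, h4, -, h5⟩ := hN n hn
    exact ⟨m, p, h3, h4, h5⟩
  choose N hN using num
  obtain ⟨n, hn⟩ : ∃ n : ℕ, n = N 0 1 + N 1 2 + N 0 2 + (-t).toNat := ⟨_, rfl⟩
  have hkt : ∀ i, ∃ k : ℕ, (k : ℤ) = t + n * del i := by
    intro i
    have h3 : 0 ≤ t + n * del i := by
      have h4 : -t ≤ n := by omega
      have h5 : (1 : ℤ) ≤ del i := by exact_mod_cast D.del_pos i
      have h6 : (0 : ℤ) ≤ n := by positivity
      nlinarith
    exact ⟨(t + n * del i).toNat, Int.toNat_of_nonneg h3⟩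
  choose kk hkk using hkt
  obtain ⟨m01, p01, e01, q01, r01⟩ := hN 0 1 n (by omega)
  obtain ⟨m12, p12, e12, q12, r12⟩ := hN 1 2 n (by omega)
  obtain ⟨m02, p02, e02, q02, r02⟩ := hN 0 2 n (by omega)
  have k0 := hkk 0
  have k1 := hkk 1
  have k2 := hkk 2
  have v0 : (u 0 ^ n).IsHomogeneous (del 0 * n) := (D.u_hom 0).pow n
  have v1 : (u 1 ^ n).IsHomogeneous (del 1 * n) := (D.u_hom 1).pow n
  have v2 : (u 2 ^ n).IsHomogeneous (del 2 * n) := (D.u_hom 2).pow n
  have a01 : m01 = kk 0 + del 1 * n := by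
    have : (m01 : ℤ) = kk 0 + del 1 * n := by rw [e01, k0]; push_cast; ring
    exact_mod_cast this
  have b01 : m01 = kk 1 + del 0 * n := by
    have : (m01 : ℤ) = kk 1 + del 0 * n := by rw [e01, k1]; push_cast; ring
    exact_mod_cast this
  have a12 : m12 = kk 1 + del 2 * n := by
    have : (m12 : ℤ) = kk 1 + del 2 * n := by rw [e12, k1]; push_cast; ring
    exact_mod_cast this
  have b12 : m12 = kk 2 + del 1 * n := by
    have : (m12 : ℤ) = kk 2 + del 1 * n := by rw [e12, k2]; push_cast; ring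
    exact_mod_cast this
  -- the cocycle condition
  have hD : F ∣ u 2 ^ n * p01 + u 0 ^ n * p12 - u 1 ^ n * p02 := by
    obtain ⟨M, q, hq, h⟩ := hc 0 1 2
    rw [Ideal.mem_span_singleton] at hq
    have h3 : (u 0 * u 1 * u 2) ^ M * (u 2 ^ n * p01 + u 0 ^ n * p12 - u 1 ^ n * p02) =
        (u 0 * u 1 * u 2) ^ n * q := by
      apply IsFractionRing.injective A K
      simp only [map_mul, map_pow, map_sub, map_add]
      rw [← r01, ← r12, ← r02, ← h]
      simp only [map_mul]
      ring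
    have h4 : F ∣ (u 0 * u 1 * u 2) ^ M * (u 2 ^ n * p01 + u 0 ^ n * p12 - u 1 ^ n * p02) := by
      rw [h3]; exact dvd_mul_of_dvd_right hq _
    rcases hF.dvd_or_dvd h4 with h5 | h5
    · exfalso
      rcases hF.dvd_or_dvd (hF.dvd_of_dvd_pow h5) with h6 | h6
      · rcases hF.dvd_or_dvd h6 with h7 | h7
        · exact not_dvd D 0 h7
        · exact not_dvd D 1 h7
      · exact not_dvd D 2 h6
    · exact h5
  -- regular sequences
  have hR := h2 4 ![F, u 0, u 1, u 2] ![1, n, n, n] D.reg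
  have R1 : NZD (Ideal.span {F, u 0 ^ n, u 1 ^ n}) (u 2 ^ n) := by
    have := hR {0, 1, 2} 3 (by decide)
    have e : (fun i => ![F, u 0, u 1, u 2] i ^ ![1, n, n, n] i) ''
        ((({0, 1, 2} : Finset (Fin 4)) : Set (Fin 4))) = {F, u 0 ^ n, u 1 ^ n} := by
      simp [Set.image_insert_eq, Set.image_singleton]
    rw [e] at this
    exact this
  have R2 : NZD (Ideal.span {F, u 1 ^ n}) (u 0 ^ n) := by
    have := hR {0, 2} 1 (by decide)
    have e : (fun i => ![F, u 0, u 1, u 2] i ^ ![1, n, n, n] i) ''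
        ((({0, 2} : Finset (Fin 4)) : Set (Fin 4))) = {F, u 1 ^ n} := by
      simp [Set.image_insert_eq, Set.image_singleton]
    rw [e] at this
    exact this
  obtain ⟨w, hw⟩ := hD
  obtain ⟨f, b', c', hp01⟩ : ∃ f b c, p01 = F * f + u 0 ^ n * b + u 1 ^ n * c := by
    apply span_three
    apply R1
    have : u 2 ^ n * p01 = F * w - u 0 ^ n * p12 + u 1 ^ n * p02 := by rw [← hw]; ring
    rw [this]
    refine Ideal.add_mem _ (Ideal.sub_mem _ ?_ ?_) ?_
    · exact Ideal.mul_mem_right _ _ (Ideal.subset_span (by simp))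
    · exact Ideal.mul_mem_right _ _ (Ideal.subset_span (by simp))
    · exact Ideal.mul_mem_right _ _ (Ideal.subset_span (by simp))
  -- `b` and `c`
  obtain ⟨b, hb⟩ : ∃ b, b = homogeneousComponent (kk 0) c' := ⟨_, rfl⟩
  obtain ⟨c, hcc⟩ : ∃ c, c = -homogeneousComponent (kk 1) b' := ⟨_, rfl⟩
  have hbh : b.IsHomogeneous (kk 0) := by rw [hb]; exact homogeneousComponent_isHomogeneous _ _
  have hch : c.IsHomogeneous (kk 1) := by
    rw [hcc]; exact (homogeneousComponent_isHomogeneous _ _).neg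
  have E1 : F ∣ p01 - (u 1 ^ n * b - u 0 ^ n * c) := by
    have h3 := hc_self q01
    have h4 : p01 - (u 1 ^ n * b - u 0 ^ n * c) = homogeneousComponent m01 (F * f) := by
      have h5 : homogeneousComponent m01 (u 0 ^ n * b') = u 0 ^ n * homogeneousComponent (kk 1) b' := by
        rw [b01]; exact hc_mul v0 b' (kk 1)
      have h6 : homogeneousComponent m01 (u 1 ^ n * c') = u 1 ^ n * homogeneousComponent (kk 0) c' := by
        rw [a01]; exact hc_mul v1 c' (kk 0)
      have h7 : homogeneousComponent m01 p01 = homogeneousComponent m01 (F * f) +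
          u 0 ^ n * homogeneousComponent (kk 1) b' + u 1 ^ n * homogeneousComponent (kk 0) c' := by
        rw [← h5, ← h6, ← map_add, ← map_add, ← hp01]
      rw [hb, hcc]
      rw [h3] at h7
      linear_combination h7
    rw [h4]
    exact dvd_hc D.F_hom f m01
  obtain ⟨f1, hf1⟩ := E1
  -- `e`
  obtain ⟨f2, e', hp12⟩ : ∃ f e, p12 - u 2 ^ n * c = F * f + u 1 ^ n * e := by
    apply span_two
    apply R2
    have : u 0 ^ n * (p12 - u 2 ^ n * c) = F * (w - u 2 ^ n * f1) + u 1 ^ n * (p02 - u 2 ^ n * b) := by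
      linear_combination hw - u 2 ^ n * hf1
    rw [this]
    refine Ideal.add_mem _ ?_ ?_
    · exact Ideal.mul_mem_right _ _ (Ideal.subset_span (by simp))
    · exact Ideal.mul_mem_right _ _ (Ideal.subset_span (by simp))
  obtain ⟨e, he⟩ : ∃ e, e = -homogeneousComponent (kk 2) e' := ⟨_, rfl⟩
  have heh : e.IsHomogeneous (kk 2) := by
    rw [he]; exact (homogeneousComponent_isHomogeneous _ _).neg
  have E2 : F ∣ p12 - (u 2 ^ n * c - u 1 ^ n * e) := by
    have h0 : (p12 - u 2 ^ n * c).IsHomogeneous m12 := by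
      refine q12.sub ?_
      have := v2.mul hch
      rw [a12, add_comm]
      exact this
    have h3 := hc_self h0
    have h4 : p12 - (u 2 ^ n * c - u 1 ^ n * e) = homogeneousComponent m12 (F * f2) := by
      have h6 : homogeneousComponent m12 (u 1 ^ n * e') = u 1 ^ n * homogeneousComponent (kk 2) e' := by
        rw [b12]; exact hc_mul v1 e' (kk 2)
      have h7 : homogeneousComponent m12 (p12 - u 2 ^ n * c) = homogeneousComponent m12 (F * f2) +
          u 1 ^ n * homogeneousComponent (kk 2) e' := by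
        rw [← h6, ← map_add, ← hp12]
      rw [he]
      rw [h3] at h7
      linear_combination h7
    rw [h4]
    exact dvd_hc D.F_hom f2 m12
  obtain ⟨f3, hf3⟩ := E2
  have E3 : F ∣ p02 - (u 2 ^ n * b - u 0 ^ n * e) := by
    have h3 : F ∣ u 1 ^ n * (p02 - (u 2 ^ n * b - u 0 ^ n * e)) := by
      refine ⟨u 2 ^ n * f1 + u 0 ^ n * f3 - w, ?_⟩
      linear_combination u 2 ^ n * hf1 + u 0 ^ n * hf3 - hw
    rcases hF.dvd_or_dvd h3 with h4 | h4
    · exact absurd (hF.dvd_of_dvd_pow h4) (not_dvd D 1)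
    · exact h4
  obtain ⟨z0, x0, s0, t0⟩ := mk_sec (D.u_hom 0) (hu0 0) hbh k0
  obtain ⟨z1, x1, s1, t1⟩ := mk_sec (D.u_hom 1) (hu0 1) hch k1
  obtain ⟨z2, x2, s2, t2⟩ := mk_sec (D.u_hom 2) (hu0 2) heh k2
  refine ⟨![z0, z1, z2], ?_, ?_⟩
  · intro i
    fin_cases i
    · exact ⟨x0, s0⟩
    · exact ⟨x1, s1⟩
    · exact ⟨x2, s2⟩
  have hz : ∀ i, (![z0, z1, z2] : Fin 3 → K) i ∈ LI ⊤ (u i) := by
    intro i
    fin_cases i
    · exact x0
    · exact x1
    · exact x2
  refine all_pairs D (fun i j => y i j - (![z0, z1, z2] i - ![z0, z1, z2] j)) ?_ ?_ ?_ ?_ ?_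
  · intro i j
    refine Submodule.sub_mem _ (hy i j).1 (Submodule.sub_mem _ (LI_mul _ (hz i)) ?_)
    rw [mul_comm]
    exact LI_mul _ (hz j)
  · intro i j l
    have e5 : (y i j - (![z0, z1, z2] i - ![z0, z1, z2] j)) +
        (y j l - (![z0, z1, z2] j - ![z0, z1, z2] l)) -
        (y i l - (![z0, z1, z2] i - ![z0, z1, z2] l)) = y i j + y j l - y i l := by ring
    rw [e5]
    exact hc i j l
  · refine ⟨n, _, Ideal.mem_span_singleton.2 ⟨f1, hf1⟩, ?_⟩
    show _ * (y 0 1 - (z0 - z1)) = _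
    simp only [map_sub, map_mul, map_pow]
    rw [← r01, ← t0, ← t1]
    simp only [map_mul]
    ring
  · refine ⟨n, _, Ideal.mem_span_singleton.2 ⟨f3, hf3⟩, ?_⟩
    show _ * (y 1 2 - (z1 - z2)) = _
    simp only [map_sub, map_mul, map_pow]
    rw [← r12, ← t1, ← t2]
    simp only [map_mul]
    ring
  · obtain ⟨f4, hf4⟩ := E3
    refine ⟨n, _, Ideal.mem_span_singleton.2 ⟨f4, hf4⟩, ?_⟩
    show _ * (y 0 2 - (z0 - z2)) = _
    simp only [map_sub, map_mul, map_pow]
    rw [← r02, ← t0, ← t2]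
    simp only [map_mul]
    ring

end Pool.Agent.NOD.L3
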