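import Pool.Agent.NOD.StmL
import Pool.Agent.NOD.S1.Basic

set_option autoImplicit false

namespace Pool.Agent.NOD.L3

open MvPolynomial

theorem t_CHG (h1 : S_HNUM) : S_CHG := by
  intro I v w δ ε t x y hI hδ hε hv hw hv0 hw0 nv nw nvw hx hy hxt hyt hxy
  obtain ⟨N1, H1⟩ := h1 ⊤ v δ t x hδ hv hv0 hx hxt
  obtain ⟨N2, H2⟩ := h1 ⊤ w ε t y hε hw hw0 hy hyt
  obtain ⟨m, p, hm, hp, -, ep⟩ := H1 (max N1 N2) (le_max_left _ _)
  obtain ⟨m', q, hm', hq, -, eq⟩ := H2 (max N1 N2) (le_max_right _ _)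
  generalize max N1 N2 = n at *
  have hinj : Function.Injective (algebraMap A K) := IsFractionRing.injective A K
  have key : w ^ n * p - v ^ n * q ∈ I := by
    obtain ⟨N, r, hr, e⟩ := hxy
    have e2 : algebraMap A K ((v * w) ^ N * (w ^ n * p - v ^ n * q)) =
        algebraMap A K ((v * w) ^ n * r) := by
      rw [map_mul, map_mul (algebraMap A K) ((v * w) ^ n) r, ← e]
      simp only [map_mul, map_sub, map_pow] at ep eq ⊢
      rw [← ep, ← eq]
      ring
    have e3 := hinj e2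
    apply (nv.mul nw).pow N
    rw [e3]
    exact I.mul_mem_left _ hr
  have hp2 : p ∈ I ⊔ Ideal.span {v ^ n} := by
    apply (nvw n).pow n
    have e4 : w ^ n * p = (w ^ n * p - v ^ n * q) + v ^ n * q := by ring
    rw [e4]
    exact Ideal.add_mem _ (Ideal.mem_sup_left key)
      (Ideal.mul_mem_right _ _ (Ideal.mem_sup_right (Ideal.mem_span_singleton_self _)))
  have hc : ∃ c : A, (0 ≤ t → c.IsHomogeneous t.toNat) ∧ (t < 0 → c = 0) ∧
      ∃ i ∈ I, p = v ^ n * c + i := by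
    rcases hom_mem_sup hI (hv.pow n) hp hp2 with ⟨h3, h4⟩ | ⟨h3, c, hc, i, hi, e⟩
    · refine ⟨0, fun _ => isHomogeneous_zero _ _ _, fun _ => rfl, p, h4, by ring⟩
    · have e5 : (m : ℤ) - δ * n = t := by
        rw [hm]; ring
      have e6 : ((m - δ * n : ℕ) : ℤ) = t := by
        rw [← e5]
        push_cast [h3]
        ring
      refine ⟨c, fun _ => ?_, fun ht => ?_, i, hi, e⟩
      · have : t.toNat = m - δ * n := by omega
        rw [this]
        exact hc
      · exfalso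
        omega
  obtain ⟨c, hc1, hc2, i, hi, e⟩ := hc
  refine ⟨c, hc1, hc2, ⟨n, i, hi, ?_⟩, ⟨n, q - w ^ n * c, ?_, ?_⟩⟩
  · rw [mul_sub, ep, e]
    simp only [map_add, map_mul, map_pow]
    ring
  · apply nv.pow n
    have e7 : v ^ n * (q - w ^ n * c) = w ^ n * i - (w ^ n * p - v ^ n * q) := by
      rw [e]
      ring
    rw [e7]
    exact I.sub_mem (I.mul_mem_left _ hi) key
  · rw [mul_sub, eq]
    simp only [map_sub, map_mul, map_pow]

end Pool.Agent.NOD.L3
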