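import Pool.Agent.NOD.StmL

/-! Project NOD, section S3, piece DIMA (adapted from Pool/Agent/NOD/S5/HOM4.lean). -/

set_option autoImplicit false

namespace Pool.Agent.NOD.L3

open MvPolynomial Module

theorem t_DIMA : S_DIMA := by
  intro n
  have h1 : homogeneousSubmodule (Fin 5) ℂ n =
      restrictSupport ℂ {d : Fin 5 →₀ ℕ | d.degree = n} :=
    homogeneousSubmodule_eq_finsupp_supported (R := ℂ) (σ := Fin 5) n
  rw [h1, Module.finrank_eq_nat_card_basis
    (basisRestrictSupport ℂ {d : Fin 5 →₀ ℕ | d.degree = n})]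
  have e : {d : Fin 5 →₀ ℕ | d.degree = n} ≃ Sym (Fin 5) n :=
    (Equiv.subtypeEquivRight (fun d => Iff.rfl)).trans
      (Sym.equivNatSum (Fin 5) n).symm
  rw [Nat.card_congr e, Nat.card_eq_fintype_card, Sym.card_sym_eq_choose, Fintype.card_fin]
  have : 5 + n - 1 = n + 4 := by omega
  rw [this, ← Nat.choose_symm_add]

end Pool.Agent.NOD.L3
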