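import Pool.Agent.NOD.StmL

/-! NOD section S3, piece DIV1. -/

set_option autoImplicit false

namespace Pool.Agent.NOD.L3

open MvPolynomial

namespace DIV1

/-- `y` is the image of `x` in the localization `D`. -/
def Rl {D : Type} [CommRing D] (φ : A →+* D) (u : A) (x : K) (y : D) : Prop :=
  ∃ (n : ℕ) (p : A), algebraMap A K u ^ n * x = algebraMap A K p ∧ φ u ^ n * y = φ p

theorem alg_inj : Function.Injective (algebraMap A K) := IsFractionRing.injective A K

theorem LI_mono {I J : Ideal A} (h : I ≤ J) {s : A} {x : K} (hx : x ∈ LI I s) : x ∈ LI J s := by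
  obtain ⟨n, p, hp, e⟩ := hx
  exact ⟨n, p, h hp, e⟩

section

variable {D : Type} [CommRing D] (φ : A →+* D) (q u : A)

theorem Rl_exists (hu : IsUnit (φ u)) {x : K} (hx : x ∈ LI ⊤ u) : ∃ y, Rl φ u x y := by
  obtain ⟨n, p, -, e⟩ := hx
  obtain ⟨v, hv⟩ := (hu.pow n)
  refine ⟨↑v⁻¹ * φ p, n, p, e, ?_⟩
  rw [← hv, ← mul_assoc, Units.mul_inv, one_mul]

theorem Rl_mul {x : K} {y : D} (c : A) (h : Rl φ u x y) :
    Rl φ u (algebraMap A K c * x) (φ c * y) := by
  obtain ⟨n, p, e1, e2⟩ := h
  refine ⟨n, c * p, ?_, ?_⟩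
  · rw [map_mul, ← e1]; ring
  · rw [map_mul, ← e2]; ring

theorem Rl_c (hu : IsUnit (φ u)) (hu0 : u ≠ 0) (hq : φ q = 0) {x : K} {y : D} (f : A)
    (h : Rl φ u x y) (hx : x ∈ LI (Ideal.span {q, f}) u) : y ∈ Ideal.span {φ f} := by
  obtain ⟨n, p, e1, e2⟩ := h
  obtain ⟨m, p', hp', e'⟩ := hx
  have h1 : u ^ m * p = u ^ n * p' := by
    apply alg_inj
    rw [map_mul, map_mul, ← e1, ← e', map_pow, map_pow]
    ring
  have h2 : φ p' ∈ Ideal.span {φ f} := by
    rw [Ideal.mem_span_pair] at hp'
    obtain ⟨a, b, rfl⟩ := hp'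
    rw [map_add, map_mul, map_mul, hq, mul_zero, zero_add]
    exact Ideal.mul_mem_left _ _ (Ideal.mem_span_singleton_self _)
  have h3 : φ u ^ (m + n) * y ∈ Ideal.span {φ f} := by
    have : φ u ^ (m + n) * y = φ u ^ n * φ p' := by
      rw [pow_add, mul_assoc, e2, ← map_pow, ← map_pow, ← map_mul, h1, map_mul]
    rw [this]
    exact Ideal.mul_mem_left _ _ h2
  exact (Ideal.unit_mul_mem_iff_mem _ (hu.pow (m + n))).1 h3

end

end DIV1

open DIV1 in
theorem t_DIV1 (h1 : S_ARK) : S_DIV1 := by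
  intro F q c u z hq hqc hu0 hz hz1 hcz
  by_cases hqu : q ∣ u
  · intro k hk
    obtain ⟨n, p, -, e⟩ := hz k hk
    refine ⟨n + 1, u * p, ?_, ?_⟩
    · apply Ideal.mul_mem_right
      apply Ideal.span_mono (s := {q}) (by simp)
      exact Ideal.mem_span_singleton.2 hqu
    · rw [map_mul, ← e]; ring
  · have hP : (Ideal.span {q}).IsPrime := (Ideal.span_singleton_prime hq.ne_zero).2 hq
    let B := A ⧸ Ideal.span {q}
    haveI : IsDomain B := Ideal.Quotient.isDomain _
    let ub : B := Ideal.Quotient.mk _ u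
    have hub : ub ≠ 0 := by
      intro h
      rw [Ideal.Quotient.eq_zero_iff_mem, Ideal.mem_span_singleton] at h
      exact hqu h
    let D := Localization.Away ub
    have hM : Submonoid.powers ub ≤ nonZeroDivisors B := powers_le_nonZeroDivisors_of_noZeroDivisors hub
    haveI : IsDomain D := IsLocalization.isDomain_localization hM
    haveI : IsNoetherianRing D := IsLocalization.isNoetherianRing (Submonoid.powers ub) D inferInstance
    let φ : A →+* D := (algebraMap B D).comp (Ideal.Quotient.mk _)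
    have hinj : Function.Injective (algebraMap B D) := IsLocalization.injective D hM
    have hker : ∀ a : A, φ a = 0 ↔ q ∣ a := by
      intro a
      change algebraMap B D (Ideal.Quotient.mk _ a) = 0 ↔ _
      rw [map_eq_zero_iff _ hinj, Ideal.Quotient.eq_zero_iff_mem, Ideal.mem_span_singleton]
    have hunit : IsUnit (φ u) := IsLocalization.Away.algebraMap_isUnit ub
    have hc : φ c ≠ 0 := fun h => hqc ((hker c).1 h)
    have hq0 : φ q = 0 := (hker q).2 dvd_rfl
    obtain ⟨r, hr⟩ := h1 D (φ F) (φ c) hc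
    -- (d)
    have hd : ∀ (x : K) (y : D) (f : A), Rl φ u x y → y ∈ Ideal.span {φ f} →
        x ∈ LI (Ideal.span {q, f}) u := by
      intro x y f hxy hy
      obtain ⟨n, p, e1, e2⟩ := hxy
      rw [Ideal.mem_span_singleton'] at hy
      obtain ⟨w, hw⟩ := hy
      obtain ⟨⟨a', ⟨_, m, rfl⟩⟩, hm⟩ := IsLocalization.surj (Submonoid.powers ub) w
      obtain ⟨a, rfl⟩ := Ideal.Quotient.mk_surjective a'
      have hm' : w * φ u ^ m = φ a := by
        rw [← map_pow]; exact hm
      have h3 : φ (u ^ m * p - u ^ n * (f * a)) = 0 := by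
        rw [map_sub, map_mul, map_mul, map_mul, ← hm', ← e2, ← hw, map_pow, map_pow]
        ring
      have h4 := (hker _).1 h3
      refine ⟨m + n, u ^ m * p, ?_, ?_⟩
      · obtain ⟨t, ht⟩ := h4
        rw [Ideal.mem_span_pair]
        refine ⟨t, u ^ n * a, ?_⟩
        rw [sub_eq_iff_eq_add] at ht
        rw [ht]; ring
      · rw [map_mul, ← e1, map_pow]; ring
    intro k hk
    have hk1 : ∀ j, z (k + j) - z k ∈ LI (Ideal.span {F ^ k}) u := by
      intro j
      induction j with
      | zero => rw [add_zero, sub_self]; exact Submodule.zero_mem _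
      | succ j ih =>
        have e : z (k + (j + 1)) - z k = (z (k + j + 1) - z (k + j)) + (z (k + j) - z k) := by
          rw [← add_assoc]; ring
        rw [e]
        refine Submodule.add_mem _ (LI_mono ?_ (hz1 (k + j) (by omega))) ih
        rw [Ideal.span_singleton_le_span_singleton]
        exact pow_dvd_pow _ (Nat.le_add_right _ _)
    obtain ⟨y, hy⟩ := Rl_exists φ u hunit (hz (k + r) (by omega))
    have h5 := Rl_c φ q u hunit hu0 hq0 (F ^ (k + r)) (Rl_mul φ u c hy) (hcz (k + r) (by omega))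
    rw [map_pow] at h5
    have h6 := hr (k + r) (Nat.le_add_left _ _) y h5
    rw [Nat.add_sub_cancel, ← map_pow] at h6
    have h7 := hd _ _ _ hy h6
    have e : z k = z (k + r) - (z (k + r) - z k) := by ring
    rw [e]
    refine Submodule.sub_mem _ h7 (LI_mono ?_ (hk1 r))
    exact Ideal.span_mono (by simp)

end Pool.Agent.NOD.L3
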