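import Pool.Agent.NOD.StmL

/-! NOD section S3, piece DIVQ. -/

set_option autoImplicit false

namespace Pool.Agent.NOD.L3

open MvPolynomial

namespace DIVQ

theorem alg_inj : Function.Injective (algebraMap A K) := IsFractionRing.injective A K

theorem LI_mono {I J : Ideal A} (h : I ≤ J) {s : A} {x : K} (hx : x ∈ LI I s) : x ∈ LI J s := by
  obtain ⟨n, p, hp, e⟩ := hx
  exact ⟨n, p, h hp, e⟩

theorem LI_mul {I : Ideal A} {s : A} {x y : K} (hx : x ∈ LI ⊤ s) (hy : y ∈ LI I s) :
    x * y ∈ LI I s := by
  obtain ⟨n, p, -, e⟩ := hx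
  obtain ⟨m, p', hp', e'⟩ := hy
  refine ⟨n + m, p * p', I.mul_mem_left _ hp', ?_⟩
  rw [map_mul, ← e, ← e']; ring

theorem LI_mulmul {I J : Ideal A} {s : A} {x y : K} (hx : x ∈ LI J s) (hy : y ∈ LI I s) :
    x * y ∈ LI (J * I) s := by
  obtain ⟨n, p, hp, e⟩ := hx
  obtain ⟨m, p', hp', e'⟩ := hy
  refine ⟨n + m, p * p', Ideal.mul_mem_mul hp hp', ?_⟩
  rw [map_mul, ← e, ← e']; ring

theorem LI_left {I : Ideal A} {s : A} (w : A) {x : K} (hx : x ∈ LI I s) : x ∈ LI I (s * w) := by
  obtain ⟨n, p, hp, e⟩ := hx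
  refine ⟨n, w ^ n * p, I.mul_mem_left _ hp, ?_⟩
  rw [map_mul, map_mul, map_pow, ← e]; ring

theorem LI_right {I : Ideal A} {s : A} (w : A) {x : K} (hx : x ∈ LI I s) : x ∈ LI I (w * s) := by
  rw [mul_comm]; exact LI_left w hx

theorem LI_alg (c s : A) (I : Ideal A) (hc : c ∈ I) : algebraMap A K c ∈ LI I s :=
  ⟨0, c, hc, by simp⟩

theorem cancel {F q v : A} (hF : Prime F) (hq : ¬ F ∣ q) (hv : ¬ F ∣ v) (k : ℕ) {x : K}
    (hx : x ∈ LI ⊤ v) (hqx : algebraMap A K q * x ∈ LI (Ideal.span {F ^ k}) v) :
    x ∈ LI (Ideal.span {F ^ k}) v := by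
  obtain ⟨n, p, -, e⟩ := hx
  obtain ⟨m, p', hp', e'⟩ := hqx
  refine ⟨n, p, ?_, e⟩
  rw [Ideal.mem_span_singleton] at hp' ⊢
  have h1 : v ^ m * (q * p) = v ^ n * p' := by
    apply alg_inj
    rw [map_mul, map_mul, map_mul, ← e, ← e', map_pow, map_pow]
    ring
  have h2 : F ^ k ∣ v ^ m * (q * p) := h1 ▸ Dvd.dvd.mul_left hp' _
  have h3 := hF.pow_dvd_of_dvd_mul_left k (fun h => hv (hF.dvd_of_dvd_pow h)) h2
  exact hF.pow_dvd_of_dvd_mul_left k hq h3

theorem divq {F q v : A} (hqF : q ∣ F) (hq0 : q ≠ 0) (k : ℕ) {x : K}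
    (hx : x ∈ LI (Ideal.span {F ^ (k + 1)}) v) :
    x / algebraMap A K q ∈ LI (Ideal.span {F ^ k}) v := by
  obtain ⟨n, p, hp, e⟩ := hx
  rw [Ideal.mem_span_singleton] at hp
  obtain ⟨y, rfl⟩ := hp
  obtain ⟨w, rfl⟩ := hqF
  have hq' : algebraMap A K q ≠ 0 := fun h => hq0 ((map_eq_zero_iff _ alg_inj).1 h)
  refine ⟨n, (q * w) ^ k * (w * y), Ideal.mul_mem_right _ _ (Ideal.mem_span_singleton_self _), ?_⟩
  rw [mul_div_assoc', div_eq_iff hq', e, ← map_mul]
  exact congrArg (algebraMap A K) (by ring)

theorem HS_div {q : A} {δ : ℕ} (hq : q.IsHomogeneous δ) (hq0 : q ≠ 0) {τ : ℤ} {x : K}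
    (hx : x ∈ HS τ) : x / algebraMap A K q ∈ HS (τ - δ) := by
  have hq' : algebraMap A K q ≠ 0 := fun h => hq0 ((map_eq_zero_iff _ alg_inj).1 h)
  obtain ⟨n, m, p, r, hp, hr, hr0, h1, h2⟩ := hx
  refine ⟨n, δ + m, p, q * r, hp, hq.mul hr, mul_ne_zero hq0 hr0, ?_, ?_⟩
  · push_cast; omega
  · rw [map_mul, ← h2, ← mul_assoc, div_mul_cancel₀ _ hq']

theorem hom_split {q f p : A} {δ e m : ℕ} (hq : q.IsHomogeneous δ) (hf : f.IsHomogeneous e)
    (hp : p.IsHomogeneous m) (h : p ∈ Ideal.span {q, f}) :
    ∃ x : A, ((δ ≤ m → x.IsHomogeneous (m - δ)) ∧ (m < δ → x = 0)) ∧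
      p - q * x ∈ Ideal.span {f} := by
  classical
  rw [Ideal.mem_span_pair] at h
  obtain ⟨a, b, hab⟩ := h
  have h1 : homogeneousComponent m p = p := by
    rw [homogeneousComponent_of_mem hp, if_pos rfl]
  have key : ∀ (g c : A) (n : ℕ), g.IsHomogeneous n →
      homogeneousComponent m (c * g) = if n ≤ m then homogeneousComponent (m - n) c * g else 0 := by
    intro g c n hg
    have hc : c = ∑ i ∈ Finset.range (c.totalDegree + 1), homogeneousComponent i c :=
      (sum_homogeneousComponent c).symm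
    have h2 : ∀ i, homogeneousComponent m (homogeneousComponent i c * g) =
        if i + n = m then homogeneousComponent i c * g else 0 := by
      intro i
      rw [homogeneousComponent_of_mem ((homogeneousComponent_isHomogeneous i c).mul hg)]
      by_cases h : i + n = m
      · rw [if_pos h, if_pos h.symm]
      · rw [if_neg h, if_neg (fun h' => h h'.symm)]
    conv_lhs => rw [hc, Finset.sum_mul, map_sum]
    rw [Finset.sum_congr rfl fun i _ => h2 i]
    split_ifs with hnm
    · by_cases hmem : m - n ∈ Finset.range (c.totalDegree + 1)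
      · rw [Finset.sum_eq_single (m - n)]
        · rw [if_pos (by omega)]
        · intro i _ hi
          rw [if_neg (by omega)]
        · intro h; exact absurd hmem h
      · have hz : homogeneousComponent (m - n) c = 0 := by
          apply homogeneousComponent_eq_zero
          rw [Finset.mem_range] at hmem
          omega
        rw [hz, zero_mul]
        apply Finset.sum_eq_zero
        intro i hi
        rw [if_neg]
        intro h
        apply hmem
        rw [Finset.mem_range] at hi ⊢
        omega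
    · apply Finset.sum_eq_zero
      intro i _
      rw [if_neg (by omega)]
  have h3 : p = (if δ ≤ m then homogeneousComponent (m - δ) a * q else 0) +
      (if e ≤ m then homogeneousComponent (m - e) b * f else 0) := by
    rw [← key q a δ hq, ← key f b e hf, ← map_add, hab, h1]
  refine ⟨if δ ≤ m then homogeneousComponent (m - δ) a else 0, ⟨?_, ?_⟩, ?_⟩
  · intro h
    rw [if_pos h]
    exact homogeneousComponent_isHomogeneous _ _
  · intro h
    rw [if_neg (by omega)]
  · have h4 : p - q * (if δ ≤ m then homogeneousComponent (m - δ) a else 0) =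
        (if e ≤ m then homogeneousComponent (m - e) b * f else 0) := by
      conv_lhs => rw [h3]
      split_ifs <;> ring
    rw [h4]
    split_ifs
    · exact Ideal.mul_mem_left _ _ (Ideal.mem_span_singleton_self _)
    · exact Ideal.zero_mem _

end DIVQ

open DIVQ in
theorem t_DIVQ (h1 : S_DIV1) (h2 : S_HNUM) : S_DIVQ := by
  intro d F P u g del gam a D t t' s r c b q δ hs hr hq hqh hqc hZ
  have hFu : ∀ i, ¬ F ∣ u i := fun i h => D.u_not i (P.mem_of_dvd h D.F_mem)
  have hu0 : ∀ i, u i ≠ 0 := fun i h => D.u_not i (h ▸ P.zero_mem)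
  have hFuu : ∀ i j, ¬ F ∣ u i * u j := fun i j h =>
    (D.F_prime.dvd_or_dvd h).elim (hFu i) (hFu j)
  have hq0 : q ≠ 0 := hq.ne_zero
  have hq' : algebraMap A K q ≠ 0 := fun h => hq0 ((map_eq_zero_iff _ alg_inj).1 h)
  by_cases hqF : q ∣ F
  · have hFq : F ∣ q := hq.irreducible.dvd_symm D.F_prime.irreducible hqF
    have hFc : ¬ F ∣ c := fun h => hqc (hqF.trans h)
    have hle : ∀ k, 1 ≤ k → Ideal.span {F ^ k} ≤ Ideal.span ({F ^ 1} : Set A) := by
      intro k hk
      rw [Ideal.span_singleton_le_span_singleton]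
      exact pow_dvd_pow _ hk
    -- all in (F)
    have hall : ∀ k, 1 ≤ k → ∀ i, s k i ∈ LI (Ideal.span {F ^ 1}) (u i) := by
      intro k hk
      induction k, hk using Nat.le_induction with
      | base =>
        intro i
        have hz := hZ 1 le_rfl i
        have hr1 := ((hr.sec 1 le_rfl).1 i).1
        refine cancel D.F_prime hFc (hFu i) 1 ((hs.sec 1 le_rfl).1 i).1 ?_
        have e : algebraMap A K c * s 1 i =
            (algebraMap A K c * s 1 i - algebraMap A K (q * b) * r 1 i) +
              r 1 i * algebraMap A K (q * b) := by ring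
        rw [e]
        refine Submodule.add_mem _ hz (LI_mul hr1 (LI_alg _ _ _ ?_))
        rw [pow_one, Ideal.mem_span_singleton]
        exact hFq.trans (dvd_mul_right _ _)
      | succ k hk ih =>
        intro i
        have e : s (k + 1) i = (s (k + 1) i - s k i) + s k i := by ring
        rw [e]
        exact Submodule.add_mem _ (LI_mono (hle k hk) (hs.comp k hk i)) (ih i)
    refine ⟨fun k i => s (k + 1) i / algebraMap A K q, ⟨?_, ?_⟩, ?_⟩
    · intro k hk
      refine ⟨fun i => ⟨?_, ?_⟩, fun i j => ?_⟩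
      · have := divq hqF hq0 0 (hall (k + 1) (by omega) i)
        rw [pow_zero, Ideal.span_singleton_one] at this
        exact this
      · have := HS_div hqh hq0 ((hs.sec (k + 1) (by omega)).1 i).2
        have e : t - (δ : ℤ) - gam i = t - gam i - δ := by ring
        rw [e]
        exact this
      · have e : s (k + 1) i / algebraMap A K q - a k i j * (s (k + 1) j / algebraMap A K q) =
          (s (k + 1) i - a k i j * s (k + 1) j) / algebraMap A K q := by ring
        rw [e]
        apply divq hqF hq0 k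
        have e2 : s (k + 1) i - a k i j * s (k + 1) j =
          (s (k + 1) i - a (k + 1) i j * s (k + 1) j) +
            (a (k + 1) i j - a k i j) * s (k + 1) j := by ring
        rw [e2]
        refine Submodule.add_mem _ ((hs.sec (k + 1) (by omega)).2 i j) ?_
        have := LI_mulmul (D.comp k hk i j) (LI_right (u i) (hall (k + 1) (by omega) j))
        rw [Ideal.span_singleton_mul_span_singleton, ← pow_add] at this
        exact this
    · intro k hk i
      have e : s (k + 1 + 1) i / algebraMap A K q - s (k + 1) i / algebraMap A K q =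
          (s (k + 1 + 1) i - s (k + 1) i) / algebraMap A K q := by ring
      rw [e]
      exact divq hqF hq0 k (hs.comp (k + 1) (by omega) i)
    · intro k hk i
      have e : s k i - algebraMap A K q * (s (k + 1) i / algebraMap A K q) =
          -(s (k + 1) i - s k i) := by
        rw [mul_div_cancel₀ _ hq', neg_sub]
      change s k i - algebraMap A K q * (s (k + 1) i / algebraMap A K q) ∈ _
      rw [e]
      exact Submodule.neg_mem _ (hs.comp k hk i)
  · have hFq : ¬ F ∣ q := fun h => hqF (D.F_prime.irreducible.dvd_symm hq.irreducible h)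
    have hex : ∀ (k : ℕ) (i : Fin 3), ∃ σ : K, 1 ≤ k → σ ∈ LI ⊤ (u i) ∧ σ ∈ HS (t - δ - gam i) ∧
        s k i - algebraMap A K q * σ ∈ LI (Ideal.span {F ^ k}) (u i) := by
      intro k i
      by_cases hk : 1 ≤ k
      swap
      · exact ⟨0, fun h => absurd h hk⟩
      have hmem : s k i ∈ LI (Ideal.span {q, F ^ k}) (u i) := by
        refine h1 F q c (u i) (fun k => s k i) hq hqc (hu0 i)
          (fun k hk => ((hs.sec k hk).1 i).1) (fun k hk => hs.comp k hk i) ?_ k hk
        intro k hk
        have hz := hZ k hk i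
        have hr1 := ((hr.sec k hk).1 i).1
        have e : algebraMap A K c * s k i =
            (algebraMap A K c * s k i - algebraMap A K (q * b) * r k i) +
              r k i * algebraMap A K (q * b) := by ring
        change algebraMap A K c * s k i ∈ _
        rw [e]
        refine Submodule.add_mem _ (LI_mono (Ideal.span_mono (by simp)) hz)
          (LI_mul hr1 (LI_alg _ _ _ ?_))
        exact Ideal.mul_mem_right _ _ (Ideal.subset_span (by simp))
      obtain ⟨N, hN⟩ := h2 _ (u i) (del i) (t - gam i) (s k i) (D.del_pos i) (D.u_hom i) (hu0 i)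
        hmem ((hs.sec k hk).1 i).2
      obtain ⟨m, p, hm, hph, hpI, hpe⟩ := hN N le_rfl
      obtain ⟨x, ⟨hx1, hx2⟩, hx3⟩ := hom_split hqh (D.F_hom.pow k) hph hpI
      have hui : algebraMap A K (u i) ^ N ≠ 0 :=
        pow_ne_zero _ (fun h => hu0 i ((map_eq_zero_iff _ alg_inj).1 h))
      refine ⟨algebraMap A K x / algebraMap A K (u i) ^ N, fun _ => ⟨?_, ?_, ?_⟩⟩
      · exact ⟨N, x, Submodule.mem_top, by rw [mul_div_cancel₀ _ hui]⟩
      · by_cases hδ : δ ≤ m
        · refine ⟨m - δ, del i * N, x, u i ^ N, hx1 hδ, (D.u_hom i).pow N,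
            pow_ne_zero _ (hu0 i), ?_, ?_⟩
          · push_cast [Nat.cast_sub hδ]
            rw [hm]
            ring
          · rw [map_pow, div_mul_cancel₀ _ hui]
        · rw [hx2 (by omega), map_zero, zero_div]
          exact Submodule.zero_mem _
      · refine ⟨N, p - q * x, hx3, ?_⟩
        rw [mul_sub, hpe, map_sub, map_mul, mul_left_comm, mul_div_cancel₀ _ hui]
    choose s' hs' using hex
    refine ⟨s', ⟨?_, ?_⟩, fun k hk i => (hs' k i hk).2.2⟩
    · intro k hk
      refine ⟨fun i => ⟨(hs' k i hk).1, (hs' k i hk).2.1⟩, fun i j => ?_⟩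
      have htop : s' k i - a k i j * s' k j ∈ LI ⊤ (u i * u j) :=
        Submodule.sub_mem _ (LI_left _ (hs' k i hk).1)
          (LI_mul (D.mem k hk i j) (LI_right _ (hs' k j hk).1))
      refine cancel D.F_prime hFq (hFuu i j) k htop ?_
      have e : algebraMap A K q * (s' k i - a k i j * s' k j) =
          (s k i - a k i j * s k j) - (s k i - algebraMap A K q * s' k i) +
            a k i j * (s k j - algebraMap A K q * s' k j) := by ring
      rw [e]
      exact Submodule.add_mem _ (Submodule.sub_mem _ ((hs.sec k hk).2 i j)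
        (LI_left _ (hs' k i hk).2.2)) (LI_mul (D.mem k hk i j) (LI_right _ (hs' k j hk).2.2))
    · intro k hk i
      have htop : s' (k + 1) i - s' k i ∈ LI ⊤ (u i) :=
        Submodule.sub_mem _ (hs' (k + 1) i (by omega)).1 (hs' k i hk).1
      refine cancel D.F_prime hFq (hFu i) k htop ?_
      have e : algebraMap A K q * (s' (k + 1) i - s' k i) =
          (s (k + 1) i - s k i) - (s (k + 1) i - algebraMap A K q * s' (k + 1) i) +
            (s k i - algebraMap A K q * s' k i) := by ring
      rw [e]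
      have hle : Ideal.span {F ^ (k + 1)} ≤ Ideal.span ({F ^ k} : Set A) := by
        rw [Ideal.span_singleton_le_span_singleton]
        exact pow_dvd_pow _ (Nat.le_succ _)
      exact Submodule.add_mem _ (Submodule.sub_mem _ (hs.comp k hk i)
        (LI_mono hle (hs' (k + 1) i (by omega)).2.2)) (hs' k i hk).2.2

end Pool.Agent.NOD.L3
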