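import Pool.Agent.NOD.StmL

/-!
# PROJECT NOD, section S3: piece NUMEND (numbers).
-/

set_option autoImplicit false

namespace Pool.Agent.NOD.L3

namespace NUMEND

lemma ch2 (n : ℕ) : 2 * (n + 2).choose 2 = (n + 2) * (n + 1) := by
  induction n with
  | zero => rfl
  | succ n ih =>
    have h : (n + 1 + 2).choose 2 = (n + 2).choose 1 + (n + 2).choose 2 :=
      Nat.choose_succ_succ (n + 2) 1
    rw [h, mul_add, ih, Nat.choose_one_right]
    ring

lemma mono {f : ℤ → ℕ} (h : ∀ t, f t ≤ f (t + 1)) : Monotone f := monotone_int_of_le_succ h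

lemma tel {f : ℤ → ℕ} (hf : Monotone f) (d : ℕ) (hd : 1 ≤ d) (t : ℤ) (J : ℕ) :
    ∑ j ∈ Finset.range (J + 1), ((f (t - j * d + 1) : ℤ) - f (t - j * d)) ≤
      f (t + 1) - f (t - J * d) := by
  induction J with
  | zero => simp
  | succ J ih =>
    rw [Finset.sum_range_succ]
    have h1 : f (t - ((J + 1 : ℕ) : ℤ) * d + 1) ≤ f (t - J * d) := by
      apply hf
      push_cast
      have : (1 : ℤ) ≤ d := by exact_mod_cast hd
      linarith
    have h2 : ((f (t - ((J + 1 : ℕ) : ℤ) * d + 1) : ℕ) : ℤ) ≤ f (t - J * d) := by exact_mod_cast h1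
    linarith

lemma tel2 {f : ℤ → ℕ} (hf : Monotone f) (d : ℕ) (hd : 1 ≤ d) (t J δ : ℕ) :
    ∑ j ∈ Finset.range (J + 1), ((f ((t : ℤ) - j * d + δ) : ℤ) - f ((t : ℤ) - j * d)) ≤
      δ * f (t + δ) := by
  induction δ with
  | zero => simp
  | succ δ ih =>
    have h1 := tel hf d hd ((t : ℤ) + δ) J
    have h2 : ∑ j ∈ Finset.range (J + 1),
        ((f ((t : ℤ) - j * d + ((δ + 1 : ℕ) : ℤ)) : ℤ) - f ((t : ℤ) - j * d)) =
        ∑ j ∈ Finset.range (J + 1),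
          ((f ((t : ℤ) + δ - j * d + 1) : ℤ) - f ((t : ℤ) + δ - j * d)) +
        ∑ j ∈ Finset.range (J + 1), ((f ((t : ℤ) - j * d + δ) : ℤ) - f ((t : ℤ) - j * d)) := by
      rw [← Finset.sum_add_distrib]
      refine Finset.sum_congr rfl fun j _ => ?_
      have e1 : (t : ℤ) - j * d + ((δ + 1 : ℕ) : ℤ) = (t : ℤ) + δ - j * d + 1 := by
        push_cast
        ring
      have e2 : (t : ℤ) - j * d + δ = (t : ℤ) + δ - j * d := by ring
      rw [e1, e2]
      ring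
    rw [h2]
    have h3 : (f ((t : ℤ) + δ + 1) : ℤ) = f ((t : ℤ) + ((δ + 1 : ℕ) : ℤ)) := by
      push_cast
      ring_nf
    have h4 : (f ((t : ℤ) + δ) : ℤ) ≤ f ((t : ℤ) + ((δ + 1 : ℕ) : ℤ)) := by
      have : f ((t : ℤ) + δ) ≤ f ((t : ℤ) + ((δ + 1 : ℕ) : ℤ)) := hf (by push_cast; linarith)
      exact_mod_cast this
    have h5 : (0 : ℤ) ≤ f ((t : ℤ) + δ - J * d) := Int.natCast_nonneg _
    have h6 : (δ : ℤ) * f ((t : ℤ) + δ) ≤ δ * f ((t : ℤ) + ((δ + 1 : ℕ) : ℤ)) :=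
      mul_le_mul_of_nonneg_left h4 (Int.natCast_nonneg _)
    have h7 : (((δ + 1 : ℕ) : ℤ)) * f ((t : ℤ) + ((δ + 1 : ℕ) : ℤ)) =
        δ * f ((t : ℤ) + ((δ + 1 : ℕ) : ℤ)) + f ((t : ℤ) + ((δ + 1 : ℕ) : ℤ)) := by
      rw [Nat.cast_add, Nat.cast_one, add_mul, one_mul]
    rw [h7]
    linarith

end NUMEND

open NUMEND in
theorem t_NUMEND : S_NUMEND := by
  intro f h M d δ n₀ hd h0 hmono hM hh
  obtain ⟨c, hc⟩ : ∃ c, c = n₀ + 2 * d + δ + 1 := ⟨_, rfl⟩
  obtain ⟨s, hs⟩ : ∃ s, s = 2 * δ * M * c ^ 2 + 1 := ⟨_, rfl⟩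
  refine ⟨n₀ + 2 * d * s, ?_⟩
  have hf := mono hmono
  obtain ⟨t, ht⟩ : ∃ t, t = n₀ + 2 * d * s := ⟨_, rfl⟩
  rw [← ht]
  have h1 := tel2 hf d hd t t δ
  rw [Finset.sum_sub_distrib] at h1
  refine lt_of_le_of_lt h1 ?_
  have hs1 : 1 ≤ s := by omega
  have h2 : f ((t : ℤ) + δ) ≤ M * (c * s) ^ 2 := by
    have h3 := hM (t + δ)
    push_cast at h3
    refine h3.trans (Nat.mul_le_mul_left _ (Nat.pow_le_pow_left ?_ 2))
    rw [ht, hc]
    have h4 : n₀ ≤ n₀ * s := Nat.le_mul_of_pos_right _ hs1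
    have h5 : δ ≤ δ * s := Nat.le_mul_of_pos_right _ hs1
    calc n₀ + 2 * d * s + δ + 1 ≤ n₀ * s + 2 * d * s + δ * s + s := by omega
      _ = (n₀ + 2 * d + δ + 1) * s := by ring
  have h6 : s + 1 ≤ t + 1 := by
    rw [ht]
    nlinarith
  have h7 : ∀ j ∈ Finset.range (s + 1), (s + 2).choose 2 ≤ h ((t : ℤ) - j * d) := by
    intro j hj
    have hj' : j ≤ s := by
      have := Finset.mem_range.1 hj
      omega
    have h8 : j * d ≤ d * s := by
      rw [mul_comm]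
      exact Nat.mul_le_mul_left _ hj'
    have h9 : (t : ℤ) - j * d = ((t - j * d : ℕ) : ℤ) := by
      rw [Nat.cast_sub]
      · push_cast
        rfl
      · rw [ht]
        nlinarith
    rw [h9]
    have h10 : s ≤ d * s := Nat.le_mul_of_pos_left _ hd
    have h11 : n₀ + s ≤ t - j * d := by
      have h12 : 2 * d * s = d * s + d * s := by ring
      omega
    refine le_trans ?_ (hh (t - j * d) (by omega))
    exact Nat.choose_le_choose 2 (by omega)
  have h8 : (s + 1) * (s + 2).choose 2 ≤ ∑ j ∈ Finset.range (t + 1), h ((t : ℤ) - j * d) := by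
    calc (s + 1) * (s + 2).choose 2 = ∑ j ∈ Finset.range (s + 1), (s + 2).choose 2 := by
          rw [Finset.sum_const, Finset.card_range, smul_eq_mul]
      _ ≤ ∑ j ∈ Finset.range (s + 1), h ((t : ℤ) - j * d) := Finset.sum_le_sum h7
      _ ≤ ∑ j ∈ Finset.range (t + 1), h ((t : ℤ) - j * d) :=
          Finset.sum_le_sum_of_subset (Finset.range_mono h6)
  have h9 : δ * f ((t : ℤ) + δ) < (s + 1) * (s + 2).choose 2 := by
    have h10 := ch2 s
    have h11 : 2 * (δ * f ((t : ℤ) + δ)) < 2 * ((s + 1) * (s + 2).choose 2) := by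
      calc 2 * (δ * f ((t : ℤ) + δ)) ≤ 2 * (δ * (M * (c * s) ^ 2)) :=
            Nat.mul_le_mul_left _ (Nat.mul_le_mul_left _ h2)
        _ = (2 * δ * M * c ^ 2) * s ^ 2 := by ring
        _ < s * s ^ 2 + 1 := by
            have : (2 * δ * M * c ^ 2) * s ^ 2 ≤ s * s ^ 2 := Nat.mul_le_mul_right _ (by omega)
            omega
        _ ≤ (s + 1) * ((s + 2) * (s + 1)) := by nlinarith
        _ = 2 * ((s + 1) * (s + 2).choose 2) := by
            rw [← h10]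
            ring
    omega
  have h10 : ((δ * f ((t : ℤ) + δ) : ℕ) : ℤ) <
      ((∑ j ∈ Finset.range (t + 1), h ((t : ℤ) - j * d) : ℕ) : ℤ) := by
    exact_mod_cast lt_of_lt_of_le h9 h8
  rw [Nat.cast_mul, Nat.cast_sum] at h10
  exact h10

end Pool.Agent.NOD.L3
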