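import Pool.Agent.NOD.L3.FINb
import Pool.Agent.NOD.L3.NUMEND

/-!
NOD, S3: the section theorem.
-/

set_option autoImplicit false

namespace Pool.Agent.NOD.L3

theorem t_LEF_all (hNF : S_NF) (hPOW : S_POW) : S_LEF := t_LEFb hNF hPOW t_NUMEND

end Pool.Agent.NOD.L3
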