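import Pool.Agent.NOD.L3.Tools70
import Pool.Agent.NOD.S4.HFA

/-!
# Project NOD, section S3: piece GEN (helper70)
-/

set_option autoImplicit false

namespace Pool.Agent.NOD.L3

open MvPolynomial T70

theorem t_GEN (h1 : S_LIM) (h2 : S_TF) (h3 : S_DIVQ) (h4 : S_RANK1) : S_GEN := by
  classical
  intro d F P u g del gam a hD hex
  obtain ⟨-, -, l3⟩ := h1 d F P u g del gam a hD
  have hnn : ∀ (t : ℤ) (s : ℕ → Fin 3 → K), InM F u gam a t s → ¬ IsZ F u s → 0 ≤ t := by
    intro t s hs hs0
    by_contra h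
    exact hs0 (l3 t (not_le.1 h) s hs)
  have hex' : ∃ e : ℕ, ∃ s : ℕ → Fin 3 → K, InM F u gam a e s ∧ ¬ IsZ F u s := by
    obtain ⟨t, s, hs, hs0⟩ := hex
    obtain ⟨e, rfl⟩ := Int.eq_ofNat_of_zero_le (hnn t s hs hs0)
    exact ⟨e, s, hs, hs0⟩
  obtain ⟨s, hs, hs0⟩ := Nat.find_spec hex'
  have hmin : ∀ e' : ℕ, e' < Nat.find hex' → ∀ s' : ℕ → Fin 3 → K, InM F u gam a e' s' →
      IsZ F u s' := by
    intro e' he' s' hs'
    by_contra h
    exact Nat.find_min hex' he' ⟨s', hs', h⟩
  set e := Nat.find hex' with he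
  refine ⟨e, s, hs, hs0, fun t r hr => ?_⟩
  by_cases hr0 : IsZ F u r
  · refine ⟨0, fun _ => isHomogeneous_zero _ _ _, fun _ => rfl, ?_⟩
    refine IsZ_congr hr0 fun k i => ?_
    rw [map_zero]
    ring
  -- the relation with the smallest `b`
  have hrel : ∃ m' : ℕ, ∃ (c b : A) (m : ℕ), b ≠ 0 ∧ c.IsHomogeneous m ∧ b.IsHomogeneous m' ∧
      (m : ℤ) + e = m' + t ∧
      IsZ F u (fun k i => algebraMap A K c * s k i - algebraMap A K b * r k i) := by
    obtain ⟨c, b, m, m', hc0, hb0, hc, hb, hmm, hZ⟩ := h4 d F P u g del gam a hD e t s r hs hr hs0 hr0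
    exact ⟨m', c, b, m, hb0, hc, hb, hmm, hZ⟩
  obtain ⟨c, b, m, hb0, hc, hb, hmm, hZ⟩ := Nat.find_spec hrel
  have hminr := @Nat.find_min _ _ hrel
  set m' := Nat.find hrel with hm'
  have hm0 : m' = 0 := by
    by_contra hm0
    have hnu : ¬ IsUnit b := by
      intro hu
      obtain ⟨x, hx, rfl⟩ := (MvPolynomial.isUnit_iff_eq_C_of_isReduced).1 hu
      have h5 : (C x : A).IsHomogeneous 0 := isHomogeneous_C _ _
      exact hm0 ((hb.inj_right h5 hb0))
    obtain ⟨q, hq, b', hbq⟩ := WfDvdMonoid.exists_irreducible_factor hnu hb0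
    have hqp : Prime q := hq.prime
    obtain ⟨δ, δ', hδ, hqh, hb'h⟩ := Pool.Agent.NOD.S4.t_HFA.1 5 m' b q b' hb hb0 hbq
    have hδ0 : 0 < δ := by
      rcases Nat.eq_zero_or_pos δ with h | h
      · exfalso
        rw [h] at hqh
        apply hq.not_isUnit
        have h6 : q = C (coeff 0 q) := by
          have := totalDegree_eq_zero_iff_eq_C.1 (Nat.le_zero.1 hqh.totalDegree_le)
          exact this
        rw [h6]
        apply IsUnit.map
        rw [isUnit_iff_ne_zero]
        intro h7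
        rw [h7, map_zero] at h6
        exact hq.ne_zero h6
      · exact h
    have hb'0 : b' ≠ 0 := by
      rintro rfl
      rw [mul_zero] at hbq
      exact hb0 hbq
    by_cases hqc : q ∣ c
    · obtain ⟨c', hc'⟩ := hqc
      by_cases hc0 : c = 0
      · -- then `b r` is zero, contradiction
        apply hr0
        refine h2 d F P u g del gam a hD t r b hr hb0 ?_
        have := IsZ_mul hZ (-1)
        refine IsZ_congr this fun k i => ?_
        rw [hc0, map_neg, map_one, map_zero]
        ring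
      · obtain ⟨γ, γ', hγ, hqh', hc'h⟩ := Pool.Agent.NOD.S4.t_HFA.1 5 m c q c' hc hc0 hc'
        have hγδ : γ = δ := (hqh'.inj_right hqh hq.ne_zero)
        subst hγδ
        have hZ' : IsZ F u (fun k i => algebraMap A K c' * s k i - algebraMap A K b' * r k i) := by
          have f1 := InM_mul hs hc'h
          have f2 := InM_mul hr hb'h
          have ee : (e : ℤ) + γ' = t + δ' := by omega
          rw [ee] at f1
          refine h2 d F P u g del gam a hD _ _ q (InM_sub f1 f2) hq.ne_zero ?_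
          refine IsZ_congr hZ fun k i => ?_
          rw [hc', hbq, map_mul, map_mul]
          ring
        exact hminr (m := δ') (by omega) ⟨c', b', γ', hb'0, hc'h, hb'h, by omega, hZ'⟩
    · have hZq : IsZ F u (fun k i => algebraMap A K c * s k i - algebraMap A K (q * b') * r k i) := by
        rw [← hbq]
        exact hZ
      obtain ⟨s', hs', hsZ⟩ := h3 d F P u g del gam a hD e t s r c b' q δ hs hr hqp hqh hqc hZq
      have hs'0 : ¬ IsZ F u s' := by
        intro h
        apply hs0
        have := IsZ_add hsZ (IsZ_mul h q)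
        refine IsZ_congr this fun k i => ?_
        ring
      have hge := hnn _ _ hs' hs'0
      obtain ⟨e', he'⟩ := Int.eq_ofNat_of_zero_le hge
      rw [he'] at hs'
      exact hs'0 (hmin e' (by omega) s' hs')
  have hbc : b = C (coeff 0 b) := by
    rw [hm0] at hb
    exact totalDegree_eq_zero_iff_eq_C.1 (Nat.le_zero.1 hb.totalDegree_le)
  have hβ : coeff 0 b ≠ 0 := by
    intro h
    rw [h, map_zero] at hbc
    exact hb0 hbc
  refine ⟨C (coeff 0 b)⁻¹ * c, fun ht => ?_, fun ht => ?_, ?_⟩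
  · have h5 : (C (coeff 0 b)⁻¹ * c : A).IsHomogeneous (0 + m) := (isHomogeneous_C _ _).mul hc
    have h6 : 0 + m = (t - e).toNat := by omega
    rwa [h6] at h5
  · exfalso
    omega
  · have h5 := IsZ_mul hZ (-C (coeff 0 b)⁻¹)
    refine IsZ_congr h5 fun k i => ?_
    have h6 : algebraMap A K (C (coeff 0 b)⁻¹) * algebraMap A K b = 1 := by
      rw [← map_mul]
      conv_lhs => rw [hbc]
      rw [coeff_C, if_pos rfl, ← C_mul, inv_mul_cancel₀ hβ, C_1, map_one]
    rw [map_neg, map_mul]
    linear_combination (r k i) * h6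

end Pool.Agent.NOD.L3
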