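import Pool.Agent.NOD.L3.HCI

set_option autoImplicit false

namespace Pool.Agent.NOD.L3

open MvPolynomial

/-- number of monomials, as an integer -/
noncomputable def an (n : ℤ) : ℤ := (hI ⊤ n : ℤ)

theorem an_neg {n : ℤ} (h : n < 0) : an n = 0 := by
  unfold an
  rw [hI_neg ⊤ h]
  rfl

theorem an_nat (h : S_DIMA) (n : ℕ) : an (n : ℤ) = ((n + 4).choose 4 : ℕ) := by
  unfold an
  rw [hI_top, AA_nat, h n]

theorem second (h : S_DIMA) (T : ℕ) (n : ℤ) (hn : n ≤ T) :
    an n - 2 * an (n - 1) + an (n - 2) ≤ (T + 1) ^ 2 := by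
  have hT : (0 : ℤ) ≤ (T : ℤ) := by omega
  rcases lt_or_ge n 0 with h0 | h0
  · rw [an_neg h0, an_neg (by omega), an_neg (by omega)]
    positivity
  obtain ⟨m, rfl⟩ := Int.eq_ofNat_of_zero_le h0
  match m, hn with
  | 0, hn =>
    have e0 : an ((0 : ℕ) : ℤ) = 1 := by rw [an_nat h]; rfl
    have e1 : an (((0 : ℕ) : ℤ) - 1) = 0 := an_neg (by omega)
    have e2 : an (((0 : ℕ) : ℤ) - 2) = 0 := an_neg (by omega)
    rw [e0, e1, e2]
    nlinarith
  | 1, hn =>
    have e0 : an ((1 : ℕ) : ℤ) = 5 := by rw [an_nat h]; rfl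
    have e1 : an (((1 : ℕ) : ℤ) - 1) = 1 := by
      rw [show ((1 : ℕ) : ℤ) - 1 = ((0 : ℕ) : ℤ) by omega, an_nat h]; rfl
    have e2 : an (((1 : ℕ) : ℤ) - 2) = 0 := an_neg (by omega)
    rw [e0, e1, e2]
    have hn' : (1 : ℤ) ≤ T := by exact_mod_cast hn
    nlinarith
  | m + 2, hn =>
    have e1 : ((m + 2 : ℕ) : ℤ) - 1 = ((m + 1 : ℕ) : ℤ) := by push_cast; ring
    have e2 : ((m + 2 : ℕ) : ℤ) - 2 = ((m : ℕ) : ℤ) := by push_cast; ring
    rw [e1, e2, an_nat h, an_nat h, an_nat h]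
    have h1 : (m + 2 + 4).choose 4 = (m + 5).choose 3 + (m + 5).choose 4 :=
      Nat.choose_succ_succ (m + 5) 3
    have h2 : (m + 1 + 4).choose 4 = (m + 5).choose 4 := rfl
    have h2' : (m + 5).choose 4 = (m + 4).choose 3 + (m + 4).choose 4 :=
      Nat.choose_succ_succ (m + 4) 3
    have h3 : (m + 5).choose 3 = (m + 4).choose 2 + (m + 4).choose 3 :=
      Nat.choose_succ_succ (m + 4) 2
    have h4 : (m + 4).choose 2 ≤ (m + 3) ^ 2 := by
      rw [Nat.choose_two_right]
      apply Nat.div_le_of_le_mul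
      have : m + 4 - 1 = m + 3 := by omega
      rw [this]
      nlinarith
    have h5 : m + 3 ≤ T + 1 := by
      have : m + 2 ≤ T := by exact_mod_cast hn
      omega
    have h6 : (m + 3) ^ 2 ≤ (T + 1) ^ 2 := Nat.pow_le_pow_left h5 2
    rw [h1, h2, h2', h3]
    have h7 : (((m + 4).choose 2 : ℕ) : ℤ) ≤ (T + 1) ^ 2 := by
      exact_mod_cast h4.trans h6
    push_cast
    linarith

theorem first (h : S_DIMA) (T : ℕ) (γ : ℕ) : ∀ n : ℤ, n ≤ T →
    an n - an (n - 1) - (an (n - γ) - an (n - γ - 1)) ≤ γ * (T + 1) ^ 2 := by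
  induction γ with
  | zero =>
    intro n _
    simp
  | succ γ ih =>
    intro n hn
    have h1 := ih n hn
    have h2 := second h T (n - γ) (by omega)
    have e1 : n - ((γ + 1 : ℕ) : ℤ) = n - γ - 1 := by push_cast; ring
    have e2 : n - γ - 1 - 1 = n - γ - 2 := by ring
    rw [e1, e2]
    push_cast
    linarith

theorem both (h : S_DIMA) (T : ℕ) (γ d : ℕ) : ∀ n : ℤ, n ≤ T →
    an n - an (n - d) - (an (n - γ) - an (n - γ - d)) ≤ d * γ * (T + 1) ^ 2 := by
  induction d with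
  | zero =>
    intro n _
    simp
  | succ d ih =>
    intro n hn
    have h1 := ih n hn
    have h2 := first h T γ (n - d) (by omega)
    have e1 : n - ((d + 1 : ℕ) : ℤ) = n - d - 1 := by push_cast; ring
    have e2 : n - γ - ((d + 1 : ℕ) : ℤ) = n - d - γ - 1 := by push_cast; ring
    have e3 : n - γ - (d : ℤ) = n - d - γ := by ring
    rw [e1, e2]
    rw [e3] at h1
    push_cast
    linarith

/-- the Hilbert function of the quotient is at most quadratic -/
theorem t_HBQ (h1 : S_HCI) (h2 : S_DIMA) : S_HBQ := by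
  intro d F P u g del gam a D
  -- `F` does not divide `g 0`
  have hFg : ¬ F ∣ g 0 := by
    intro hdiv
    have hP : P ≤ Ideal.span {F} := by
      intro p hp
      have h3 := D.loc 0 p hp
      have h4 : Ideal.span {F, g 0} ≤ Ideal.span {F} := by
        rw [Ideal.span_le]
        rintro x (rfl | rfl)
        · exact Ideal.mem_span_singleton_self _
        · exact Ideal.mem_span_singleton.2 hdiv
      have h5 := Ideal.mem_span_singleton.1 (h4 h3)
      rcases D.F_prime.dvd_or_dvd h5 with h6 | h6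
      · exact absurd (P.mem_of_dvd h6 D.F_mem) (D.u_not 0)
      · exact Ideal.mem_span_singleton.2 h6
    have hP' : P = Ideal.span {F} := le_antisymm hP (by
      rw [Ideal.span_singleton_le_iff_mem]
      exact D.F_mem)
    have h3 := D.P_ht
    have h4 : P.height ≤ 1 := by
      rw [hP']
      exact Ideal.height_span_singleton_le_one D.F_prime.not_isUnit
    rw [h3] at h4
    exact absurd h4 (by norm_num)
  have hN : NZD (Ideal.span {F}) (g 0) := by
    intro x hx
    rcases D.F_prime.dvd_or_dvd (Ideal.mem_span_singleton.1 hx) with h | h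
    · exact absurd h hFg
    · exact Ideal.mem_span_singleton.2 h
  refine ⟨d * gam 0, fun t => ?_⟩
  have h3 := h1 d (gam 0) F (g 0) t D.F_hom (D.g_hom 0) D.F_prime.ne_zero hN
  have h4 : hI (Ideal.span {F, g 0}) t ≤ hI P t := by
    rw [hI_nat, hI_nat]
    have hf : Module.Finite ℂ (homogeneousSubmodule (Fin 5) ℂ t) :=
      Module.Finite.iff_fg.2 (homogeneousSubmodule_fg (Fin 5) ℂ _)
    have hf2 : Module.Finite ℂ
        (P.restrictScalars ℂ ⊓ homogeneousSubmodule (Fin 5) ℂ t : Submodule ℂ A) :=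
      Submodule.finiteDimensional_of_le inf_le_right
    refine Submodule.finrank_mono (inf_le_inf_right _ ?_)
    have h5 : Ideal.span {F, g 0} ≤ P := by
      rw [Ideal.span_le]
      rintro x (rfl | rfl)
      · exact D.F_mem
      · exact D.g_mem 0
    exact fun x hx => h5 hx
  have h5 := both h2 t (gam 0) d t le_rfl
  have e1 : (t : ℤ) - gam 0 - d = (t : ℤ) - d - gam 0 := by ring
  rw [e1] at h5
  unfold an at h5
  have h6 : ((hI ⊤ (t : ℤ) : ℕ) : ℤ) ≤ (hI P t : ℤ) + (d * gam 0) * (t + 1) ^ 2 := by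
    have h3' : ((hI (Ideal.span {F, g 0}) t : ℕ) : ℤ) + (hI ⊤ ((t : ℤ) - d - gam 0) : ℤ) =
        (hI ⊤ ((t : ℤ) - d) : ℤ) + (hI ⊤ ((t : ℤ) - gam 0) : ℤ) := by exact_mod_cast h3
    have h4' : ((hI (Ideal.span {F, g 0}) t : ℕ) : ℤ) ≤ (hI P t : ℤ) := by exact_mod_cast h4
    linarith
  exact_mod_cast h6

end Pool.Agent.NOD.L3
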