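import Pool.Agent.NOD.StmL

set_option autoImplicit false

namespace Pool.Agent.NOD.L3

open MvPolynomial

/-- forms of integral degree `n` -/
noncomputable def AA (n : ℤ) : Submodule ℂ A :=
  if 0 ≤ n then homogeneousSubmodule (Fin 5) ℂ n.toNat else ⊥

theorem AA_nat (n : ℕ) : AA (n : ℤ) = homogeneousSubmodule (Fin 5) ℂ n := by
  unfold AA
  rw [if_pos (by omega), Int.toNat_natCast]

theorem AA_neg {n : ℤ} (h : n < 0) : AA n = ⊥ := by
  unfold AA
  rw [if_neg (by omega)]

theorem AA_pos {n : ℤ} (h : 0 ≤ n) : AA n = homogeneousSubmodule (Fin 5) ℂ n.toNat := by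
  unfold AA
  rw [if_pos h]

instance finAA (n : ℤ) : Module.Finite ℂ (AA n) := by
  rcases lt_or_ge n 0 with h | h
  · rw [AA_neg h]
    infer_instance
  · rw [AA_pos h]
    exact Module.Finite.iff_fg.2 (homogeneousSubmodule_fg (Fin 5) ℂ _)

theorem hI_top (n : ℤ) : hI ⊤ n = Module.finrank ℂ (AA n) := by
  rcases lt_or_ge n 0 with h | h
  · rw [AA_neg h, finrank_bot]
    unfold hI
    rw [if_neg (by omega)]
  · have e : ((⊤ : Ideal A).restrictScalars ℂ ⊓ homogeneousSubmodule (Fin 5) ℂ n.toNat :
        Submodule ℂ A) = homogeneousSubmodule (Fin 5) ℂ n.toNat := by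
      refine le_antisymm inf_le_right (le_inf ?_ le_rfl)
      intro x _
      exact Submodule.mem_top
    unfold hI
    rw [if_pos h, e, AA_pos h]

theorem hI_nat (I : Ideal A) (t : ℕ) : hI I (t : ℤ) = Module.finrank ℂ
    ((I.restrictScalars ℂ ⊓ homogeneousSubmodule (Fin 5) ℂ t : Submodule ℂ A)) := by
  unfold hI
  rw [if_pos (by omega), Int.toNat_natCast]

theorem hI_neg (I : Ideal A) {t : ℤ} (h : t < 0) : hI I t = 0 := by
  unfold hI
  rw [if_neg (by omega)]

theorem mul_AA {G : A} {e : ℕ} (hG : G.IsHomogeneous e) {n : ℤ} {c : A} (hc : c ∈ AA n) :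
    G * c ∈ AA (n + e) := by
  rcases lt_or_ge n 0 with h | h
  · rw [AA_neg h] at hc
    rw [(Submodule.mem_bot ℂ).1 hc, mul_zero]
    exact Submodule.zero_mem _
  · obtain ⟨m, rfl⟩ := Int.eq_ofNat_of_zero_le h
    rw [AA_nat] at hc
    have e1 : (m : ℤ) + e = ((m + e : ℕ) : ℤ) := by push_cast; ring
    rw [e1, AA_nat, add_comm m e]
    exact (mem_homogeneousSubmodule _ _).2 (hG.mul ((mem_homogeneousSubmodule _ _).1 hc))

theorem hc_mul' (F p : A) (a m : ℕ) (hF : F.IsHomogeneous m) :
    homogeneousComponent (m + a) (F * p) = F * homogeneousComponent a p := by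
  conv_lhs => rw [← sum_homogeneousComponent p]
  rw [Finset.mul_sum, map_sum]
  have h : ∀ i, homogeneousComponent (m + a) (F * homogeneousComponent i p) =
      if a = i then F * homogeneousComponent i p else 0 := by
    intro i
    have h1 : (F * homogeneousComponent i p).IsHomogeneous (m + i) :=
      hF.mul (homogeneousComponent_isHomogeneous i p)
    rw [homogeneousComponent_of_mem h1]
    by_cases hi : a = i
    · simp [hi]
    · rw [if_neg hi, if_neg (by omega)]
  simp only [h]
  rw [Finset.sum_ite_eq]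
  split_ifs with ha
  · rfl
  · rw [homogeneousComponent_eq_zero, mul_zero]
    rw [Finset.mem_range] at ha
    omega

theorem hc_mul_lt' (F p : A) (j m : ℕ) (hF : F.IsHomogeneous m) (hj : j < m) :
    homogeneousComponent j (F * p) = 0 := by
  conv_lhs => rw [← sum_homogeneousComponent p]
  rw [Finset.mul_sum, map_sum]
  refine Finset.sum_eq_zero fun i _ => ?_
  have h1 : (F * homogeneousComponent i p).IsHomogeneous (m + i) :=
    hF.mul (homogeneousComponent_isHomogeneous i p)
  rw [homogeneousComponent_of_mem h1, if_neg (by omega)]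

/-- the component of degree `t` of a multiple of `F` -/
theorem comp_mul (F : A) (d : ℕ) (hF : F.IsHomogeneous d) (t : ℕ) (x : A) :
    ∃ c ∈ AA ((t : ℤ) - d), homogeneousComponent t (F * x) = F * c := by
  rcases lt_or_ge t d with h | h
  · exact ⟨0, Submodule.zero_mem _, by rw [hc_mul_lt' F x t d hF h, mul_zero]⟩
  · refine ⟨homogeneousComponent (t - d) x, ?_, ?_⟩
    · have e1 : (t : ℤ) - d = ((t - d : ℕ) : ℤ) := by omega
      rw [e1, AA_nat]
      exact (mem_homogeneousSubmodule _ _).2 (homogeneousComponent_isHomogeneous _ _)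
    · have := hc_mul' F x (t - d) d hF
      rwa [show d + (t - d) = t by omega] at this

theorem comp_mul_int (F : A) (d : ℕ) (hF : F.IsHomogeneous d) {n : ℤ} {b x : A} (hb : b ∈ AA n)
    (h : b = F * x) : ∃ c ∈ AA (n - d), b = F * c := by
  rcases lt_or_ge n 0 with hn | hn
  · rw [AA_neg hn] at hb
    exact ⟨0, Submodule.zero_mem _, by rw [(Submodule.mem_bot ℂ).1 hb, mul_zero]⟩
  · obtain ⟨m, rfl⟩ := Int.eq_ofNat_of_zero_le hn
    rw [AA_nat] at hb
    obtain ⟨c, hc, hc'⟩ := comp_mul F d hF m x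
    refine ⟨c, hc, ?_⟩
    rw [← hc', ← h, homogeneousComponent_eq_self ((mem_homogeneousSubmodule _ _).1 hb)]

/-- the multiples of `F` by forms of degree `n` -/
noncomputable def MM (F : A) (n : ℤ) : Submodule ℂ A := (AA n).map (LinearMap.mulLeft ℂ F)

instance finMM (F : A) (n : ℤ) : Module.Finite ℂ (MM F n) := by
  unfold MM
  infer_instance

theorem finrank_MM {F : A} (hF : F ≠ 0) (n : ℤ) :
    Module.finrank ℂ (MM F n) = Module.finrank ℂ (AA n) := by
  refine (LinearEquiv.finrank_eq (Submodule.equivMapOfInjective (LinearMap.mulLeft ℂ F) ?_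
    (AA n))).symm
  intro x y hxy
  exact mul_left_cancel₀ hF hxy

/-- the Hilbert function of a complete intersection of two forms -/
theorem t_HCI : S_HCI := by
  intro d e F G t hF hG hF0 hN
  by_cases hG0 : G = 0
  · -- then `F` is a unit of degree zero
    have h1 : (1 : A) ∈ Ideal.span {F} := hN 1 (by rw [hG0, zero_mul]; exact Submodule.zero_mem _)
    obtain ⟨x, hx⟩ := Ideal.mem_span_singleton.1 h1
    have hd : d = 0 := by
      by_contra hd
      have h2 := hc_mul_lt' F x 0 d hF (by omega)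
      rw [← hx, homogeneousComponent_eq_self (isHomogeneous_one (Fin 5) ℂ)] at h2
      exact one_ne_zero h2
    have h3 : Ideal.span {F, G} = ⊤ := by
      rw [Ideal.eq_top_iff_one]
      exact Ideal.span_mono (by simp) h1
    rw [h3, hd]
    simp
  -- the two submodules
  have hsup : MM F ((t : ℤ) - d) ⊔ MM G ((t : ℤ) - e) =
      ((Ideal.span {F, G}).restrictScalars ℂ ⊓ homogeneousSubmodule (Fin 5) ℂ t :
        Submodule ℂ A) := by
    refine le_antisymm ?_ ?_
    · refine sup_le ?_ ?_
      · rintro _ ⟨c, hc, rfl⟩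
        refine ⟨Ideal.mul_mem_right _ _ (Ideal.subset_span (by simp)), ?_⟩
        have := mul_AA hF hc
        rw [show (t : ℤ) - d + d = t by ring, AA_nat] at this
        exact this
      · rintro _ ⟨c, hc, rfl⟩
        refine ⟨Ideal.mul_mem_right _ _ (Ideal.subset_span (by simp)), ?_⟩
        have := mul_AA hG hc
        rw [show (t : ℤ) - e + e = t by ring, AA_nat] at this
        exact this
    · rintro f ⟨hf, hft⟩
      obtain ⟨x, y, hxy⟩ := Ideal.mem_span_pair.1 hf
      obtain ⟨c, hc, hc'⟩ := comp_mul F d hF t x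
      obtain ⟨b, hb, hb'⟩ := comp_mul G e hG t y
      have h1 : f = F * c + G * b := by
        rw [← hc', ← hb', ← map_add, mul_comm F x, mul_comm G y, hxy,
          homogeneousComponent_eq_self ((mem_homogeneousSubmodule _ _).1 hft)]
      rw [h1]
      exact Submodule.add_mem_sup ⟨c, hc, rfl⟩ ⟨b, hb, rfl⟩
  have hinf : MM F ((t : ℤ) - d) ⊓ MM G ((t : ℤ) - e) = MM (F * G) ((t : ℤ) - d - e) := by
    refine le_antisymm ?_ ?_
    · rintro f ⟨⟨a, ha, rfl⟩, ⟨b, hb, hab⟩⟩
      change G * b = F * a at hab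
      have h1 : b ∈ Ideal.span {F} := hN b (by
        rw [hab]
        exact Ideal.mem_span_singleton.2 (dvd_mul_right _ _))
      obtain ⟨x, hx⟩ := Ideal.mem_span_singleton.1 h1
      obtain ⟨c, hc, hc'⟩ := comp_mul_int F d hF hb hx
      refine ⟨c, ?_, ?_⟩
      · rw [show (t : ℤ) - d - e = (t : ℤ) - e - d by ring]
        exact hc
      · change F * G * c = F * a
        rw [← hab, hc']
        ring
    · rintro _ ⟨c, hc, rfl⟩
      refine ⟨⟨G * c, ?_, ?_⟩, ⟨F * c, ?_, ?_⟩⟩
      · have := mul_AA hG hc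
        rwa [show (t : ℤ) - d - e + e = (t : ℤ) - d by ring] at this
      · change F * (G * c) = F * G * c
        ring
      · have := mul_AA hF hc
        rwa [show (t : ℤ) - d - e + d = (t : ℤ) - e by ring] at this
      · change G * (F * c) = F * G * c
        ring
  have h := Submodule.finrank_sup_add_finrank_inf_eq (MM F ((t : ℤ) - d)) (MM G ((t : ℤ) - e))
  rw [hsup, hinf, finrank_MM hF0, finrank_MM hG0, finrank_MM (mul_ne_zero hF0 hG0)] at h
  rw [hI_nat, hI_top, hI_top, hI_top]
  exact h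

end Pool.Agent.NOD.L3
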