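import Pool.Agent.NOD.StmL
import Pool.Agent.NOD.LocB

set_option autoImplicit false

namespace Pool.Agent.NOD.L3

open MvPolynomial

theorem t_HNUM : S_HNUM := by
  intro I s δ t x hδ hs hs0 hx hxt
  obtain ⟨n₀, p, hp, hpx⟩ := hx
  obtain ⟨a, b, p', q', hp', hq', hq0, hab, hxq⟩ := hxt
  have hsK : algebraMap A K s ≠ 0 := io_ne hs0
  by_cases hp0 : p = 0
  · have hx0 : x = 0 := by
      rw [hp0, map_zero] at hpx
      rcases mul_eq_zero.1 hpx with h | h
      · exact absurd h (pow_ne_zero _ hsK)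
      · exact h
    refine ⟨t.natAbs, fun n hn => ⟨(t + n * δ).toNat, 0, ?_, isHomogeneous_zero _ _ _,
      I.zero_mem, ?_⟩⟩
    · rw [Int.toNat_of_nonneg]
      have h1 : (n : ℤ) ≤ n * δ := by
        have h2 : (n : ℤ) * 1 ≤ n * δ := by
          apply mul_le_mul_of_nonneg_left _ (by positivity)
          exact_mod_cast hδ
        linarith
      omega
    · rw [hx0, mul_zero, map_zero]
  · have e : p * q' = s ^ n₀ * p' := by
      apply io_inj
      rw [map_mul, map_mul, map_pow, ← hpx, ← hxq]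
      ring
    have hh : (p * q').IsHomogeneous (δ * n₀ + a) := by
      rw [e]
      exact (hs.pow n₀).mul hp'
    obtain ⟨i, hi, hin⟩ := hom_of_mul hq' hq0 hh hp0
    refine ⟨n₀, fun n hn => ⟨δ * (n - n₀) + i, s ^ (n - n₀) * p, ?_, (hs.pow (n - n₀)).mul hi,
      I.mul_mem_left _ hp, ?_⟩⟩
    · obtain ⟨k, rfl⟩ := Nat.exists_eq_add_of_le hn
      rw [Nat.add_sub_cancel_left]
      have hin' : (δ : ℤ) * n₀ + a = i + b := by exact_mod_cast hin
      push_cast
      linear_combination hab - hin'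
    · rw [map_mul, map_pow, ← hpx, ← mul_assoc, ← pow_add, Nat.sub_add_cancel hn]

end Pool.Agent.NOD.L3
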