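import Pool.Agent.NOD.StmL

/-!
# Project NOD, section S3, piece KER
-/

set_option autoImplicit false

namespace Pool.Agent.NOD.L3

open MvPolynomial

namespace KER

/-- larger denominators -/
theorem LI_dvd {I : Ideal A} {s s' : A} {m : ℕ} (h : s ∣ s' ^ m) {x : K} (hx : x ∈ LI I s) :
    x ∈ LI I s' := by
  obtain ⟨n, p, hp, hx⟩ := hx
  obtain ⟨e, he⟩ := h
  refine ⟨m * n, e ^ n * p, I.mul_mem_left _ hp, ?_⟩
  rw [pow_mul, ← map_pow, he, map_mul, map_mul, ← hx, map_pow]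
  ring

theorem LI_mul {I : Ideal A} {v w : A} (h : w ∣ v) {x y : K} (hx : x ∈ LI I v)
    (hy : y ∈ LI ⊤ w) : x * y ∈ LI I v := by
  have h1 : x * y ∈ LI I (v * w) := by
    obtain ⟨n, p, hp, hx⟩ := hx
    obtain ⟨m, q, _, hy⟩ := hy
    refine ⟨n + m, v ^ m * w ^ n * (p * q), I.mul_mem_left _ (I.mul_mem_right _ hp), ?_⟩
    rw [map_mul, map_mul, map_mul, map_mul, ← hx, ← hy, map_pow, map_pow]
    ring
  refine LI_dvd (m := 2) ?_ h1
  rw [pow_two]
  exact mul_dvd_mul_left v h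

theorem LI_mono {I J : Ideal A} (h : I ≤ J) {s : A} {x : K} (hx : x ∈ LI I s) : x ∈ LI J s := by
  obtain ⟨n, p, hp, hx⟩ := hx
  exact ⟨n, p, h hp, hx⟩

theorem LI_mulF {F : A} {k l : ℕ} {s : A} {x : K} (hx : x ∈ LI (Ideal.span {F ^ l}) s) :
    algebraMap A K (F ^ k) * x ∈ LI (Ideal.span {F ^ (k + l)}) s := by
  obtain ⟨n, p, hp, hx⟩ := hx
  rw [Ideal.mem_span_singleton] at hp
  obtain ⟨q, rfl⟩ := hp
  refine ⟨n, F ^ (k + l) * q, Ideal.mem_span_singleton.mpr (Dvd.intro _ rfl), ?_⟩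
  rw [mul_left_comm, hx, ← map_mul]
  congr 1
  ring

theorem LI_divF {F : A} (hF : F ≠ 0) {k l : ℕ} {s : A} {x : K}
    (hx : algebraMap A K (F ^ k) * x ∈ LI (Ideal.span {F ^ (k + l)}) s) :
    x ∈ LI (Ideal.span {F ^ l}) s := by
  obtain ⟨n, p, hp, hx⟩ := hx
  rw [Ideal.mem_span_singleton] at hp
  obtain ⟨q, rfl⟩ := hp
  refine ⟨n, F ^ l * q, Ideal.mem_span_singleton.mpr (Dvd.intro _ rfl), ?_⟩
  have hne : algebraMap A K (F ^ k) ≠ 0 := by
    rw [Ne, IsFractionRing.to_map_eq_zero_iff]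
    exact pow_ne_zero _ hF
  apply mul_left_cancel₀ hne
  rw [mul_left_comm, hx, ← map_mul]
  congr 1
  ring

theorem HS_mulF {d : ℕ} {F : A} (hF : F.IsHomogeneous d) {k : ℕ} {t t' : ℤ} (h : t' = t + k * d)
    {x : K} (hx : x ∈ HS t) : algebraMap A K (F ^ k) * x ∈ HS t' := by
  obtain ⟨n, m, p, q, hp, hq, hq0, h1, h2⟩ := hx
  refine ⟨d * k + n, m, F ^ k * p, q, (hF.pow k).mul hp, hq, hq0, ?_, ?_⟩
  · push_cast
    rw [h, ← h1]
    ring
  · rw [mul_assoc, h2, map_mul]

theorem HS_divF {d : ℕ} {F : A} (hF : F.IsHomogeneous d) (hF0 : F ≠ 0) {k : ℕ} {t t' : ℤ}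
    (h : t = t' + k * d) {x : K} (hx : algebraMap A K (F ^ k) * x ∈ HS t) : x ∈ HS t' := by
  obtain ⟨n, m, p, q, hp, hq, hq0, h1, h2⟩ := hx
  refine ⟨n, d * k + m, p, F ^ k * q, hp, (hF.pow k).mul hq, mul_ne_zero (pow_ne_zero _ hF0) hq0,
    ?_, ?_⟩
  · push_cast
    have : t' = t - k * d := by rw [h]; ring
    rw [this, ← h1]
    ring
  · rw [map_mul, ← h2]
    ring

theorem span_le {F : A} {k : ℕ} (hk : 1 ≤ k) : Ideal.span {F ^ k} ≤ Ideal.span {F ^ 1} := by
  rw [Ideal.span_singleton_le_span_singleton]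
  exact pow_dvd_pow F hk

end KER

theorem t_KER : S_KER := by
  intro d F P u g del gam a hD k t hk
  have hF0 : F ≠ 0 := hD.F_prime.ne_zero
  have hFk : algebraMap A K (F ^ k) ≠ 0 := by
    rw [Ne, IsFractionRing.to_map_eq_zero_iff]
    exact pow_ne_zero _ hF0
  -- all the transition functions agree modulo `F`
  have hcomp : ∀ n, ∀ i j, a (n + 1) i j - a 1 i j ∈ LI (Ideal.span {F ^ 1}) (u i * u j) := by
    intro n i j
    induction n with
    | zero => rw [zero_add, sub_self]; exact Submodule.zero_mem _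
    | succ n ih =>
      have e : a (n + 1 + 1) i j - a 1 i j =
          (a (n + 1 + 1) i j - a (n + 1) i j) + (a (n + 1) i j - a 1 i j) := by ring
      rw [e]
      exact Submodule.add_mem _ (KER.LI_mono (KER.span_le (by omega))
        (hD.comp (n + 1) (by omega) i j)) ih
  have hdvd : ∀ i j : Fin 3, u j ∣ u i * u j := fun i j => Dvd.intro_left _ rfl
  constructor
  · intro s hs hsk
    obtain ⟨hs1, hs2⟩ := hs
    let r : Fin 3 → K := fun i => s i / algebraMap A K (F ^ k)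
    have hr : ∀ i, s i = algebraMap A K (F ^ k) * r i := by
      intro i
      show s i = algebraMap A K (F ^ k) * (s i / algebraMap A K (F ^ k))
      rw [mul_div_cancel₀ _ hFk]
    have hr1 : ∀ i, r i ∈ LI ⊤ (u i) := by
      intro i
      have h1 := hsk i
      rw [hr i] at h1
      have h2 := KER.LI_divF (l := 0) hF0 h1
      exact KER.LI_mono le_top h2
    refine ⟨r, ⟨fun i => ⟨hr1 i, ?_⟩, fun i j => ?_⟩, hr⟩
    · have h1 := (hs1 i).2
      rw [hr i] at h1
      refine KER.HS_divF hD.F_hom hF0 ?_ h1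
      ring
    · have h1 := hs2 i j
      rw [hr i, hr j, show algebraMap A K (F ^ k) * r i -
        a (k + 1) i j * (algebraMap A K (F ^ k) * r j) =
        algebraMap A K (F ^ k) * (r i - a (k + 1) i j * r j) by ring] at h1
      have h2 := KER.LI_divF (l := 1) hF0 h1
      have e : r i - a 1 i j * r j = (r i - a (k + 1) i j * r j) +
          (a (k + 1) i j - a 1 i j) * r j := by ring
      rw [e]
      exact Submodule.add_mem _ h2 (KER.LI_mul (hdvd i j) (hcomp k i j) (hr1 j))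
  · intro r hr
    obtain ⟨hr1, hr2⟩ := hr
    refine ⟨fun i => ⟨?_, ?_⟩, fun i j => ?_⟩
    · show algebraMap A K (F ^ k) * r i ∈ _
      rw [← Algebra.smul_def]
      exact Submodule.smul_mem _ _ (hr1 i).1
    · refine KER.HS_mulF hD.F_hom ?_ (hr1 i).2
      ring
    · show algebraMap A K (F ^ k) * r i - a (k + 1) i j * (algebraMap A K (F ^ k) * r j) ∈ _
      rw [show algebraMap A K (F ^ k) * r i - a (k + 1) i j * (algebraMap A K (F ^ k) * r j) =
        algebraMap A K (F ^ k) * (r i - a (k + 1) i j * r j) by ring]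
      refine KER.LI_mulF (l := 1) ?_
      have e : r i - a (k + 1) i j * r j = (r i - a 1 i j * r j) -
          (a (k + 1) i j - a 1 i j) * r j := by ring
      rw [e]
      exact Submodule.sub_mem _ (hr2 i j) (KER.LI_mul (hdvd i j) (hcomp k i j) (hr1 j).1)

end Pool.Agent.NOD.L3
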