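import Pool.Agent.NOD.L3.Lib33
import Pool.Agent.NOD.LocB

/-!
# Project NOD, section S3, piece LIFT (helper33): lifting a section
-/

set_option autoImplicit false
set_option linter.all false

namespace Pool.Agent.NOD.L3

open MvPolynomial L33

/-- homogeneous coefficient of the second generator -/
theorem L33.comp_two {F G x : A} {d e D : ℕ} (hF : F.IsHomogeneous d) (hG : G.IsHomogeneous e)
    (hx : x.IsHomogeneous D) (h : x ∈ Ideal.span {F, G}) :
    ∃ c : A, x - c * G ∈ Ideal.span {F} ∧ (c = 0 ∨ ∃ n, c.IsHomogeneous n ∧ n + e = D) := by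
  obtain ⟨f, c, hfc⟩ := Ideal.mem_span_pair.1 h
  have h1 : homogeneousComponent D (f * F) + homogeneousComponent D (c * G) = x := by
    rw [← map_add, hfc, homogeneousComponent_eq_self hx]
  have h2 : homogeneousComponent D (f * F) ∈ Ideal.span {F} := by
    rcases lt_or_ge D d with h | h
    · rw [hc_mul_lt hF h]; exact Ideal.zero_mem _
    · obtain ⟨n, rfl⟩ := Nat.exists_eq_add_of_le h
      rw [add_comm d n, hc_mul_right hF n]
      exact Ideal.mul_mem_left _ _ (Ideal.mem_span_singleton_self F)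
  rcases lt_or_ge D e with h | h
  · refine ⟨0, ?_, Or.inl rfl⟩
    rw [hc_mul_lt hG h, add_zero] at h1
    rw [zero_mul, sub_zero, ← h1]; exact h2
  · obtain ⟨n, rfl⟩ := Nat.exists_eq_add_of_le h
    refine ⟨homogeneousComponent n c, ?_, Or.inr ⟨n, homogeneousComponent_isHomogeneous n c, by omega⟩⟩
    have h3 : homogeneousComponent (e + n) (c * G) = homogeneousComponent n c * G := by
      rw [add_comm e n, hc_mul_right hG n]
    rw [← h3, ← h1, add_sub_cancel_right]
    exact h2

theorem t_LIFT (h1 : S_HNUM) : S_LIFT := by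
  intro d F P u g del gam a D k t hk s hs β hβ hβ2 b hb hb2
  obtain ⟨hs1, hs2⟩ := hs
  have hk1 : 1 ≤ k + 1 := by omega
  have hσ : ∀ i, ∃ σ : K, σ ∈ LI ⊤ (u i) ∧ σ ∈ HS (t - k * d - gam i) ∧
      β i - algebraMap A K b - algebraMap A K (g i) * σ ∈ LI (Ideal.span {F}) (u i) := by
    intro i
    obtain ⟨N, hN⟩ := h1 P (u i) (del i) (t - k * d) (β i - algebraMap A K b) (D.del_pos i)
      (D.u_hom i) (u_ne D i) (hb2 i) (Submodule.sub_mem _ (hβ.1 i).2 hb)
    obtain ⟨m, p, hm, hp, hpP, e⟩ := hN N le_rfl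
    obtain ⟨c, hc1, hc2⟩ := comp_two D.F_hom (D.g_hom i) ((D.u_hom i).mul hp) (D.loc i p hpP)
    have hu : algebraMap A K (u i) ≠ 0 := io_ne (u_ne D i)
    refine ⟨algebraMap A K c / algebraMap A K (u i) ^ (N + 1), ?_, ?_, ?_⟩
    · exact ⟨N + 1, c, trivial, by field_simp⟩
    · rcases hc2 with rfl | ⟨n, hn, hnD⟩
      · rw [map_zero, zero_div]; exact Submodule.zero_mem _
      · refine ⟨n, (N + 1) * del i, c, u i ^ (N + 1), hn, ?_, pow_ne_zero _ (u_ne D i), ?_, ?_⟩
        · have := (D.u_hom i).pow (N + 1)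
          rwa [mul_comm] at this
        · push_cast
          have : (n : ℤ) + gam i = del i + m := by exact_mod_cast hnD
          rw [hm] at this
          linarith
        · rw [map_pow]; field_simp
    · obtain ⟨f, hf⟩ := Ideal.mem_span_singleton'.1 hc1
      refine ⟨N + 1, u i * p - c * g i, hc1, ?_⟩
      rw [map_sub, map_mul, map_mul, ← e]
      field_simp
      ring
  choose σ hσ1 hσ2 hσ3 using hσ
  refine ⟨fun i => s i - algebraMap A K (F ^ k) * σ i, ⟨fun i => ⟨?_, ?_⟩, fun i j => ?_⟩, fun i => ?_⟩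
  · exact Submodule.sub_mem _ (hs1 i).1 (LI_alg_mul _ (hσ1 i))
  · refine Submodule.sub_mem _ (hs1 i).2 ?_
    exact HS_cast (by push_cast; ring) (HS_mul (HS_alg (Fk_hom D k)) (hσ2 i))
  · have hsi : ∀ i, s i - algebraMap A K (F ^ k) * σ i ∈ LI ⊤ (u i) := fun i =>
      Submodule.sub_mem _ (hs1 i).1 (LI_alg_mul _ (hσ1 i))
    refine cancel D.F_prime (F_g D i) (F_uu D i j) ?_ ?_
    · exact Submodule.sub_mem _ (LI_right _ _ _ (hsi i))
        (LI_mul_top (D.mem (k + 1) hk1 i j) (LI_left _ _ _ (hsi j)))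
    · have e : algebraMap A K (g i) * ((s i - algebraMap A K (F ^ k) * σ i) -
          a (k + 1) i j * (s j - algebraMap A K (F ^ k) * σ j)) =
          (algebraMap A K (g i) * (s i - a (k + 1) i j * s j) -
            algebraMap A K (F ^ k) * (β i - β j)) +
          algebraMap A K (F ^ k) * ((β i - algebraMap A K b - algebraMap A K (g i) * σ i) -
            (β j - algebraMap A K b - algebraMap A K (g j) * σ j) +
            (algebraMap A K (g i) * a (k + 1) i j - algebraMap A K (g j)) * σ j) := by ring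
      rw [e]
      refine Submodule.add_mem _ (hβ2 i j) (LI_pow_mul k ?_)
      refine Submodule.add_mem _ (Submodule.sub_mem _ (LI_right _ _ _ (hσ3 i))
        (LI_left _ _ _ (hσ3 j))) ?_
      exact LI_mul_top (D.gen (k + 1) hk1 i j) (LI_left _ _ _ (hσ1 j))
  · have e : s i - algebraMap A K (F ^ k) * σ i - s i = -(algebraMap A K (F ^ k) * σ i) := by ring
    simp only [e]
    exact Submodule.neg_mem _ ((LI_span_iff (u_ne D i)).2 ⟨σ i, hσ1 i, rfl⟩)

end Pool.Agent.NOD.L3
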