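import Pool.Agent.NOD.L3.Tools70

/-!
# Project NOD, section S3: piece LIM (helper70)
-/

set_option autoImplicit false

namespace Pool.Agent.NOD.L3

open MvPolynomial T70

/-- From V1: in degrees where `hI P` is zero sections of level one are zero. -/
lemma sec_one_null70 (h1 : S_V1) {d : ℕ} {F : A} {P : Ideal A} {u g : Fin 3 → A}
    {del gam : Fin 3 → ℕ} {a : ℕ → Fin 3 → Fin 3 → K} (hD : Dat d F P u g del gam a) {t : ℤ}
    (ht : t < 0) {s : Fin 3 → K} (hs : s ∈ Sec F u gam a 1 t) :
    ∀ i, s i ∈ LI (Ideal.span {F ^ 1}) (u i) := by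
  obtain ⟨hf, hd⟩ := h1 d F P u g del gam a hD t
  have h0 : hI P t = 0 := by
    unfold hI
    rw [if_neg (not_le.2 ht)]
  rw [h0] at hd
  have h2 : Module.finrank ℂ (VV F u gam a 1 t) = 0 := by omega
  have h3 : VV F u gam a 1 t = ⊥ := Submodule.finrank_eq_zero.1 h2
  have h4 : (Nul (Ideal.span {F ^ 1}) u).mkQ s ∈ VV F u gam a 1 t := ⟨s, hs, rfl⟩
  rw [h3, Submodule.mem_bot, Submodule.mkQ_apply, Submodule.Quotient.mk_eq_zero] at h4
  exact h4

theorem t_LIM (h1 : S_V1) (h2 : S_BPD) (h3 : S_OBS) (h4 : S_LIFT) (h5 : S_KER) : S_LIM := by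
  intro d F P u g del gam a hD
  -- part 2
  have part2 : ∀ (k : ℕ) (t : ℤ), 1 ≤ k → t < k * d → ∀ s, InM F u gam a t s →
      (∀ i, s k i ∈ LI (Ideal.span {F ^ k}) (u i)) → IsZ F u s := by
    intro k t hk ht s hs hsk
    have up : ∀ j, k ≤ j → ∀ i, s j i ∈ LI (Ideal.span {F ^ j}) (u i) := by
      intro j hj
      induction j, hj using Nat.le_induction with
      | base => exact hsk
      | succ j hj ih =>
        have hj1 : 1 ≤ j := hk.trans hj
        have h6 : ∀ i, s (j + 1) i ∈ LI (Ideal.span {F ^ j}) (u i) := by
          intro i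
          have e : s (j + 1) i = (s (j + 1) i - s j i) + s j i := by ring
          rw [e]
          exact Submodule.add_mem _ (hs.comp j hj1 i) (ih i)
        obtain ⟨r, hr, hr'⟩ := (h5 d F P u g del gam a hD j t hj1).1 _
          (hs.sec (j + 1) (by omega)) h6
        have ht' : t - (j : ℤ) * d < 0 := by
          have : (k : ℤ) * d ≤ j * d := by
            have : (k : ℤ) ≤ j := by exact_mod_cast hj
            exact mul_le_mul_of_nonneg_right this (by positivity)
          linarith
        have h7 := sec_one_null70 h1 hD ht' hr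
        intro i
        rw [hr' i]
        exact LI_mulF j (h7 i)
    intro j hj i
    rcases le_total k j with hkj | hjk
    · exact up j hkj i
    · have down : ∀ m, k = j + m → s j i ∈ LI (Ideal.span {F ^ j}) (u i) := by
        intro m
        induction m generalizing j with
        | zero => intro h; exact up j (by omega) i
        | succ m ih =>
          intro h
          have h8 := ih (j + 1) (by omega) (by omega) (by omega)
          have e : s j i = s (j + 1) i - (s (j + 1) i - s j i) := by ring
          rw [e]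
          exact Submodule.sub_mem _ (LI_pow_mono (Nat.le_succ j) _ h8) (hs.comp j hj i)
      obtain ⟨m, hm⟩ := Nat.exists_eq_add_of_le hjk
      exact down m hm
  refine ⟨?_, part2, ?_⟩
  · intro k t hk ht s₀ hs₀
    have lift : ∀ m : ℕ, ∀ s ∈ Sec F u gam a (k + m) t,
        ∃ s' ∈ Sec F u gam a (k + m + 1) t, ∀ i, s' i - s i ∈ LI (Ideal.span {F ^ (k + m)}) (u i) := by
      intro m s hs
      obtain ⟨β, hβ, hβ'⟩ := h3 d F P u g del gam a hD (k + m) t (by omega) s hs
      have ht' : t - ((k + m : ℕ) : ℤ) * d < 0 := by
        have : (k : ℤ) * d ≤ ((k + m : ℕ) : ℤ) * d := by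
          have : (k : ℤ) ≤ ((k + m : ℕ) : ℤ) := by push_cast; omega
          exact mul_le_mul_of_nonneg_right this (by positivity)
        linarith
      have hβ0 := (h2 d F P u g del gam a hD).2 _ ht' β hβ
      refine h4 d F P u g del gam a hD (k + m) t (by omega) s hs β hβ hβ' 0 ?_ ?_
      · rw [map_zero]
        exact Submodule.zero_mem _
      · intro i
        rw [map_zero, sub_zero]
        exact hβ0 i
    choose! L hL1 hL2 using lift
    let R : ℕ → Fin 3 → K := fun m => Nat.rec s₀ (fun m s => L m s) m
    have hR : ∀ m, R m ∈ Sec F u gam a (k + m) t := by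
      intro m
      induction m with
      | zero => exact hs₀
      | succ m ih => exact hL1 m _ ih
    refine ⟨fun j => R (j - k), ⟨fun j hj => ?_, fun j hj i => ?_⟩, fun i => ?_⟩
    · rcases le_total k j with hkj | hjk
      · have := hR (j - k)
        rwa [show k + (j - k) = j by omega] at this
      · have e : j - k = 0 := by omega
        rw [e]
        exact Sec_down_le hD hj hjk hs₀
    · rcases le_or_gt k j with hkj | hjk
      · have e : j + 1 - k = (j - k) + 1 := by omega
        have := hL2 (j - k) _ (hR (j - k)) i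
        rw [show k + (j - k) = j by omega] at this
        show R (j + 1 - k) i - R (j - k) i ∈ _
        rw [e]
        exact this
      · have e1 : j + 1 - k = 0 := by omega
        have e2 : j - k = 0 := by omega
        show R (j + 1 - k) i - R (j - k) i ∈ _
        rw [e1, e2, sub_self]
        exact Submodule.zero_mem _
    · show R (k - k) i - s₀ i ∈ _
      rw [Nat.sub_self]
      show s₀ i - s₀ i ∈ _
      rw [sub_self]
      exact Submodule.zero_mem _
  · intro t ht s hs
    refine part2 1 t le_rfl ?_ s hs (sec_one_null70 h1 hD ht (hs.sec 1 le_rfl))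
    have : (0 : ℤ) ≤ ((1 : ℕ) : ℤ) * d := by positivity
    linarith

end Pool.Agent.NOD.L3
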