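import Pool.Agent.NOD.StmL

set_option autoImplicit false

namespace Pool.Agent.NOD.L3

theorem t_LINREL : S_LINREL := by
  intro X Y _ _ _ _ Γ X₀ Y₀ h1 h2 hfin
  let ψ : Γ →ₗ[ℂ] (Y ⧸ Y₀) := Y₀.mkQ ∘ₗ LinearMap.snd ℂ X Y ∘ₗ Γ.subtype
  let π : Γ →ₗ[ℂ] (X ⧸ X₀) := X₀.mkQ ∘ₗ LinearMap.fst ℂ X Y ∘ₗ Γ.subtype
  have hψ : ∀ z : Γ, ψ z = Y₀.mkQ z.1.2 := fun z => rfl
  have hπ : ∀ z : Γ, π z = X₀.mkQ z.1.1 := fun z => rfl
  have hker : LinearMap.ker ψ ≤ LinearMap.ker π := by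
    intro z hz
    rw [LinearMap.mem_ker, hψ, Submodule.mkQ_apply, Submodule.Quotient.mk_eq_zero] at hz
    rw [LinearMap.mem_ker, hπ, Submodule.mkQ_apply, Submodule.Quotient.mk_eq_zero]
    exact h2 z.1.1 z.1.2 z.2 hz
  have hsurj : Function.Surjective π := by
    intro x
    obtain ⟨x, rfl⟩ := Submodule.mkQ_surjective X₀ x
    obtain ⟨y, hy⟩ := h1 x
    exact ⟨⟨(x, y), hy⟩, rfl⟩
  let θ : (Γ ⧸ LinearMap.ker ψ) →ₗ[ℂ] (X ⧸ X₀) := (LinearMap.ker ψ).liftQ π hker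
  have hθ : Function.Surjective θ := by
    intro x
    obtain ⟨z, hz⟩ := hsurj x
    exact ⟨(LinearMap.ker ψ).mkQ z, by rw [← hz]; rfl⟩
  haveI : Module.Finite ℂ (Γ ⧸ LinearMap.ker ψ) :=
    Module.Finite.equiv ψ.quotKerEquivRange.symm
  refine ⟨Module.Finite.of_surjective θ hθ, ?_⟩
  calc Module.finrank ℂ (X ⧸ X₀) = Module.finrank ℂ (LinearMap.range θ) := by
        rw [LinearMap.range_eq_top.mpr hθ, finrank_top]
    _ ≤ Module.finrank ℂ (Γ ⧸ LinearMap.ker ψ) := LinearMap.finrank_range_le θ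
    _ = Module.finrank ℂ (LinearMap.range ψ) := ψ.quotKerEquivRange.finrank_eq
    _ ≤ Module.finrank ℂ (Y ⧸ Y₀) := Submodule.finrank_le _

end Pool.Agent.NOD.L3
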