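import Pool.Agent.NOD.L3.HCI

set_option autoImplicit false

namespace Pool.Agent.NOD.L3

open MvPolynomial

/-- a form of positive degree outside an ideal: some variable is outside of it -/
theorem exists_var (P : Ideal A) (w : A) (δ : ℕ) (hδ : 0 < δ) (hw : w.IsHomogeneous δ)
    (h : w ∉ P) : ∃ l : Fin 5, (X l : A) ∉ P := by
  by_contra hcon
  push Not at hcon
  apply h
  rw [w.as_sum]
  refine Submodule.sum_mem _ fun e he => ?_
  have h0 : coeff e w ≠ 0 := mem_support_iff.1 he
  have hdeg := hw h0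
  obtain ⟨i, hi⟩ : ∃ i, e i ≠ 0 := by
    by_contra hc
    push Not at hc
    have : e = 0 := Finsupp.ext hc
    rw [this] at hdeg
    simp at hdeg
    omega
  have hdvd : (X i : A) ∣ monomial e (coeff e w) := by
    rw [X_dvd_monomial]
    exact Or.inr hi
  exact P.mem_of_dvd hdvd (hcon i)

/-- the Hilbert function of the quotient is nondecreasing -/
theorem t_MONO : S_MONO := by
  intro d F P u g del gam a D t
  obtain ⟨l, hl⟩ := exists_var P (u 0) (del 0) (D.del_pos 0) (D.u_hom 0) (D.u_not 0)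
  rcases lt_or_ge t 0 with ht | ht
  · rcases lt_or_ge (t + 1) 0 with ht' | ht'
    · rw [hI_neg ⊤ ht, hI_neg P ht, hI_neg ⊤ ht', hI_neg P ht']
    · have h0 : t + 1 = ((0 : ℕ) : ℤ) := by push_cast; omega
      rw [hI_neg ⊤ ht, hI_neg P ht, h0, hI_nat, hI_nat, zero_add, add_zero]
      have hf : Module.Finite ℂ (homogeneousSubmodule (Fin 5) ℂ 0) :=
        Module.Finite.iff_fg.2 (homogeneousSubmodule_fg (Fin 5) ℂ _)
      have hf2 : Module.Finite ℂ
          ((⊤ : Ideal A).restrictScalars ℂ ⊓ homogeneousSubmodule (Fin 5) ℂ 0 : Submodule ℂ A) :=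
        Submodule.finiteDimensional_of_le inf_le_right
      exact Submodule.finrank_mono (inf_le_inf_right _ (fun x _ => Submodule.mem_top))
  · obtain ⟨n, rfl⟩ := Int.eq_ofNat_of_zero_le ht
    have e1 : (n : ℤ) + 1 = ((n + 1 : ℕ) : ℤ) := by push_cast; ring
    have hX0 : (X l : A) ≠ 0 := X_ne_zero l
    have hX : (X l : A).IsHomogeneous 1 := isHomogeneous_X ℂ l
    have hfin : ∀ (I : Ideal A) (m : ℕ), Module.Finite ℂ
        (I.restrictScalars ℂ ⊓ homogeneousSubmodule (Fin 5) ℂ m : Submodule ℂ A) := by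
      intro I m
      have hf : Module.Finite ℂ (homogeneousSubmodule (Fin 5) ℂ m) :=
        Module.Finite.iff_fg.2 (homogeneousSubmodule_fg (Fin 5) ℂ _)
      exact Submodule.finiteDimensional_of_le inf_le_right
    let N : Submodule ℂ A := P.restrictScalars ℂ ⊓ homogeneousSubmodule (Fin 5) ℂ (n + 1)
    have hNf : Module.Finite ℂ N := hfin P (n + 1)
    let N0 : Submodule ℂ A := P.restrictScalars ℂ ⊓ homogeneousSubmodule (Fin 5) ℂ n
    have hN0f : Module.Finite ℂ N0 := hfin P n
    have hinj : Function.Injective (LinearMap.mulLeft ℂ (X l : A)) := by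
      intro x y hxy
      exact mul_left_cancel₀ hX0 hxy
    have hinf : MM (X l) (n : ℤ) ⊓ N = N0.map (LinearMap.mulLeft ℂ (X l : A)) := by
      refine le_antisymm ?_ ?_
      · rintro _ ⟨⟨c, hc, rfl⟩, ⟨hP, -⟩⟩
        refine ⟨c, ⟨?_, ?_⟩, rfl⟩
        · rcases D.P_prime.mem_or_mem (show (X l : A) * c ∈ P from hP) with h | h
          · exact absurd h hl
          · exact h
        · rw [← AA_nat]
          exact hc
      · rintro _ ⟨c, ⟨hcP, hc⟩, rfl⟩
        have hc' : c ∈ AA (n : ℤ) := by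
          rw [AA_nat]
          exact hc
        refine ⟨⟨c, hc', rfl⟩, ⟨P.mul_mem_left _ hcP, ?_⟩⟩
        have := mul_AA hX hc'
        rw [show (n : ℤ) + ((1 : ℕ) : ℤ) = ((n + 1 : ℕ) : ℤ) by push_cast; ring, AA_nat] at this
        exact this
    have hsup : MM (X l) (n : ℤ) ⊔ N ≤ AA ((n + 1 : ℕ) : ℤ) := by
      refine sup_le ?_ ?_
      · rintro _ ⟨c, hc, rfl⟩
        have := mul_AA hX hc
        rwa [show (n : ℤ) + ((1 : ℕ) : ℤ) = ((n + 1 : ℕ) : ℤ) by push_cast; ring] at this
      · rw [AA_nat]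
        exact inf_le_right
    have h1 := Submodule.finrank_sup_add_finrank_inf_eq (MM (X l) (n : ℤ)) N
    have h2 := Submodule.finrank_mono hsup
    have h3 : Module.finrank ℂ (N0.map (LinearMap.mulLeft ℂ (X l : A))) =
        Module.finrank ℂ N0 :=
      (LinearEquiv.finrank_eq (Submodule.equivMapOfInjective _ hinj N0)).symm
    rw [hinf, h3, finrank_MM hX0] at h1
    rw [e1, hI_top, hI_top, hI_nat P n, hI_nat P (n + 1)]
    change _ + Module.finrank ℂ N ≤ _ + Module.finrank ℂ N0
    omega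

end Pool.Agent.NOD.L3
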