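import Pool.Agent.NOD.StmL

set_option autoImplicit false

namespace Pool.Agent.NOD.L3.NUMEX

/-- binomial lower bound -/
lemma choose4 (t : ℕ) : t ^ 4 ≤ 24 * (t + 4).choose 4 := by
  have e4 : (t + 4).choose 4 * 4 = (t + 4) * (t + 3).choose 3 := by
    have := Nat.add_one_mul_choose_eq (t + 3) 3
    linarith
  have e3 : (t + 3).choose 3 * 3 = (t + 3) * (t + 2).choose 2 := by
    have := Nat.add_one_mul_choose_eq (t + 2) 2
    linarith
  have e2 : (t + 2).choose 2 * 2 = (t + 2) * (t + 1).choose 1 := by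
    have := Nat.add_one_mul_choose_eq (t + 1) 1
    linarith
  rw [Nat.choose_one_right] at e2
  have e : 24 * (t + 4).choose 4 = (t + 4) * ((t + 3) * ((t + 2) * (t + 1))) := by
    rw [← e2]
    have : (t + 3) * ((t + 2).choose 2 * 2) = 2 * ((t + 3).choose 3 * 3) := by rw [e3]; ring
    rw [this]
    have : (t + 4) * (2 * ((t + 3).choose 3 * 3)) = 6 * ((t + 4) * (t + 3).choose 3) := by ring
    rw [this, ← e4]
    ring
  rw [e]
  calc t ^ 4 = t * (t * (t * t)) := by ring
    _ ≤ (t + 4) * ((t + 3) * ((t + 2) * (t + 1))) := by gcongr <;> omega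

end Pool.Agent.NOD.L3.NUMEX

namespace Pool.Agent.NOD.L3

theorem t_NUMEX : S_NUMEX := by
  intro f M d δ hd h0 hb
  -- every value is at most M (t + δ + 1)^2
  have hle : ∀ (t : ℕ) (x : ℤ), x ≤ t → f x ≤ M * (t + 1) ^ 2 := by
    intro t x hx
    rcases lt_or_ge x 0 with h | h
    · rw [h0 x h]; exact Nat.zero_le _
    · obtain ⟨n, rfl⟩ := Int.eq_ofNat_of_zero_le h
      have : n ≤ t := by exact_mod_cast hx
      refine (hb n).trans ?_
      gcongr
  have key : ∀ t : ℕ, f t + ∑ j ∈ Finset.range (t + 1), f ((t : ℤ) - j * d + δ) ≤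
      (t + 2) * (M * (t + δ + 1) ^ 2) := by
    intro t
    have h1 : f t ≤ M * (t + δ + 1) ^ 2 := by
      have := hle (t + δ) t (by push_cast; omega)
      exact this
    have h2 : ∑ j ∈ Finset.range (t + 1), f ((t : ℤ) - j * d + δ) ≤
        (t + 1) * (M * (t + δ + 1) ^ 2) := by
      have : ∀ j ∈ Finset.range (t + 1), f ((t : ℤ) - j * d + δ) ≤ M * (t + δ + 1) ^ 2 := by
        intro j _
        refine hle (t + δ) _ ?_
        have : (0 : ℤ) ≤ (j : ℤ) * d := by positivity
        push_cast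
        linarith
      have := Finset.sum_le_card_nsmul _ _ _ this
      rwa [Finset.card_range, smul_eq_mul] at this
    calc _ ≤ M * (t + δ + 1) ^ 2 + (t + 1) * (M * (t + δ + 1) ^ 2) := add_le_add h1 h2
      _ = _ := by ring
  -- choose t = 24 * 2 * 4 * M * something
  set t : ℕ := 192 * (M + 1) + δ + 1 with ht
  refine ⟨t, ?_⟩
  have h1 := key t
  have h2 := NUMEX.choose4 t
  have h3 : 24 * ((t + 2) * (M * (t + δ + 1) ^ 2)) < t ^ 4 := by
    have a1 : t + 2 ≤ 2 * t := by omega
    have a2 : t + δ + 1 ≤ 2 * t := by omega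
    have a3 : 192 * M < t := by omega
    have tp : 0 < t := by omega
    calc 24 * ((t + 2) * (M * (t + δ + 1) ^ 2)) ≤ 24 * ((2 * t) * (M * (2 * t) ^ 2)) := by gcongr
      _ = (192 * M) * t ^ 3 := by ring
      _ < t * t ^ 3 := by
          exact Nat.mul_lt_mul_of_pos_right a3 (by positivity)
      _ = t ^ 4 := by ring
  have : 24 * (f t + ∑ j ∈ Finset.range (t + 1), f ((t : ℤ) - j * d + δ)) <
      24 * (t + 4).choose 4 := by
    calc _ ≤ 24 * ((t + 2) * (M * (t + δ + 1) ^ 2)) := by gcongr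
      _ < t ^ 4 := h3
      _ ≤ _ := h2
  exact lt_of_mul_lt_mul_left this (by norm_num)

end Pool.Agent.NOD.L3
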