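import Pool.Agent.NOD.L3.Lib33

/-!
# Project NOD, section S3, piece OBS (helper33): the obstruction
-/

set_option autoImplicit false
set_option linter.all false

namespace Pool.Agent.NOD.L3

open MvPolynomial L33

theorem t_OBS (h1 : S_CH1) : S_OBS := by
  intro d F P u g del gam a D k t hk s hs
  obtain ⟨hs1, hs2⟩ := hs
  have hk1 : 1 ≤ k + 1 := by omega
  have hsLI : ∀ i, s i ∈ LI ⊤ (u i) := fun i => (hs1 i).1
  have hsj : ∀ i j, s j ∈ LI ⊤ (u i * u j) := fun i j => LI_left ⊤ (u i) (u j) (hsLI j)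
  have hsi : ∀ i j, s i ∈ LI ⊤ (u i * u j) := fun i j => LI_right ⊤ (u i) (u j) (hsLI i)
  -- (1)
  have e1 : ∀ i j, s i - a (k + 1) i j * s j ∈ LI (Ideal.span {F ^ k}) (u i * u j) := by
    intro i j
    have e : s i - a (k + 1) i j * s j =
        (s i - a k i j * s j) - (a (k + 1) i j - a k i j) * s j := by ring
    rw [e]
    exact Submodule.sub_mem _ (hs2 i j) (LI_mul_top (D.comp k hk i j) (hsj i j))
  -- (2)
  have e2 : ∀ i j, ∃ τ ∈ LI ⊤ (u i * u j), s i - a (k + 1) i j * s j =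
      algebraMap A K (F ^ k) * τ := fun i j => (LI_span_iff (uu_ne D i j)).1 (e1 i j)
  choose τ hτ1 hτ2 using e2
  have hFk : F ^ k ≠ 0 := pow_ne_zero _ (F_ne D)
  have hFk' : algebraMap A K (F ^ k) ≠ 0 :=
    (map_ne_zero_iff _ (IsFractionRing.injective A K)).2 hFk
  have hτ3 : ∀ i j, τ i j ∈ HS (t - gam i - k * d) := by
    intro i j
    have h2 : s i - a (k + 1) i j * s j ∈ HS (t - gam i) := by
      refine Submodule.sub_mem _ (hs1 i).2 ?_
      exact HS_cast (by ring) (HS_mul (D.hom (k + 1) hk1 i j) (hs1 j).2)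
    exact HS_cast (by push_cast; ring) (HS_div (Fk_hom D k) hFk h2 (hτ2 i j).symm)
  -- (3)
  set y : Fin 3 → Fin 3 → K := fun i j => algebraMap A K (g i) * τ i j with hy
  have hyy : ∀ i j, y i j ∈ LI ⊤ (u i * u j) ∧ y i j ∈ HS (t - k * d) := by
    intro i j
    refine ⟨LI_alg_mul _ (hτ1 i j), ?_⟩
    exact HS_cast (by ring) (HS_mul (HS_alg (D.g_hom i)) (hτ3 i j))
  -- (4)
  have hFF : Ideal.span {F ^ (k + 1)} = Ideal.span {F ^ k * F} := by rw [pow_succ]
  have hc : ∀ i j l, y i j + y j l - y i l ∈ LI (Ideal.span {F}) (u i * u j * u l) := by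
    intro i j l
    have huuu : u i * u j * u l ≠ 0 := mul_ne_zero (uu_ne D i j) (u_ne D l)
    have h3 := D.coc (k + 1) hk1 i j l
    obtain ⟨w, hw, hw2⟩ := (LI_span_iff huuu).1 h3
    have hsl : s l ∈ LI ⊤ (u i * u j * u l) := LI_left ⊤ (u i * u j) (u l) (hsLI l)
    have h4 : τ i l = τ i j + a (k + 1) i j * τ j l + algebraMap A K F * (w * s l) := by
      apply mul_left_cancel₀ hFk'
      rw [← hτ2 i l, mul_add, mul_add, ← hτ2 i j]
      have h5 : algebraMap A K (F ^ k) * (a (k + 1) i j * τ j l) =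
          a (k + 1) i j * (s j - a (k + 1) j l * s l) := by rw [hτ2 j l]; ring
      have h6 : algebraMap A K (F ^ k) * (algebraMap A K F * (w * s l)) =
          (a (k + 1) i j * a (k + 1) j l - a (k + 1) i l) * s l := by
        rw [hw2, pow_succ, map_mul]; ring
      rw [h5, h6]
      ring
    have h7 : y i j + y j l - y i l = -((algebraMap A K (g i) * a (k + 1) i j -
        algebraMap A K (g j)) * τ j l) - algebraMap A K F *
          (algebraMap A K (g i) * (w * s l)) := by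
      simp only [hy]
      rw [h4]; ring
    rw [h7]
    refine Submodule.sub_mem _ (Submodule.neg_mem _ ?_) ?_
    · refine LI_mul_top (LI_right _ _ _ (D.gen (k + 1) hk1 i j)) ?_
      have := LI_left ⊤ (u i) (u j * u l) (hτ1 j l)
      rwa [← mul_assoc] at this
    · refine (LI_span_iff huuu).2 ⟨_, ?_, rfl⟩
      exact LI_alg_mul _ (LI_top_mul hw hsl)
  -- (5)
  obtain ⟨β, hβ1, hβ2⟩ := h1 d F P u g del gam a D (t - k * d) y hyy hc
  have hFP : Ideal.span {F} ≤ P := by
    rw [Ideal.span_le]; rintro x rfl; exact D.F_mem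
  refine ⟨β, ⟨hβ1, fun i j => ?_⟩, fun i j => ?_⟩
  · have h5 : β i - β j = y i j - (y i j - (β i - β j)) := by ring
    rw [h5]
    refine Submodule.sub_mem _ ?_ (LI_mono hFP _ (hβ2 i j))
    exact LI_mul_top (LI_alg _ (D.g_mem i)) (hτ1 i j)
  · have h5 : algebraMap A K (g i) * (s i - a (k + 1) i j * s j) -
        algebraMap A K (F ^ k) * (β i - β j) =
        algebraMap A K (F ^ k) * (y i j - (β i - β j)) := by
      rw [hτ2 i j]; simp only [hy]; ring
    rw [h5]
    exact LI_pow_mul k (hβ2 i j)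

end Pool.Agent.NOD.L3
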