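import Pool.Agent.NOD.L3.Tools70

/-!
# Project NOD, section S3: piece RANK1 (helper70)
-/

set_option autoImplicit false

namespace Pool.Agent.NOD.L3

open MvPolynomial T70

lemma choose4_70 (n : ℕ) : 24 * (n + 4).choose 4 = (n + 1) * (n + 2) * (n + 3) * (n + 4) := by
  have h := Nat.ascFactorial_eq_factorial_mul_choose n 4
  have h4 : Nat.factorial 4 = 24 := rfl
  rw [h4] at h
  rw [← h]
  simp only [Nat.ascFactorial]
  ring

lemma num70 (M : ℕ) : (7 * M + 4).choose 4 < 2 * (6 * M + 4).choose 4 := by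
  have h1 := choose4_70 (7 * M)
  have h2 := choose4_70 (6 * M)
  have h3 : (7 * M + 1) * (7 * M + 2) * (7 * M + 3) * (7 * M + 4) <
      2 * ((6 * M + 1) * (6 * M + 2) * (6 * M + 3) * (6 * M + 4)) := by
    nlinarith [sq_nonneg M, sq_nonneg (M ^ 2), Nat.zero_le M, Nat.zero_le (M ^ 2),
      Nat.zero_le (M ^ 3), Nat.zero_le (M ^ 4)]
  omega

theorem t_RANK1 (h1 : S_UPLOW) (h2 : S_LIM) (h3 : S_DIMA) (h4 : S_TF) : S_RANK1 := by
  intro d F P u g del gam a hD t t' s r hs hr hs0 hr0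
  obtain ⟨-, l2, l3⟩ := h2 d F P u g del gam a hD
  have ht : 0 ≤ t := by
    by_contra h
    exact hs0 (l3 t (not_le.1 h) s hs)
  have ht' : 0 ≤ t' := by
    by_contra h
    exact hr0 (l3 t' (not_le.1 h) r hr)
  obtain ⟨T, rfl⟩ := Int.eq_ofNat_of_zero_le ht
  obtain ⟨T', rfl⟩ := Int.eq_ofNat_of_zero_le ht'
  set M := max T T' with hM
  have hT : T ≤ M := le_max_left _ _
  have hT' : T' ≤ M := le_max_right _ _
  set m := 7 * M - T with hm
  set m' := 7 * M - T' with hm'
  set k := 7 * M + 1 with hk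
  have hd3 := hD.hd
  have hkd : ((7 * M : ℕ) : ℤ) < k * d := by
    have : 7 * M < k * d := by
      have : k * 1 ≤ k * d := Nat.mul_le_mul_left k (by omega)
      omega
    exact_mod_cast this
  obtain ⟨hfin, hle, -⟩ := h1 d F P u g del gam a hD k ((7 * M : ℕ) : ℤ) (by omega)
  have hI0 : hI ⊤ (((7 * M : ℕ) : ℤ) - k * d) = 0 := by
    unfold hI
    rw [if_neg (by omega)]
  have hItop : hI ⊤ ((7 * M : ℕ) : ℤ) = (7 * M + 4).choose 4 := by
    unfold hI
    rw [if_pos (by omega), Int.toNat_natCast, ← h3 (7 * M)]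
    have : ((⊤ : Ideal A).restrictScalars ℂ ⊓ homogeneousSubmodule (Fin 5) ℂ (7 * M) :
        Submodule ℂ A) = homogeneousSubmodule (Fin 5) ℂ (7 * M) := by
      apply inf_eq_right.2
      intro x _
      exact Submodule.mem_top
    rw [this]
  rw [hI0, hItop, add_zero] at hle
  -- the linear map
  have e1 : (T : ℤ) + m = ((7 * M : ℕ) : ℤ) := by omega
  have e2 : (T' : ℤ) + m' = ((7 * M : ℕ) : ℤ) := by omega
  let Ψ₀ : (homogeneousSubmodule (Fin 5) ℂ m × homogeneousSubmodule (Fin 5) ℂ m') →ₗ[ℂ]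
      (Fin 3 → K) :=
    { toFun := fun x i => algebraMap A K x.1 * s k i - algebraMap A K x.2 * r k i
      map_add' := by
        intro x y
        funext i
        simp only [Prod.fst_add, Prod.snd_add, Submodule.coe_add, map_add, Pi.add_apply]
        ring
      map_smul' := by
        intro c x
        funext i
        simp only [Prod.smul_fst, Prod.smul_snd, Submodule.coe_smul, Pi.smul_apply,
          RingHom.id_apply]
        rw [MvPolynomial.smul_eq_C_mul, MvPolynomial.smul_eq_C_mul, map_mul, map_mul,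
          Algebra.smul_def, IsScalarTower.algebraMap_apply ℂ A K c, MvPolynomial.algebraMap_eq]
        ring }
  let Ψ : (homogeneousSubmodule (Fin 5) ℂ m × homogeneousSubmodule (Fin 5) ℂ m') →ₗ[ℂ]
      VV F u gam a k ((7 * M : ℕ) : ℤ) :=
    LinearMap.codRestrict _ ((Nul (Ideal.span {F ^ k}) u).mkQ ∘ₗ Ψ₀) (by
      rintro ⟨⟨c, hc⟩, ⟨b, hb⟩⟩
      refine ⟨Ψ₀ ⟨⟨c, hc⟩, ⟨b, hb⟩⟩, ?_, rfl⟩
      have f1 := Sec_mul (hs.sec k (by omega)) ((mem_homogeneousSubmodule m c).1 hc)
      have f2 := Sec_mul (hr.sec k (by omega)) ((mem_homogeneousSubmodule m' b).1 hb)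
      rw [e1] at f1
      rw [e2] at f2
      exact Submodule.sub_mem _ f1 f2)
  have fin1 : Module.Finite ℂ (homogeneousSubmodule (Fin 5) ℂ m) := by
    apply Module.finite_of_finrank_pos
    rw [h3]
    exact Nat.choose_pos (by omega)
  have fin2 : Module.Finite ℂ (homogeneousSubmodule (Fin 5) ℂ m') := by
    apply Module.finite_of_finrank_pos
    rw [h3]
    exact Nat.choose_pos (by omega)
  have hdim : Module.finrank ℂ (VV F u gam a k ((7 * M : ℕ) : ℤ)) <
      Module.finrank ℂ (homogeneousSubmodule (Fin 5) ℂ m × homogeneousSubmodule (Fin 5) ℂ m') := by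
    rw [Module.finrank_prod, h3, h3]
    have c1 : (6 * M + 4).choose 4 ≤ (m + 4).choose 4 := Nat.choose_le_choose 4 (by omega)
    have c2 : (6 * M + 4).choose 4 ≤ (m' + 4).choose 4 := Nat.choose_le_choose 4 (by omega)
    have c3 := num70 M
    omega
  have hker := LinearMap.ker_ne_bot_of_finrank_lt hdim (f := Ψ)
  obtain ⟨⟨⟨c, hc⟩, ⟨b, hb⟩⟩, hx, hx0⟩ := Submodule.exists_mem_ne_zero_of_ne_bot hker
  have hc' := (mem_homogeneousSubmodule m c).1 hc
  have hb' := (mem_homogeneousSubmodule m' b).1 hb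
  have g1 := InM_mul hs hc'
  have g2 := InM_mul hr hb'
  rw [e1] at g1
  rw [e2] at g2
  have g3 := InM_sub g1 g2
  have hnul : ∀ i, algebraMap A K c * s k i - algebraMap A K b * r k i ∈
      LI (Ideal.span {F ^ k}) (u i) := by
    have h5 : Ψ ⟨⟨c, hc⟩, ⟨b, hb⟩⟩ = 0 := hx
    have h6 := congrArg Subtype.val h5
    have h7 : (Nul (Ideal.span {F ^ k}) u).mkQ (Ψ₀ ⟨⟨c, hc⟩, ⟨b, hb⟩⟩) = 0 := h6
    rw [Submodule.mkQ_apply, Submodule.Quotient.mk_eq_zero] at h7
    exact h7
  have hZ := l2 k _ (by omega) hkd _ g3 hnul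
  have hc0 : c ≠ 0 := by
    rintro rfl
    have hb0 : b ≠ 0 := by
      rintro rfl
      exact hx0 rfl
    apply hr0
    refine h4 d F P u g del gam a hD _ r b hr hb0 ?_
    have := IsZ_mul hZ (-1)
    refine IsZ_congr this fun k i => ?_
    rw [map_neg, map_one, map_zero]
    ring
  have hb0 : b ≠ 0 := by
    rintro rfl
    apply hs0
    refine h4 d F P u g del gam a hD _ s c hs hc0 ?_
    refine IsZ_congr hZ fun k i => ?_
    rw [map_zero]
    ring
  exact ⟨c, b, m, m', hc0, hb0, hc', hb', by omega, hZ⟩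

end Pool.Agent.NOD.L3
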