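import Pool.Agent.NOD.StmL

/-!
# PROJECT NOD, section S3: the dimension step (piece STEP).
-/

set_option autoImplicit false

namespace Pool.Agent.NOD.L3

open MvPolynomial

namespace STEP

/-! ## Linear algebra -/

lemma rk {E1 E2 : Type*} [AddCommGroup E1] [Module ℂ E1] [AddCommGroup E2] [Module ℂ E2]
    (f : E1 →ₗ[ℂ] E2) (V : Submodule ℂ E1) [Module.Finite ℂ V] :
    Module.finrank ℂ (V.map f) + Module.finrank ℂ (V ⊓ LinearMap.ker f : Submodule ℂ E1) =
      Module.finrank ℂ V := by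
  have h := LinearMap.finrank_range_add_finrank_ker (f.domRestrict V)
  rw [LinearMap.range_domRestrict, LinearMap.ker_domRestrict] at h
  rw [← h]
  congr 1
  have h2 := Submodule.map_comap_subtype V (LinearMap.ker f)
  rw [← h2]
  exact Submodule.finrank_map_subtype_eq V _

lemma rk_comap {E1 : Type*} [AddCommGroup E1] [Module ℂ E1] (V W : Submodule ℂ E1) (h : W ≤ V) :
    Module.finrank ℂ (W.comap V.subtype) = Module.finrank ℂ W := by
  have h2 := Submodule.map_comap_subtype V W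
  rw [inf_eq_right.2 h] at h2
  conv_rhs => rw [← h2]
  exact (Submodule.finrank_map_subtype_eq V _).symm

/-! ## Fractions -/

lemma LI_mono {I J : Ideal A} (h : I ≤ J) (s : A) {x : K} (hx : x ∈ LI I s) : x ∈ LI J s := by
  obtain ⟨n, p, hp, e⟩ := hx
  exact ⟨n, p, h hp, e⟩

lemma LI_mul {I : Ideal A} {s : A} {x y : K} (hx : x ∈ LI I s) (hy : y ∈ LI ⊤ s) :
    x * y ∈ LI I s := by
  obtain ⟨n, p, hp, e⟩ := hx
  obtain ⟨m, q, -, e'⟩ := hy
  refine ⟨n + m, p * q, I.mul_mem_right _ hp, ?_⟩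
  rw [map_mul, ← e, ← e']
  ring

lemma LI_right {I : Ideal A} {r s : A} {x : K} (hx : x ∈ LI I s) : x ∈ LI I (r * s) := by
  obtain ⟨n, p, hp, e⟩ := hx
  refine ⟨n, r ^ n * p, I.mul_mem_left _ hp, ?_⟩
  rw [map_mul, map_mul, ← e, map_pow]
  ring

lemma LI_alg (s : A) (b : A) : algebraMap A K b ∈ LI ⊤ s := ⟨0, b, trivial, by simp⟩

lemma LI_prime {P : Ideal A} (hP : P.IsPrime) {s b : A} (hs : s ∉ P) :
    algebraMap A K b ∈ LI P s ↔ b ∈ P := by
  constructor
  · rintro ⟨n, p, hp, e⟩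
    rw [← map_pow, ← map_mul] at e
    have e' := IsFractionRing.injective A K e
    rw [← e'] at hp
    rcases hP.mem_or_mem hp with h | h
    · exact absurd (hP.mem_of_pow_mem n h) hs
    · exact h
  · intro h
    exact ⟨0, b, h, by simp⟩

lemma aF_ne {F : A} (hF : F ≠ 0) (k : ℕ) : algebraMap A K (F ^ k) ≠ 0 := by
  intro h
  rw [← map_zero (algebraMap A K)] at h
  exact pow_ne_zero k hF (IsFractionRing.injective A K h)

lemma LI_scale {F : A} (hF : F ≠ 0) (k : ℕ) (s : A) (x : K) :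
    algebraMap A K (F ^ k) * x ∈ LI (Ideal.span {F ^ (k + 1)}) s ↔
      x ∈ LI (Ideal.span {F ^ 1}) s := by
  constructor
  · rintro ⟨n, p, hp, e⟩
    obtain ⟨c, rfl⟩ := Ideal.mem_span_singleton'.1 hp
    refine ⟨n, c * F ^ 1, Ideal.mem_span_singleton'.2 ⟨c, rfl⟩, ?_⟩
    apply mul_left_cancel₀ (aF_ne hF k)
    rw [← mul_assoc, mul_comm (algebraMap A K (F ^ k)) (algebraMap A K s ^ n), mul_assoc, e,
      ← map_mul]
    congr 1
    ring
  · rintro ⟨n, p, hp, e⟩
    obtain ⟨c, rfl⟩ := Ideal.mem_span_singleton'.1 hp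
    refine ⟨n, c * F ^ (k + 1), Ideal.mem_span_singleton'.2 ⟨c, rfl⟩, ?_⟩
    rw [← mul_assoc, mul_comm (algebraMap A K s ^ n) (algebraMap A K (F ^ k)), mul_assoc, e,
      ← map_mul]
    congr 1
    ring

lemma LI_F (F : A) (k : ℕ) (s : A) {x : K} (hx : x ∈ LI ⊤ s) :
    algebraMap A K (F ^ k) * x ∈ LI (Ideal.span {F ^ k}) s := by
  obtain ⟨n, p, -, e⟩ := hx
  refine ⟨n, p * F ^ k, Ideal.mem_span_singleton'.2 ⟨p, rfl⟩, ?_⟩
  rw [← mul_assoc, mul_comm (algebraMap A K s ^ n) (algebraMap A K (F ^ k)), mul_assoc, e,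
    ← map_mul]
  congr 1
  ring

/-- Multiplication of families by an element of `K`. -/
noncomputable def mulE (x : K) : (Fin 3 → K) →ₗ[ℂ] (Fin 3 → K) where
  toFun s := fun i => x * s i
  map_add' s r := by
    funext i
    simp only [Pi.add_apply]
    ring
  map_smul' c s := by
    funext i
    simp only [Pi.smul_apply, mul_smul_comm, RingHom.id_apply]

/-- The constant families. -/
noncomputable def cst : A →ₗ[ℂ] (Fin 3 → K) where
  toFun b := fun _ => algebraMap A K b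
  map_add' b c := by
    funext i
    simp only [Pi.add_apply, map_add]
  map_smul' c b := by
    funext i
    simp only [Pi.smul_apply, RingHom.id_apply]
    rw [Algebra.smul_def, map_mul, Algebra.smul_def, ← IsScalarTower.algebraMap_apply]

/-- The homogeneous polynomials of degree `t`, zero for `t < 0`. -/
noncomputable def BB (t : ℤ) : Submodule ℂ A :=
  if 0 ≤ t then homogeneousSubmodule (Fin 5) ℂ t.toNat else ⊥

lemma BB_pos {t : ℤ} (h : 0 ≤ t) : BB t = homogeneousSubmodule (Fin 5) ℂ t.toNat := if_pos h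

lemma BB_neg {t : ℤ} (h : ¬ 0 ≤ t) : BB t = ⊥ := if_neg h

lemma hI_eq (I : Ideal A) (t : ℤ) :
    hI I t = Module.finrank ℂ (BB t ⊓ I.restrictScalars ℂ : Submodule ℂ A) := by
  by_cases h : 0 ≤ t
  · rw [BB_pos h, inf_comm]
    exact if_pos h
  · rw [BB_neg h, bot_inf_eq, finrank_bot]
    exact if_neg h

lemma hI_top (t : ℤ) : hI ⊤ t = Module.finrank ℂ (BB t) := by
  rw [hI_eq]
  have : (BB t ⊓ (⊤ : Ideal A).restrictScalars ℂ : Submodule ℂ A) = BB t := by
    ext x
    simp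
  rw [this]

instance fin_hom (n : ℕ) : Module.Finite ℂ (homogeneousSubmodule (Fin 5) ℂ n) := by
  have h : (homogeneousSubmodule (Fin 5) ℂ n) ≤ MvPolynomial.restrictTotalDegree (Fin 5) ℂ n := by
    intro p hp
    rw [MvPolynomial.mem_restrictTotalDegree]
    exact IsHomogeneous.totalDegree_le hp
  exact Submodule.finiteDimensional_of_le h

instance fin_BB (t : ℤ) : Module.Finite ℂ (BB t) := by
  by_cases h : 0 ≤ t
  · rw [BB_pos h]
    infer_instance
  · rw [BB_neg h]
    infer_instance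

lemma BB_HS {t : ℤ} {b : A} (hb : b ∈ BB t) : algebraMap A K b ∈ HS t := by
  by_cases h : 0 ≤ t
  · rw [BB_pos h] at hb
    refine ⟨t.toNat, 0, b, 1, hb, isHomogeneous_one _ _, one_ne_zero, ?_, by simp⟩
    simp [h]
  · rw [BB_neg h] at hb
    have : b = 0 := by simpa using hb
    rw [this, map_zero]
    exact Submodule.zero_mem _

variable {d : ℕ} {F : A} {P : Ideal A} {u g : Fin 3 → A} {del gam : Fin 3 → ℕ}
  {a : ℕ → Fin 3 → Fin 3 → K}

lemma sec_le (D : Dat d F P u g del gam a) (k : ℕ) (t : ℤ) (hk : 1 ≤ k) :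
    Sec F u gam a (k + 1) t ≤ Sec F u gam a k t := by
  rintro s ⟨h1, h2⟩
  refine ⟨h1, fun i j => ?_⟩
  have e : s i - a k i j * s j = (s i - a (k + 1) i j * s j) +
      (a (k + 1) i j - a k i j) * s j := by ring
  rw [e]
  refine Submodule.add_mem _ (LI_mono ?_ _ (h2 i j)) (LI_mul (D.comp k hk i j) (LI_right (h1 j).1))
  rw [Ideal.span_singleton_le_span_singleton, pow_succ]
  exact Dvd.intro _ rfl

lemma nul_le (F : A) (u : Fin 3 → A) (k : ℕ) :
    Nul (Ideal.span {F ^ (k + 1)}) u ≤ Nul (Ideal.span {F ^ k}) u := by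
  intro s hs i
  refine LI_mono ?_ _ (hs i)
  rw [Ideal.span_singleton_le_span_singleton, pow_succ]
  exact Dvd.intro _ rfl

/-- Restriction. -/
noncomputable def rho (F : A) (u : Fin 3 → A) (k : ℕ) :
    ((Fin 3 → K) ⧸ Nul (Ideal.span {F ^ (k + 1)}) u) →ₗ[ℂ]
      ((Fin 3 → K) ⧸ Nul (Ideal.span {F ^ k}) u) :=
  Submodule.mapQ _ _ LinearMap.id (by
    rw [Submodule.comap_id]
    exact nul_le F u k)

lemma mul_le {F : A} (hF : F ≠ 0) (u : Fin 3 → A) (k : ℕ) :
    Nul (Ideal.span {F ^ 1}) u ≤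
      (Nul (Ideal.span {F ^ (k + 1)}) u).comap (mulE (algebraMap A K (F ^ k))) := by
  intro s hs i
  exact (LI_scale hF k (u i) (s i)).2 (hs i)

/-- Multiplication by `F^k`. -/
noncomputable def mm {F : A} (hF : F ≠ 0) (u : Fin 3 → A) (k : ℕ) :
    ((Fin 3 → K) ⧸ Nul (Ideal.span {F ^ 1}) u) →ₗ[ℂ]
      ((Fin 3 → K) ⧸ Nul (Ideal.span {F ^ (k + 1)}) u) :=
  Submodule.mapQ _ _ (mulE (algebraMap A K (F ^ k))) (mul_le hF u k)

lemma mm_inj {F : A} (hF : F ≠ 0) (u : Fin 3 → A) (k : ℕ) : Function.Injective (mm hF u k) := by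
  rw [← LinearMap.ker_eq_bot, LinearMap.ker_eq_bot']
  intro x hx
  obtain ⟨s, rfl⟩ := Submodule.mkQ_surjective _ x
  rw [Submodule.mkQ_apply] at hx ⊢
  unfold mm at hx
  rw [Submodule.mapQ_apply, Submodule.Quotient.mk_eq_zero] at hx
  rw [Submodule.Quotient.mk_eq_zero]
  intro i
  exact (LI_scale hF k (u i) (s i)).1 (hx i)

lemma ker_eq (h5 : S_KER) (D : Dat d F P u g del gam a) (k : ℕ) (t : ℤ) (hk : 1 ≤ k) :
    (VV F u gam a (k + 1) t ⊓ LinearMap.ker (rho F u k)) =
      (VV F u gam a 1 (t - k * d)).map (mm D.F_prime.ne_zero u k) := by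
  obtain ⟨hA, hB⟩ := h5 d F P u g del gam a D k t hk
  apply le_antisymm
  · rintro x ⟨⟨s, hs, rfl⟩, hx⟩
    rw [SetLike.mem_coe, LinearMap.mem_ker, Submodule.mkQ_apply] at hx
    unfold rho at hx
    rw [Submodule.mapQ_apply, LinearMap.id_apply, Submodule.Quotient.mk_eq_zero] at hx
    obtain ⟨r, hr, e⟩ := hA s hs hx
    refine ⟨Submodule.Quotient.mk r, ⟨r, hr, rfl⟩, ?_⟩
    unfold mm
    rw [Submodule.mapQ_apply, Submodule.mkQ_apply]
    congr 1
    funext i
    exact (e i).symm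
  · rintro x ⟨y, ⟨r, hr, rfl⟩, rfl⟩
    refine ⟨⟨_, hB r hr, ?_⟩, ?_⟩
    · unfold mm
      rw [Submodule.mkQ_apply, Submodule.mkQ_apply, Submodule.mapQ_apply]
      rfl
    · rw [SetLike.mem_coe, LinearMap.mem_ker]
      unfold mm rho
      rw [Submodule.mkQ_apply, Submodule.mapQ_apply, Submodule.mapQ_apply, LinearMap.id_apply,
        Submodule.Quotient.mk_eq_zero]
      intro i
      exact LI_F F k (u i) (hr.1 i).1

/-- The relation. -/
noncomputable def Gam (F : A) (P : Ideal A) (u g : Fin 3 → A) (gam : Fin 3 → ℕ)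
    (a : ℕ → Fin 3 → Fin 3 → K) (k : ℕ) (t τ : ℤ) :
    Submodule ℂ (VV F u gam a k t × VB P u τ) where
  carrier := {z | ∃ s ∈ Sec F u gam a k t, ∃ β ∈ BP P u τ,
    (∀ i j, algebraMap A K (g i) * (s i - a (k + 1) i j * s j) -
      algebraMap A K (F ^ k) * (β i - β j) ∈ LI (Ideal.span {F ^ (k + 1)}) (u i * u j)) ∧
    Submodule.Quotient.mk s = z.1.1 ∧ Submodule.Quotient.mk β = z.2.1}
  zero_mem' := by
    refine ⟨0, Submodule.zero_mem _, 0, Submodule.zero_mem _, fun i j => ?_, rfl, rfl⟩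
    simp
  add_mem' := by
    rintro z w ⟨s, hs, β, hβ, h1, h2, h3⟩ ⟨s', hs', β', hβ', h1', h2', h3'⟩
    refine ⟨s + s', Submodule.add_mem _ hs hs', β + β', Submodule.add_mem _ hβ hβ',
      fun i j => ?_, ?_, ?_⟩
    · have e : algebraMap A K (g i) * ((s + s') i - a (k + 1) i j * (s + s') j) -
          algebraMap A K (F ^ k) * ((β + β') i - (β + β') j) =
          (algebraMap A K (g i) * (s i - a (k + 1) i j * s j) -
            algebraMap A K (F ^ k) * (β i - β j)) +
          (algebraMap A K (g i) * (s' i - a (k + 1) i j * s' j) -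
            algebraMap A K (F ^ k) * (β' i - β' j)) := by
        simp only [Pi.add_apply]
        ring
      rw [e]
      exact Submodule.add_mem _ (h1 i j) (h1' i j)
    · rw [Submodule.Quotient.mk_add, h2, h2']
      rfl
    · rw [Submodule.Quotient.mk_add, h3, h3']
      rfl
  smul_mem' := by
    rintro c z ⟨s, hs, β, hβ, h1, h2, h3⟩
    refine ⟨c • s, Submodule.smul_mem _ _ hs, c • β, Submodule.smul_mem _ _ hβ,
      fun i j => ?_, ?_, ?_⟩
    · have e : algebraMap A K (g i) * ((c • s) i - a (k + 1) i j * (c • s) j) -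
          algebraMap A K (F ^ k) * ((c • β) i - (c • β) j) =
          c • (algebraMap A K (g i) * (s i - a (k + 1) i j * s j) -
            algebraMap A K (F ^ k) * (β i - β j)) := by
        simp only [Pi.smul_apply, smul_sub, mul_smul_comm, mul_sub]
      rw [e, ← IsScalarTower.algebraMap_smul A c]
      exact Submodule.smul_mem _ _ (h1 i j)
    · rw [Submodule.Quotient.mk_smul, h2]
      rfl
    · rw [Submodule.Quotient.mk_smul, h3]
      rfl

end STEP

theorem t_STEP (h1 : S_V1) (h2 : S_BPD) (h3 : S_OBS) (h4 : S_LIFT) (h5 : S_KER)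
    (h6 : S_LINREL) : S_STEP := by
  intro d F P u g del gam a D k t hk hfin
  have hτ : t - (k + 1) * d = t - k * d - d := by ring
  rw [hτ]
  obtain ⟨hV1f, hV1⟩ := h1 d F P u g del gam a D (t - k * d)
  obtain ⟨hVBf, -⟩ := (h2 d F P u g del gam a D).1 (t - k * d)
  obtain ⟨τ, hτe⟩ : ∃ τ : ℤ, τ = t - k * d := ⟨_, rfl⟩
  rw [← hτe] at hV1f hV1 hVBf ⊢
  -- the image of the restriction
  have hρ : (VV F u gam a (k + 1) t).map (STEP.rho F u k) ≤ VV F u gam a k t := by
    rintro x ⟨y, ⟨s, hs, rfl⟩, rfl⟩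
    refine ⟨s, STEP.sec_le D k t hk hs, ?_⟩
    unfold STEP.rho
    rw [Submodule.mkQ_apply, Submodule.mkQ_apply, Submodule.mapQ_apply, LinearMap.id_apply]
  have hker := STEP.ker_eq h5 D k t hk
  rw [← hτe] at hker
  have hfin' : Module.Finite ℂ (VV F u gam a (k + 1) t) := by
    rw [Module.Finite.iff_fg]
    apply Submodule.fg_of_fg_map_of_fg_inf_ker (STEP.rho F u k)
    · rw [← Module.Finite.iff_fg]
      exact Submodule.finiteDimensional_of_le hρ
    · rw [hker]
      exact Submodule.FG.map _ ((Module.Finite.iff_fg).1 hV1f)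
  have hrk := STEP.rk (STEP.rho F u k) (VV F u gam a (k + 1) t)
  have hmm : Module.finrank ℂ (VV F u gam a (k + 1) t ⊓ LinearMap.ker (STEP.rho F u k) :
      Submodule ℂ _) = Module.finrank ℂ (VV F u gam a 1 τ) := by
    rw [hker]
    exact (LinearEquiv.finrank_eq (Submodule.equivMapOfInjective _
      (STEP.mm_inj D.F_prime.ne_zero u k) _)).symm
  have hle : Module.finrank ℂ ((VV F u gam a (k + 1) t).map (STEP.rho F u k)) ≤
      Module.finrank ℂ (VV F u gam a k t) := Submodule.finrank_mono hρ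
  refine ⟨hfin', by omega, ?_⟩
  -- the constants
  have hcst : (STEP.BB τ).map ((Nul P u).mkQ ∘ₗ STEP.cst) ≤ VB P u τ := by
    rintro x ⟨b, hb, rfl⟩
    refine ⟨STEP.cst b, ⟨fun i => ⟨STEP.LI_alg _ _, STEP.BB_HS hb⟩, fun i j => ?_⟩, rfl⟩
    change algebraMap A K b - algebraMap A K b ∈ _
    rw [sub_self]
    exact Submodule.zero_mem _
  have hrk2 := STEP.rk ((Nul P u).mkQ ∘ₗ STEP.cst) (STEP.BB τ)
  have hkc : LinearMap.ker ((Nul P u).mkQ ∘ₗ STEP.cst) = P.restrictScalars ℂ := by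
    ext b
    rw [LinearMap.mem_ker, LinearMap.comp_apply, Submodule.mkQ_apply,
      Submodule.Quotient.mk_eq_zero, Submodule.restrictScalars_mem]
    constructor
    · intro h
      exact (STEP.LI_prime D.P_prime (D.u_not 0)).1 (h 0)
    · intro h i
      exact (STEP.LI_prime D.P_prime (D.u_not i)).2 h
  rw [hkc, ← STEP.hI_eq, ← STEP.hI_top] at hrk2
  -- the relation
  obtain ⟨hq1, hq2⟩ := h6 (VV F u gam a k t) (VB P u τ) (STEP.Gam F P u g gam a k t τ)
    (((VV F u gam a (k + 1) t).map (STEP.rho F u k)).comap (VV F u gam a k t).subtype)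
    (((STEP.BB τ).map ((Nul P u).mkQ ∘ₗ STEP.cst)).comap (VB P u τ).subtype)
    (by
      rintro ⟨x, s, hs, rfl⟩
      obtain ⟨β, hβ, h⟩ := h3 d F P u g del gam a D k t hk s hs
      rw [← hτe] at hβ
      exact ⟨⟨_, β, hβ, rfl⟩, s, hs, β, hβ, h, rfl, rfl⟩)
    (by
      rintro x y ⟨s, hs, β, hβ, h, hx, hy⟩ hy'
      rw [Submodule.mem_comap, Submodule.subtype_apply] at hy' ⊢
      obtain ⟨b, hb, e⟩ := hy'
      change Submodule.Quotient.mk β = y.1 at hy
      change Submodule.Quotient.mk s = x.1 at hx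
      rw [← hy, LinearMap.comp_apply, Submodule.mkQ_apply, eq_comm, Submodule.Quotient.eq] at e
      rw [hτe] at hβ
      obtain ⟨s', hs', hs''⟩ := h4 d F P u g del gam a D k t hk s hs β hβ h b
        (by rw [← hτe]; exact STEP.BB_HS hb) (fun i => e i)
      refine ⟨_, ⟨s', hs', rfl⟩, ?_⟩
      unfold STEP.rho
      rw [← hx, Submodule.mkQ_apply, Submodule.mapQ_apply, LinearMap.id_apply,
        Submodule.Quotient.eq]
      exact fun i => hs'' i)
    inferInstance
  have e1 := Submodule.finrank_quotient_add_finrank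
    (((VV F u gam a (k + 1) t).map (STEP.rho F u k)).comap (VV F u gam a k t).subtype)
  have e2 := Submodule.finrank_quotient_add_finrank
    (((STEP.BB τ).map ((Nul P u).mkQ ∘ₗ STEP.cst)).comap (VB P u τ).subtype)
  rw [STEP.rk_comap _ _ hρ] at e1
  rw [STEP.rk_comap _ _ hcst] at e2
  omega

end Pool.Agent.NOD.L3
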