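import Pool.Agent.NOD.StmL

set_option autoImplicit false

namespace Pool.Agent.NOD.L3

open MvPolynomial

theorem LI_mono {I J : Ideal A} (h : I ≤ J) (s : A) {x : K} (hx : x ∈ LI I s) : x ∈ LI J s := by
  obtain ⟨n, p, hp, h1⟩ := hx
  exact ⟨n, p, h hp, h1⟩

theorem span_pow_le (F : A) {j k : ℕ} (h : k ≤ j) :
    Ideal.span {F ^ j} ≤ Ideal.span {F ^ k} := by
  rw [Ideal.span_singleton_le_span_singleton]
  exact pow_dvd_pow F h

/-- no torsion in the limit module -/
theorem t_TF : S_TF := by
  intro d F P u g del gam a D t s c hs hc hz k hk i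
  have hFu : ¬ F ∣ u i := by
    intro h
    exact D.u_not i (P.mem_of_dvd h D.F_mem)
  have hfin : FiniteMultiplicity F c := by
    exact FiniteMultiplicity.of_prime_left D.F_prime hc
  obtain ⟨r, c', hc', hFc'⟩ : ∃ (r : ℕ) (c' : A), c = F ^ r * c' ∧ ¬ F ∣ c' :=
    ⟨_, hfin.exists_eq_pow_mul_and_not_dvd.choose,
      hfin.exists_eq_pow_mul_and_not_dvd.choose_spec.1,
      hfin.exists_eq_pow_mul_and_not_dvd.choose_spec.2⟩
  have hinj : Function.Injective (algebraMap A K) := IsFractionRing.injective A K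
  -- the section of level `k + r` is divisible by `F ^ k`
  have h1 : s (k + r) i ∈ LI (Ideal.span {F ^ k}) (u i) := by
    obtain ⟨n, p, hp, h2⟩ := hz (k + r) (by omega) i
    obtain ⟨m, q, -, h3⟩ := ((hs.sec (k + r) (by omega)).1 i).1
    obtain ⟨p', hp'⟩ := Ideal.mem_span_singleton.1 hp
    have h4 : c * q * u i ^ n = u i ^ m * p := by
      apply hinj
      rw [map_mul, map_mul, map_mul, map_pow, map_pow, ← h2, ← h3]
      ring
    rw [hc', hp', pow_add] at h4
    have h5 : c' * u i ^ n * q = F ^ k * (u i ^ m * p') := by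
      have hF0 : F ^ r ≠ 0 := pow_ne_zero _ D.F_prime.ne_zero
      apply mul_left_cancel₀ hF0
      linear_combination h4
    have h6 : ¬ F ∣ c' * u i ^ n := by
      intro h
      rcases D.F_prime.dvd_or_dvd h with h | h
      · exact hFc' h
      · exact hFu (D.F_prime.dvd_of_dvd_pow h)
    have h7 : F ^ k ∣ q := D.F_prime.pow_dvd_of_dvd_mul_left k h6 ⟨_, h5⟩
    exact ⟨m, q, Ideal.mem_span_singleton.2 h7, h3⟩
  -- the chain
  have h2 : ∀ j, s (k + j) i - s k i ∈ LI (Ideal.span {F ^ k}) (u i) := by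
    intro j
    induction j with
    | zero =>
      rw [add_zero, sub_self]
      exact Submodule.zero_mem _
    | succ j ih =>
      have h3 := LI_mono (span_pow_le F (show k ≤ k + j by omega)) (u i)
        (hs.comp (k + j) (by omega) i)
      have e : s (k + (j + 1)) i - s k i = (s (k + j + 1) i - s (k + j) i) +
          (s (k + j) i - s k i) := by
        rw [← add_assoc]
        ring
      rw [e]
      exact Submodule.add_mem _ h3 ih
  have e : s k i = s (k + r) i - (s (k + r) i - s k i) := by ring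
  rw [e]
  exact Submodule.sub_mem _ h1 (h2 r)

end Pool.Agent.NOD.L3
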