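import Pool.Agent.NOD.StmL

/-!
# Project NOD, section S3, piece UPLOW
-/

set_option autoImplicit false

namespace Pool.Agent.NOD.L3

open MvPolynomial

namespace UPLOW

theorem hI_le (P : Ideal A) (t : ℤ) : hI P t ≤ hI ⊤ t := by
  unfold hI
  split_ifs with h
  · have hfd : FiniteDimensional ℂ (homogeneousSubmodule (Fin 5) ℂ t.toNat) := by
      have : homogeneousSubmodule (Fin 5) ℂ t.toNat ≤ restrictTotalDegree (Fin 5) ℂ t.toNat := by
        intro f hf
        rw [mem_restrictTotalDegree]
        exact IsHomogeneous.totalDegree_le hf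
      exact Submodule.finiteDimensional_of_le this
    have hfd2 : FiniteDimensional ℂ (((⊤ : Ideal A).restrictScalars ℂ ⊓
        homogeneousSubmodule (Fin 5) ℂ t.toNat : Submodule ℂ A)) :=
      Submodule.finiteDimensional_of_le inf_le_right
    exact Submodule.finrank_mono (inf_le_inf (fun x _ => trivial) le_rfl)
  · exact le_rfl

end UPLOW

theorem t_UPLOW (h1 : S_V1) (h2 : S_STEP) : S_UPLOW := by
  intro d F P u g del gam a hD k t hk
  induction k, hk using Nat.le_induction with
  | base =>
    obtain ⟨hf, he⟩ := h1 d F P u g del gam a hD t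
    have hle := UPLOW.hI_le P t
    have e1 : t - ((1 : ℕ) : ℤ) * d = t - d := by push_cast; ring
    rw [e1]
    refine ⟨hf, by omega, ?_⟩
    rw [Finset.Ico_self, Finset.sum_empty]
    omega
  | succ k hk ih =>
    obtain ⟨hf, hu, hl⟩ := ih
    obtain ⟨s1, s2, s3⟩ := h2 d F P u g del gam a hD k t hk hf
    have hle := UPLOW.hI_le P (t - k * d)
    have e1 : t - ((k + 1 : ℕ) : ℤ) * d = t - ((k : ℤ) + 1) * d := by push_cast; ring
    rw [e1]
    refine ⟨s1, by omega, ?_⟩
    rw [Finset.sum_Ico_succ_top hk]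
    omega

end Pool.Agent.NOD.L3
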