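import Pool.Agent.NOD.StmL

/-!
# Project NOD, section S3, piece V1
-/

set_option autoImplicit false

namespace Pool.Agent.NOD.L3

open MvPolynomial Module

namespace V1Aux

/-! ### Algebra -/

theorem comp_mul {m : ℕ} {g : A} (hg : g.IsHomogeneous m) (c : A) (N : ℕ) :
    homogeneousComponent N (g * c) = if m ≤ N then g * homogeneousComponent (N - m) c else 0 := by
  conv_lhs => rw [← sum_homogeneousComponent c, Finset.mul_sum, map_sum]
  have h1 : ∀ i, homogeneousComponent N (g * homogeneousComponent i c) =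
      if N = m + i then g * homogeneousComponent i c else 0 := fun i =>
    homogeneousComponent_of_mem ((mem_homogeneousSubmodule _ _).mpr
      (hg.mul (homogeneousComponent_isHomogeneous i c)))
  rw [Finset.sum_congr rfl fun i _ => h1 i]
  split_ifs with h
  · rw [Finset.sum_eq_single (N - m)]
    · rw [if_pos (by omega)]
    · intro b _ hb
      rw [if_neg (by omega)]
    · intro hn
      rw [Finset.mem_range, not_lt] at hn
      rw [homogeneousComponent_eq_zero _ _ (by omega), mul_zero, ite_self]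
  · refine Finset.sum_eq_zero fun i _ => ?_
    rw [if_neg (by omega)]

theorem LI_mono {I J : Ideal A} (h : I ≤ J) (s : A) : LI I s ≤ LI J s := by
  rintro x ⟨n, p, hp, hx⟩
  exact ⟨n, p, h hp, hx⟩

theorem LI_mul_right {I : Ideal A} {s : A} (t : A) {x : K} (h : x ∈ LI I s) : x ∈ LI I (s * t) := by
  obtain ⟨n, p, hp, hx⟩ := h
  refine ⟨n, t ^ n * p, I.mul_mem_left _ hp, ?_⟩
  rw [map_mul, map_mul, mul_pow, map_pow, ← hx]
  ring

theorem LI_mul_left {I : Ideal A} {s : A} (t : A) {x : K} (h : x ∈ LI I s) : x ∈ LI I (t * s) := by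
  rw [mul_comm]
  exact LI_mul_right t h

theorem LI_top_mul {I : Ideal A} {s : A} {x y : K} (h : x ∈ LI I s) (h' : y ∈ LI ⊤ s) :
    x * y ∈ LI I s := by
  obtain ⟨n, p, hp, hx⟩ := h
  obtain ⟨m, q, _, hy⟩ := h'
  refine ⟨n + m, p * q, I.mul_mem_right _ hp, ?_⟩
  rw [map_mul, ← hx, ← hy]
  ring

theorem LI_smul {I : Ideal A} {s : A} (c : A) {x : K} (h : x ∈ LI I s) :
    algebraMap A K c * x ∈ LI I s := by
  rw [← Algebra.smul_def]
  exact Submodule.smul_mem _ _ h

theorem LI_of {I : Ideal A} {s p : A} (h : p ∈ I) : algebraMap A K p ∈ LI I s :=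
  ⟨0, p, h, by simp⟩

theorem amap_inj : Function.Injective (algebraMap A K) := IsFractionRing.injective A K

/-- cancellation of an element which is not divisible by `F` -/
theorem LI_cancel {F g s : A} (hF : Prime F) (hg : ¬ F ∣ g) (hs : ¬ F ∣ s) {x : K}
    (h : x ∈ LI ⊤ s) (h' : algebraMap A K g * x ∈ LI (Ideal.span {F}) s) :
    x ∈ LI (Ideal.span {F}) s := by
  obtain ⟨n, p, _, hx⟩ := h
  obtain ⟨m, q, hq, hy⟩ := h'
  rw [Ideal.mem_span_singleton] at hq
  have h1 : s ^ m * (g * p) = s ^ n * q := by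
    apply amap_inj
    rw [map_mul, map_mul, map_mul, map_pow, map_pow, ← hx, ← hy]
    ring
  have h2 : F ∣ s ^ m * (g * p) := by rw [h1]; exact hq.mul_left _
  have h3 : F ∣ p := by
    rcases hF.dvd_or_dvd h2 with h4 | h4
    · exact absurd (hF.dvd_of_dvd_pow h4) hs
    · exact (hF.dvd_or_dvd h4).resolve_left hg
  exact ⟨n, p, Ideal.mem_span_singleton.mpr h3, hx⟩

theorem mem_of_LI {P : Ideal A} (hP : P.IsPrime) {s p : A} (hs : s ∉ P)
    (h : algebraMap A K p ∈ LI P s) : p ∈ P := by
  obtain ⟨n, q, hq, hx⟩ := h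
  have h1 : s ^ n * p = q := by
    apply amap_inj
    rw [map_mul, map_pow, hx]
  rw [← h1] at hq
  exact (hP.mem_or_mem hq).resolve_left fun h => hs (hP.mem_of_pow_mem n h)

theorem HS_mul {m : ℕ} {p : A} (hp : p.IsHomogeneous m) {t : ℤ} {x : K} (hx : x ∈ HS t) :
    algebraMap A K p * x ∈ HS (t + m) := by
  obtain ⟨n, k, a, b, ha, hb, hb0, h1, h2⟩ := hx
  refine ⟨m + n, k, p * a, b, hp.mul ha, hb, hb0, ?_, ?_⟩
  · push_cast
    omega
  · rw [map_mul, ← h2]
    ring

section data

variable {d : ℕ} {F : A} {P : Ideal A} {u g : Fin 3 → A} {del gam : Fin 3 → ℕ}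
  {a : ℕ → Fin 3 → Fin 3 → K}

theorem not_dvd_u (D : Dat d F P u g del gam a) (i : Fin 3) : ¬ F ∣ u i := fun h =>
  D.u_not i (P.mem_of_dvd h D.F_mem)

theorem not_dvd_uu (D : Dat d F P u g del gam a) (i j : Fin 3) : ¬ F ∣ u i * u j := fun h =>
  (D.F_prime.dvd_or_dvd h).elim (not_dvd_u D i) (not_dvd_u D j)

theorem not_dvd_g (D : Dat d F P u g del gam a) (i : Fin 3) : ¬ F ∣ g i := by
  intro h
  have h1 : P ≤ Ideal.span {F} := by
    intro p hp
    have h2 := D.loc i p hp
    have h3 : Ideal.span {F, g i} ≤ Ideal.span {F} := by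
      rw [Ideal.span_le]
      rintro x (rfl | rfl)
      · exact Ideal.mem_span_singleton_self _
      · exact Ideal.mem_span_singleton.mpr h
    have h4 := Ideal.mem_span_singleton.mp (h3 h2)
    exact Ideal.mem_span_singleton.mpr ((D.F_prime.dvd_or_dvd h4).resolve_left (not_dvd_u D i))
  have h2 : P = Ideal.span {F} := le_antisymm h1 (by
    rw [Ideal.span_le, Set.singleton_subset_iff]
    exact D.F_mem)
  have hP := D.P_prime
  have hht := D.P_ht
  rw [h2] at hP hht
  have h3 : (Ideal.span {F}).height ≤ 1 :=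
    Ideal.height_le_one_of_isPrincipal_of_mem_minimalPrimes (Ideal.span {F}) (Ideal.span {F})
      (by rw [Ideal.minimalPrimes_eq_subsingleton_self]; rfl)
  rw [hht] at h3
  norm_num at h3

theorem sec_to_form (h1 : S_CH0) (D : Dat d F P u g del gam a) (t : ℤ) (s : Fin 3 → K)
    (hs : s ∈ Sec F u gam a 1 t) :
    ∃ c : A, (0 ≤ t → c.IsHomogeneous t.toNat) ∧ (t < 0 → c = 0) ∧ c ∈ P ∧
      ∀ i, algebraMap A K (g i) * s i - algebraMap A K c ∈ LI (Ideal.span {F}) (u i) := by
  obtain ⟨hs1, hs2⟩ := hs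
  obtain ⟨c, hc1, hc2, hc3⟩ := h1 d F P u g del gam a D t (fun i => algebraMap A K (g i) * s i)
    (fun i => ⟨LI_smul _ (hs1 i).1, by
      have := HS_mul (D.g_hom i) (hs1 i).2
      rwa [sub_add_cancel] at this⟩)
    (fun i j => by
      have e : algebraMap A K (g i) * s i - algebraMap A K (g j) * s j =
          algebraMap A K (g i) * (s i - a 1 i j * s j) +
            (algebraMap A K (g i) * a 1 i j - algebraMap A K (g j)) * s j := by ring
      rw [e]
      have h2 := hs2 i j
      rw [pow_one] at h2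
      exact Submodule.add_mem _ (LI_smul _ h2)
        (LI_top_mul (D.gen 1 le_rfl i j) (LI_mul_left _ (hs1 j).1)))
  refine ⟨c, hc1, hc2, ?_, hc3⟩
  obtain ⟨n, f, hf, hx⟩ := hc3 0
  obtain ⟨m, p, _, hy⟩ := (hs1 0).1
  rw [Ideal.mem_span_singleton] at hf
  have e : u 0 ^ (n + m) * c = u 0 ^ n * (g 0 * p) - u 0 ^ m * f := by
    apply amap_inj
    rw [map_sub, map_mul, map_mul, map_mul, map_mul, map_pow, map_pow, map_pow, ← hx, ← hy]
    ring
  have h3 : u 0 ^ (n + m) * c ∈ P := by
    rw [e]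
    exact P.sub_mem (P.mul_mem_left _ (P.mul_mem_right _ (D.g_mem 0)))
      (P.mul_mem_left _ (P.mem_of_dvd hf D.F_mem))
  exact (D.P_prime.mem_or_mem h3).resolve_left fun h => D.u_not 0 (D.P_prime.mem_of_pow_mem _ h)

theorem form_to_sec (D : Dat d F P u g del gam a) (t : ℤ) (ht : 0 ≤ t) (p : A)
    (hp : p.IsHomogeneous t.toNat) (hpP : p ∈ P) :
    ∃ s ∈ Sec F u gam a 1 t,
      ∀ i, algebraMap A K (g i) * s i - algebraMap A K p ∈ LI (Ideal.span {F}) (u i) := by
  have hu0 : ∀ i, u i ≠ 0 := fun i h => D.u_not i (by rw [h]; exact P.zero_mem)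
  have hc : ∀ i, ∃ c : A, F ∣ u i * p - g i * c ∧
      algebraMap A K c / algebraMap A K (u i) ∈ HS (t - gam i) := by
    intro i
    obtain ⟨b, c, hbc⟩ := Ideal.mem_span_pair.mp (D.loc i p hpP)
    have hh : (u i * p).IsHomogeneous (del i + t.toNat) := (D.u_hom i).mul hp
    have h2 : u i * p = homogeneousComponent (del i + t.toNat) (F * b) +
        homogeneousComponent (del i + t.toNat) (g i * c) := by
      rw [← map_add, mul_comm F b, mul_comm (g i) c, hbc]
      exact (homogeneousComponent_eq_self hh).symm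
    rw [comp_mul D.F_hom, comp_mul (D.g_hom i)] at h2
    by_cases h : gam i ≤ del i + t.toNat
    · rw [if_pos h] at h2
      refine ⟨homogeneousComponent (del i + t.toNat - gam i) c, ?_, ?_⟩
      · rw [h2, add_sub_cancel_right]
        split_ifs
        · exact Dvd.intro _ rfl
        · exact dvd_zero _
      · refine ⟨del i + t.toNat - gam i, del i, homogeneousComponent (del i + t.toNat - gam i) c,
          u i, homogeneousComponent_isHomogeneous _ c, D.u_hom i, hu0 i, ?_, ?_⟩
        · omega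
        · rw [div_mul_cancel₀]
          exact fun h => hu0 i (amap_inj (by rw [h, map_zero]))
    · rw [if_neg h, add_zero] at h2
      refine ⟨0, ?_, ?_⟩
      · rw [mul_zero, sub_zero, h2]
        split_ifs
        · exact Dvd.intro _ rfl
        · exact dvd_zero _
      · rw [map_zero, zero_div]
        exact Submodule.zero_mem _
  choose c hc1 hc2 using hc
  have hrel : ∀ i, algebraMap A K (g i) * (algebraMap A K (c i) / algebraMap A K (u i)) -
      algebraMap A K p ∈ LI (Ideal.span {F}) (u i) := by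
    intro i
    have hne : algebraMap A K (u i) ≠ 0 := fun h => hu0 i (amap_inj (by rw [h, map_zero]))
    refine ⟨1, g i * c i - u i * p, ?_, ?_⟩
    · rw [Ideal.mem_span_singleton]
      have := (hc1 i).neg_right
      rwa [neg_sub] at this
    · rw [map_sub, map_mul, map_mul]
      field_simp
  have htop : ∀ i, algebraMap A K (c i) / algebraMap A K (u i) ∈ LI ⊤ (u i) := by
    intro i
    have hne : algebraMap A K (u i) ≠ 0 := fun h => hu0 i (amap_inj (by rw [h, map_zero]))
    refine ⟨1, c i, Submodule.mem_top, ?_⟩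
    field_simp
  refine ⟨fun i => algebraMap A K (c i) / algebraMap A K (u i),
    ⟨fun i => ⟨htop i, hc2 i⟩, fun i j => ?_⟩, hrel⟩
  rw [pow_one]
  refine LI_cancel D.F_prime (not_dvd_g D i) (not_dvd_uu D i j) ?_ ?_
  · refine Submodule.sub_mem _ (LI_mul_right _ (htop i)) ?_
    exact LI_top_mul (D.mem 1 le_rfl i j) (LI_mul_left _ (htop j))
  · have e : algebraMap A K (g i) * (algebraMap A K (c i) / algebraMap A K (u i) -
        a 1 i j * (algebraMap A K (c j) / algebraMap A K (u j))) =
        (algebraMap A K (g i) * (algebraMap A K (c i) / algebraMap A K (u i)) -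
          algebraMap A K p) -
        (algebraMap A K (g j) * (algebraMap A K (c j) / algebraMap A K (u j)) -
          algebraMap A K p) -
        (algebraMap A K (g i) * a 1 i j - algebraMap A K (g j)) *
          (algebraMap A K (c j) / algebraMap A K (u j)) := by ring
    rw [e]
    exact Submodule.sub_mem _ (Submodule.sub_mem _ (LI_mul_right _ (hrel i))
      (LI_mul_left _ (hrel j))) (LI_top_mul (D.gen 1 le_rfl i j) (LI_mul_left _ (htop j)))

theorem nul_iff (D : Dat d F P u g del gam a) (t : ℤ) (s : Fin 3 → K)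
    (hs : s ∈ Sec F u gam a 1 t) (p : A)
    (hrel : ∀ i, algebraMap A K (g i) * s i - algebraMap A K p ∈ LI (Ideal.span {F}) (u i)) :
    s ∈ Nul (Ideal.span {F ^ 1}) u ↔ p ∈ Ideal.span {F} := by
  rw [pow_one]
  constructor
  · intro h
    have h1 : algebraMap A K p ∈ LI (Ideal.span {F}) (u 0) := by
      have h2 := Submodule.sub_mem _ (LI_smul (g 0) (h 0)) (hrel 0)
      rwa [sub_sub_cancel] at h2
    obtain ⟨n, q, hq, hx⟩ := h1
    have h2 : u 0 ^ n * p = q := by
      apply amap_inj
      rw [map_mul, map_pow, hx]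
    rw [Ideal.mem_span_singleton] at hq ⊢
    rw [← h2] at hq
    exact (D.F_prime.dvd_or_dvd hq).resolve_left fun h =>
      not_dvd_u D 0 (D.F_prime.dvd_of_dvd_pow h)
  · intro h i
    refine LI_cancel D.F_prime (not_dvd_g D i) (not_dvd_u D i) (hs.1 i).1 ?_
    have h2 := Submodule.add_mem _ (hrel i) (LI_of (s := u i) h)
    rwa [sub_add_cancel] at h2

end data

/-! ### Dimensions -/

/-- the forms of degree `n` in `I` -/
noncomputable abbrev IW (I : Ideal A) (n : ℕ) : Submodule ℂ A :=
  I.restrictScalars ℂ ⊓ homogeneousSubmodule (Fin 5) ℂ n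

instance finW (n : ℕ) : Module.Finite ℂ (homogeneousSubmodule (Fin 5) ℂ n) :=
  Module.Finite.iff_fg.mpr (homogeneousSubmodule_fg _ _ n)

instance finIW (I : Ideal A) (n : ℕ) : Module.Finite ℂ (IW I n) :=
  Submodule.finiteDimensional_inf_right _ _

theorem hI_nonneg (I : Ideal A) {t : ℤ} (ht : 0 ≤ t) : hI I t = finrank ℂ (IW I t.toNat) := by
  unfold hI
  rw [if_pos ht]

theorem hI_neg (I : Ideal A) {t : ℤ} (ht : t < 0) : hI I t = 0 := by
  unfold hI
  rw [if_neg (not_le.mpr ht)]

theorem IW_span {d : ℕ} {F : A} (hF : F.IsHomogeneous d) (n : ℕ) :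
    (d ≤ n → IW (Ideal.span {F}) n =
      (homogeneousSubmodule (Fin 5) ℂ (n - d)).map (LinearMap.mulLeft ℂ F)) ∧
    (n < d → IW (Ideal.span {F}) n = ⊥) := by
  constructor
  · intro h
    ext x
    rw [Submodule.mem_map]
    constructor
    · rintro ⟨hx1, hx2⟩
      obtain ⟨c, rfl⟩ := Ideal.mem_span_singleton.mp hx1
      refine ⟨homogeneousComponent (n - d) c, homogeneousComponent_isHomogeneous _ c, ?_⟩
      rw [LinearMap.mulLeft_apply]
      have h1 := comp_mul hF c n
      rw [if_pos h, homogeneousComponent_eq_self hx2] at h1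
      exact h1.symm
    · rintro ⟨c, hc, rfl⟩
      rw [LinearMap.mulLeft_apply]
      refine ⟨Ideal.mem_span_singleton.mpr (Dvd.intro _ rfl), ?_⟩
      have h1 := hF.mul (show c.IsHomogeneous (n - d) from hc)
      rw [Nat.add_sub_cancel' h] at h1
      exact h1
  · intro h
    rw [eq_bot_iff]
    rintro x ⟨hx1, hx2⟩
    obtain ⟨c, rfl⟩ := Ideal.mem_span_singleton.mp hx1
    have h1 := comp_mul hF c n
    rw [if_neg (not_le.mpr h), homogeneousComponent_eq_self hx2] at h1
    rw [Submodule.mem_bot]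
    exact h1

theorem hI_span {d : ℕ} {F : A} (hF : F.IsHomogeneous d) (hF0 : F ≠ 0) {t : ℤ} (ht : 0 ≤ t) :
    finrank ℂ (IW (Ideal.span {F}) t.toNat) = hI ⊤ (t - d) := by
  rcases le_or_gt d t.toNat with h | h
  · rw [(IW_span hF _).1 h, hI_nonneg _ (show (0 : ℤ) ≤ t - d by omega)]
    have h1 : (t - d).toNat = t.toNat - d := by omega
    have h2 : IW ⊤ (t - d).toNat = homogeneousSubmodule (Fin 5) ℂ (t.toNat - d) := by
      rw [h1]
      show (⊤ : Ideal A).restrictScalars ℂ ⊓ _ = _
      rw [Submodule.restrictScalars_top, top_inf_eq]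
    rw [h2]
    have h3 : Function.Injective (LinearMap.mulLeft ℂ F) := fun x y hxy =>
      mul_left_cancel₀ hF0 hxy
    exact (Submodule.equivMapOfInjective _ h3 _).finrank_eq.symm
  · rw [(IW_span hF _).2 h, hI_neg _ (show t - d < 0 by omega), finrank_bot]

end V1Aux

open V1Aux

theorem t_V1 (h1 : S_CH0) (h2 : S_LINREL) (h3 : S_HNUM) : S_V1 := by
  intro d F P u g del gam a D t
  have hF0 : F ≠ 0 := D.F_prime.ne_zero
  set N := Nul (Ideal.span {F ^ 1}) u with hN
  -- the map from the sections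
  set ψ : Sec F u gam a 1 t →ₗ[ℂ] ((Fin 3 → K) ⧸ N) := N.mkQ ∘ₗ (Sec F u gam a 1 t).subtype with hψ
  have hrange : LinearMap.range ψ = VV F u gam a 1 t := by
    rw [hψ, LinearMap.range_comp, Submodule.range_subtype]
    rfl
  have hker : ∀ s : Sec F u gam a 1 t, s ∈ LinearMap.ker ψ ↔ (s : Fin 3 → K) ∈ N := by
    intro s
    rw [LinearMap.mem_ker, hψ, LinearMap.comp_apply, Submodule.subtype_apply,
      Submodule.mkQ_apply, Submodule.Quotient.mk_eq_zero]
  rcases lt_or_ge t 0 with ht | ht
  · have hbot : VV F u gam a 1 t = ⊥ := by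
      rw [← hrange, LinearMap.range_eq_bot]
      refine LinearMap.ext fun s => ?_
      rw [LinearMap.zero_apply, ← LinearMap.mem_ker, hker]
      obtain ⟨c, _, hc, _, hrel⟩ := sec_to_form h1 D t s s.2
      rw [nul_iff D t s s.2 c hrel, hc ht]
      exact Ideal.zero_mem _
    rw [hbot, hI_neg _ ht, hI_neg _ (show t - d < 0 by omega), finrank_bot]
    exact ⟨inferInstance, rfl⟩
  · -- the relation
    let Y : Submodule ℂ A := IW P t.toNat
    let Γ : Submodule ℂ (Sec F u gam a 1 t × Y) :=
      { carrier := {z | ∀ i, algebraMap A K (g i) * (z.1 : Fin 3 → K) i -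
          algebraMap A K (z.2 : A) ∈ LI (Ideal.span {F}) (u i)}
        zero_mem' := fun i => by simp
        add_mem' := by
          intro z w hz hw i
          have e : algebraMap A K (g i) * ((z + w).1 : Fin 3 → K) i -
              algebraMap A K ((z + w).2 : A) =
              (algebraMap A K (g i) * (z.1 : Fin 3 → K) i - algebraMap A K (z.2 : A)) +
                (algebraMap A K (g i) * (w.1 : Fin 3 → K) i - algebraMap A K (w.2 : A)) := by
            simp only [Prod.fst_add, Prod.snd_add, Submodule.coe_add, Pi.add_apply, map_add]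
            ring
          rw [e]
          exact Submodule.add_mem _ (hz i) (hw i)
        smul_mem' := by
          intro c z hz i
          have e : algebraMap A K (g i) * ((c • z).1 : Fin 3 → K) i -
              algebraMap A K ((c • z).2 : A) =
              algebraMap A K (C c) *
                (algebraMap A K (g i) * (z.1 : Fin 3 → K) i - algebraMap A K (z.2 : A)) := by
            simp only [Prod.smul_fst, Prod.smul_snd, SetLike.val_smul, Pi.smul_apply,
              MvPolynomial.smul_eq_C_mul, map_mul]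
            rw [Algebra.smul_def, IsScalarTower.algebraMap_apply ℂ A K c,
              MvPolynomial.algebraMap_eq]
            ring
          rw [e]
          exact LI_smul _ (hz i) }
    let Γ' : Submodule ℂ (Y × Sec F u gam a 1 t) :=
      Γ.comap (LinearEquiv.prodComm ℂ Y (Sec F u gam a 1 t)).toLinearMap
    have hΓ : ∀ s p, (s, p) ∈ Γ ↔ ∀ i, algebraMap A K (g i) * (s : Fin 3 → K) i -
        algebraMap A K (p : A) ∈ LI (Ideal.span {F}) (u i) := fun s p => Iff.rfl
    have hΓ' : ∀ s p, (p, s) ∈ Γ' ↔ (s, p) ∈ Γ := fun s p => Iff.rfl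
    let Y₀ : Submodule ℂ Y := ((Ideal.span {F}).restrictScalars ℂ).comap Y.subtype
    have hY₀ : ∀ p : Y, p ∈ Y₀ ↔ (p : A) ∈ Ideal.span {F} := fun p => Iff.rfl
    have hex : ∀ s, ∃ p, (s, p) ∈ Γ := by
      intro s
      obtain ⟨c, hc1, _, hcP, hrel⟩ := sec_to_form h1 D t s s.2
      exact ⟨⟨c, hcP, hc1 ht⟩, hrel⟩
    have hex' : ∀ p, ∃ s, (p, s) ∈ Γ' := by
      intro p
      obtain ⟨s, hs, hrel⟩ := form_to_sec D t ht p p.2.2 p.2.1
      exact ⟨⟨s, hs⟩, hrel⟩
    have hiff : ∀ s p, (s, p) ∈ Γ → (s ∈ LinearMap.ker ψ ↔ p ∈ Y₀) := by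
      intro s p hsp
      rw [hker, hY₀]
      exact nul_iff D t s s.2 p hsp
    have hYfin : Module.Finite ℂ Y := finIW P t.toNat
    obtain ⟨f1, f2⟩ := h2 _ _ Γ (LinearMap.ker ψ) Y₀ hex
      (fun s p hsp hp => (hiff s p hsp).mpr hp) inferInstance
    obtain ⟨_, f4⟩ := h2 _ _ Γ' Y₀ (LinearMap.ker ψ) hex'
      (fun p s hsp hs => (hiff s p hsp).mp hs) f1
    have heq := le_antisymm f2 f4
    have e1 := ψ.quotKerEquivRange
    have hfin : Module.Finite ℂ (LinearMap.range ψ) := Module.Finite.equiv e1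
    rw [hrange] at hfin e1
    refine ⟨hfin, ?_⟩
    rw [← e1.finrank_eq, heq, hI_nonneg P ht, ← hI_span D.F_hom hF0 ht]
    have e2 : finrank ℂ Y₀ = finrank ℂ (IW (Ideal.span {F}) t.toNat) := by
      have e3 : Y₀.map Y.subtype = IW (Ideal.span {F}) t.toNat := by
        ext x
        rw [Submodule.mem_map]
        constructor
        · rintro ⟨y, hy, rfl⟩
          exact ⟨hy, y.2.2⟩
        · rintro ⟨hx1, hx2⟩
          have hxP : x ∈ P := P.mem_of_dvd (Ideal.mem_span_singleton.mp hx1) D.F_mem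
          exact ⟨⟨x, hxP, hx2⟩, hx1, rfl⟩
      rw [← e3]
      exact (Submodule.equivMapOfInjective _ Y.injective_subtype _).finrank_eq
    rw [← e2]
    exact Submodule.finrank_quotient_add_finrank Y₀

end Pool.Agent.NOD.L3
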