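import Pool.Agent.NOD.L3.LEF3
import Pool.Agent.NOD.L3.ARK
import Pool.Agent.NOD.L3.BPD
import Pool.Agent.NOD.L3.CH0
import Pool.Agent.NOD.L3.CH1
import Pool.Agent.NOD.L3.CHG
import Pool.Agent.NOD.L3.DIMA
import Pool.Agent.NOD.L3.DIV1
import Pool.Agent.NOD.L3.DIVQ
import Pool.Agent.NOD.L3.GEN
import Pool.Agent.NOD.L3.HBQ
import Pool.Agent.NOD.L3.HCI
import Pool.Agent.NOD.L3.HNUM
import Pool.Agent.NOD.L3.KER
import Pool.Agent.NOD.L3.LB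
import Pool.Agent.NOD.L3.LIFT
import Pool.Agent.NOD.L3.LIM
import Pool.Agent.NOD.L3.LINREL
import Pool.Agent.NOD.L3.MONO
import Pool.Agent.NOD.L3.NUMEX
import Pool.Agent.NOD.L3.OBS
import Pool.Agent.NOD.L3.RANK1
import Pool.Agent.NOD.L3.STEP
import Pool.Agent.NOD.L3.TF
import Pool.Agent.NOD.L3.UPLOW
import Pool.Agent.NOD.L3.V1

/-!
NOD, S3: the section theorem, up to one numerical lemma.
-/

set_option autoImplicit false

namespace Pool.Agent.NOD.L3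

theorem t_LEFb (hNF : S_NF) (hPOW : S_POW) (hNN : S_NUMEND) : S_LEF := by
  have hHN := t_HNUM
  have hLR := t_LINREL
  have hCHG := t_CHG hHN
  have hCH0 := t_CH0 hCHG hPOW
  have hCH1 := t_CH1 hHN hPOW
  have hV1 := t_V1 hCH0 hLR hHN
  have hBPD := t_BPD hCHG hPOW hLR
  have hOBS := t_OBS hCH1
  have hLIFT := t_LIFT hHN
  have hST := t_STEP hV1 hBPD hOBS hLIFT t_KER hLR
  have hUP := t_UPLOW hV1 hST
  have hLIM := t_LIM hV1 hBPD hOBS hLIFT t_KER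
  have hR1 := t_RANK1 hUP hLIM t_DIMA t_TF
  have hGEN := t_GEN hLIM t_TF (t_DIVQ (t_DIV1 t_ARK) hHN) hR1
  exact Z21.t_LEF hNF hCH0 hUP hLIM hGEN hBPD t_DIMA t_HCI (t_HBQ t_HCI t_DIMA) t_MONO t_LB t_NUMEX hNN

end Pool.Agent.NOD.L3
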