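import Pool.Agent.NOD.StmL
import Pool.Agent.NOD.S1.Basic

set_option autoImplicit false

namespace Pool.Agent.NOD.L3

open MvPolynomial

namespace LBx

instance fin (n : ℕ) : Module.Finite ℂ (homogeneousSubmodule (Fin 5) ℂ n) :=
  Module.Finite.iff_fg.2 (homogeneousSubmodule_fg (Fin 5) ℂ n)

/-- The part of degree `t` of an ideal. -/
noncomputable def dg (I : Ideal A) (t : ℕ) : Submodule ℂ A :=
  I.restrictScalars ℂ ⊓ homogeneousSubmodule (Fin 5) ℂ t

theorem mem_dg {I : Ideal A} {t : ℕ} {x : A} : x ∈ dg I t ↔ x ∈ I ∧ x.IsHomogeneous t := by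
  simp [dg, Submodule.mem_inf, mem_homogeneousSubmodule]

instance finDg (I : Ideal A) (t : ℕ) : Module.Finite ℂ (dg I t) :=
  Submodule.finiteDimensional_of_le (inf_le_right : dg I t ≤ homogeneousSubmodule (Fin 5) ℂ t)

noncomputable def hd (I : Ideal A) (t : ℕ) : ℕ := Module.finrank ℂ (dg I t)

theorem hI_nat (I : Ideal A) (t : ℕ) : hI I (t : ℤ) = hd I t := by
  simp only [hI, hd, dg, Nat.cast_nonneg, if_true, Int.toNat_natCast]
  rfl

theorem dg_mono {I J : Ideal A} (h : I ≤ J) (t : ℕ) : dg I t ≤ dg J t := by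
  intro x hx
  rw [mem_dg] at hx ⊢
  exact ⟨h hx.1, hx.2⟩

theorem hd_mono {I J : Ideal A} (h : I ≤ J) (t : ℕ) : hd I t ≤ hd J t :=
  Submodule.finrank_mono (dg_mono h t)

/-- The colon ideal. -/
noncomputable def col (I : Ideal A) (p : A) : Ideal A := Submodule.comap (LinearMap.mulLeft A p) I

theorem mem_col {I : Ideal A} {p x : A} : x ∈ col I p ↔ p * x ∈ I := by
  simp [col]

/-- The basic inequality. -/
theorem basic (I Q : Ideal A) (p : A) (n t : ℕ) (hp : p.IsHomogeneous n) (hp0 : p ≠ 0)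
    (hIQ : I ≤ Q) (hpQ : p ∈ Q) :
    hd I (t + n) + hd ⊤ t ≤ hd Q (t + n) + hd (col I p) t := by
  classical
  let f : A →ₗ[ℂ] A := LinearMap.mulLeft ℂ p
  have hf : Function.Injective f := fun x y h => mul_left_cancel₀ hp0 h
  have h1 := Submodule.finrank_sup_add_finrank_inf_eq (dg I (t + n)) ((dg ⊤ t).map f)
  have h2 : Module.finrank ℂ ((dg ⊤ t).map f) = hd ⊤ t :=
    (LinearEquiv.finrank_eq (Submodule.equivMapOfInjective f hf _)).symm
  have h3 : Module.finrank ℂ (dg I (t + n) ⊔ (dg ⊤ t).map f : Submodule ℂ A) ≤ hd Q (t + n) := by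
    apply Submodule.finrank_mono
    apply sup_le
    · exact dg_mono hIQ _
    · rintro x ⟨y, hy, rfl⟩
      rw [SetLike.mem_coe, mem_dg] at hy
      rw [mem_dg]
      refine ⟨Q.mul_mem_right _ hpQ, ?_⟩
      have := hp.mul hy.2
      rwa [add_comm] at this
  have h4 : Module.finrank ℂ (dg I (t + n) ⊓ (dg ⊤ t).map f : Submodule ℂ A) ≤
      hd (col I p) t := by
    have e : (dg I (t + n) ⊓ (dg ⊤ t).map f : Submodule ℂ A) ≤ (dg (col I p) t).map f := by
      rintro x ⟨hx, y, hy, rfl⟩
      rw [SetLike.mem_coe, mem_dg] at hx hy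
      exact ⟨y, mem_dg.2 ⟨mem_col.2 hx.1, hy.2⟩, rfl⟩
    refine (Submodule.finrank_mono e).trans ?_
    exact Submodule.finrank_map_le f _
  unfold hd at *
  omega

/-- Division by a power of the linear form. -/
theorem divide (I : Ideal A) (y : A) (hI : HomId I) (hy : y.IsHomogeneous 1) (hz : NZD I y) :
    ∀ (n : ℕ) (p : A), p.IsHomogeneous n → p ∉ I →
      ∃ p' : A, (∃ m, p'.IsHomogeneous m) ∧ p' ∉ I ⊔ Ideal.span {y} ∧ col I p = col I p' := by
  intro n
  induction n using Nat.strong_induction_on with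
  | _ n ih =>
    intro p hp hpI
    by_cases h : p ∈ I ⊔ Ideal.span {y}
    · rcases hom_mem_sup hI hy hp h with ⟨_, h1⟩ | ⟨hn, x, hx, i, hi, e⟩
      · exact absurd h1 hpI
      · have hxI : x ∉ I := by
          intro hxI
          apply hpI
          rw [e]
          exact I.add_mem (I.mul_mem_left _ hxI) hi
        obtain ⟨p', h1, h2, h3⟩ := ih (n - 1) (by omega) x hx hxI
        refine ⟨p', h1, h2, ?_⟩
        rw [← h3]
        ext z
        rw [mem_col, mem_col, e]
        constructor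
        · intro h4
          apply hz
          have h5 := I.sub_mem h4 (I.mul_mem_right z hi)
          have h6 : (y * x + i) * z - i * z = y * (x * z) := by ring
          rwa [h6] at h5
        · intro h4
          have h5 := I.add_mem (I.mul_mem_left y h4) (I.mul_mem_right z hi)
          have h6 : (y * x + i) * z = y * (x * z) + i * z := by ring
          rwa [h6]
    · exact ⟨p, ⟨n, hp⟩, h, rfl⟩

/-- The step. -/
theorem step (I : Ideal A) (y : A) (hI : HomId I) (hy : y.IsHomogeneous 1) (hy0 : y ≠ 0)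
    (hz : NZD I y) (c : ℕ → ℕ)
    (H : ∀ (n : ℕ) (p : A), p.IsHomogeneous n → p ∉ I ⊔ Ideal.span {y} →
      ∀ s, hd (col (I ⊔ Ideal.span {y}) p) s + c s ≤ hd ⊤ s) :
    ∀ (n : ℕ) (p : A), p.IsHomogeneous n → p ∉ I →
      ∀ s, hd (col I p) s + ∑ i ∈ Finset.range (s + 1), c i ≤ hd ⊤ s := by
  intro n p hp hpI s
  obtain ⟨p', ⟨m, hm⟩, h2, h3⟩ := divide I y hI hy hz n p hp hpI
  rw [h3]
  have HQ := H m p' hm h2
  have hJQ : col I p' ≤ col (I ⊔ Ideal.span {y}) p' := by
    intro z hz
    rw [mem_col] at hz ⊢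
    exact Ideal.mem_sup_left hz
  have hyQ : y ∈ col (I ⊔ Ideal.span {y}) p' := by
    rw [mem_col]
    exact Ideal.mul_mem_left _ _ (Ideal.mem_sup_right (Ideal.mem_span_singleton_self y))
  have hcol : col (col I p') y = col I p' := by
    ext z
    rw [mem_col, mem_col, mem_col]
    constructor
    · intro h
      apply hz
      have e : y * (p' * z) = p' * (y * z) := by ring
      rwa [e]
    · intro h
      have e : p' * (y * z) = y * (p' * z) := by ring
      rw [e]
      exact I.mul_mem_left _ h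
  induction s with
  | zero =>
    have h4 := hd_mono hJQ 0
    have h5 := HQ 0
    simp only [zero_add, Finset.sum_range_one]
    omega
  | succ s ih =>
    have h4 := basic (col I p') (col (I ⊔ Ideal.span {y}) p') y 1 s hy hy0 hJQ hyQ
    rw [hcol] at h4
    have h5 := HQ (s + 1)
    rw [Finset.sum_range_succ]
    omega

/-- The beginning. -/
theorem base (I : Ideal A) (p : A) (hp : p ∉ I) (s : ℕ) :
    hd (col I p) s + (if s = 0 then 1 else 0) ≤ hd ⊤ s := by
  split_ifs with h
  · subst h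
    have h1 : dg (col I p) 0 < dg ⊤ 0 := by
      refine lt_of_le_of_ne (dg_mono le_top 0) ?_
      intro e
      have h2 : (1 : A) ∈ dg (⊤ : Ideal A) 0 :=
        mem_dg.2 ⟨Submodule.mem_top, isHomogeneous_one _ _⟩
      rw [← e, mem_dg, mem_col, mul_one] at h2
      exact hp h2.1
    exact Submodule.finrank_lt_finrank_of_lt h1
  · exact hd_mono le_top s

theorem sum1 (s : ℕ) : ∑ i ∈ Finset.range (s + 1), (if i = 0 then 1 else 0) = 1 := by
  simp

theorem sum2 (s : ℕ) :
    ∑ i ∈ Finset.range (s + 1), ∑ j ∈ Finset.range (i + 1), (if j = 0 then 1 else 0) = s + 1 := by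
  simp only [sum1]
  simp

theorem sum3 (s : ℕ) :
    ∑ k ∈ Finset.range (s + 1), ∑ i ∈ Finset.range (k + 1), ∑ j ∈ Finset.range (i + 1),
      (if j = 0 then 1 else 0) = (s + 2).choose 2 := by
  simp only [sum2]
  induction s with
  | zero => simp
  | succ s ih =>
    rw [Finset.sum_range_succ, ih, Nat.choose_succ_succ' (s + 2) 1]
    simp
    omega

end LBx

open LBx in
theorem t_LB : S_LB := by
  intro F G p y d e n₀ P hF hG hp hy hreg hP hFP hGP hpP hpn t ht
  classical
  have hy0 : ∀ i, y i ≠ 0 := by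
    intro i h0
    have h := hreg ∅ i.succ.succ (by simp)
    have e : (![F, G, y 0, y 1, y 2] : Fin 5 → A) i.succ.succ = 0 := by
      fin_cases i <;> exact h0
    rw [e] at h
    have h1 := h 1 (by rw [zero_mul]; exact Ideal.zero_mem _)
    simp at h1
  have n0 : NZD (Ideal.span {F, G}) (y 0) := by
    have h := hreg {0, 1} 2 (by decide)
    simpa [Set.image_insert_eq] using h
  have n1 : NZD (Ideal.span {F, G} ⊔ Ideal.span {y 0}) (y 1) := by
    have h := hreg {0, 1, 2} 3 (by decide)
    have e : Ideal.span {F, G} ⊔ Ideal.span {y 0} = Ideal.span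
        ((![F, G, y 0, y 1, y 2] : Fin 5 → A) '' ((({0, 1, 2} : Finset (Fin 5))) : Set (Fin 5))) := by
      rw [← Ideal.span_union]
      congr 1
      simp only [Finset.coe_insert, Finset.coe_singleton, Set.image_insert_eq, Set.image_singleton]
      ext x
      simp
      tauto
    rw [e]
    exact h
  have n2 : NZD (Ideal.span {F, G} ⊔ Ideal.span {y 0} ⊔ Ideal.span {y 1}) (y 2) := by
    have h := hreg {0, 1, 2, 3} 4 (by decide)
    have e : Ideal.span {F, G} ⊔ Ideal.span {y 0} ⊔ Ideal.span {y 1} = Ideal.span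
        ((![F, G, y 0, y 1, y 2] : Fin 5 → A) '' ((({0, 1, 2, 3} : Finset (Fin 5))) : Set (Fin 5))) := by
      rw [← Ideal.span_union, ← Ideal.span_union]
      congr 1
      simp only [Finset.coe_insert, Finset.coe_singleton, Set.image_insert_eq, Set.image_singleton]
      ext x
      simp
      tauto
    rw [e]
    exact h
  have h0 : HomId (Ideal.span {F, G}) := homId_span (by
    rintro _ (rfl | rfl)
    · exact ⟨d, hF⟩
    · exact ⟨e, hG⟩)
  have h1 := h0.sup (homId_singleton (hy 0))
  have h2 := h1.sup (homId_singleton (hy 1))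
  have key := step _ _ h0 (hy 0) (hy0 0) n0 _
    (step _ _ h1 (hy 1) (hy0 1) n1 _
      (step _ _ h2 (hy 2) (hy0 2) n2 (fun s => if s = 0 then 1 else 0)
        (fun n p _ hp s => base _ p hp s))) n₀ p hp hpn (t - n₀)
  rw [sum3] at key
  have hp0 : p ≠ 0 := by
    rintro rfl
    exact hpn (Ideal.zero_mem _)
  have hle : Ideal.span {F, G} ≤ P := by
    rw [Ideal.span_le]
    rintro _ (rfl | rfl)
    · exact hFP
    · exact hGP
  have h5 := basic (Ideal.span {F, G}) P p n₀ (t - n₀) hp hp0 hle hpP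
  rw [Nat.sub_add_cancel ht] at h5
  rw [hI_nat, hI_nat]
  omega

end Pool.Agent.NOD.L3
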