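import Pool.Agent.NOD.L3.Bas

/-!
The section theorem S3 from its pieces.
-/

set_option autoImplicit false

namespace Pool.Agent.NOD.L3.Z21

open MvPolynomial

section

variable {d : ℕ} {F : A} {P : Ideal A} {u g : Fin 3 → A} {del gam : Fin 3 → ℕ}
  {a : ℕ → Fin 3 → Fin 3 → K}

theorem not_dvd_u (D : Dat d F P u g del gam a) (i : Fin 3) : ¬ F ∣ u i := by
  rintro ⟨c, hc⟩
  exact D.u_not i (hc ▸ Ideal.mul_mem_right _ _ D.F_mem)

theorem P_ne (D : Dat d F P u g del gam a) : P ≠ Ideal.span {F} := by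
  intro h
  have h1 : P.height ≤ 1 := by
    rw [h]
    have hpr : (Ideal.span {F} : Ideal A).IsPrime := h ▸ D.P_prime
    exact Ideal.height_le_one_of_isPrincipal_of_mem_minimalPrimes _ _
      ⟨⟨hpr, le_rfl⟩, fun J hJ _ => hJ.2⟩
  rw [D.P_ht] at h1
  exact absurd h1 (by decide)

theorem not_dvd_g (D : Dat d F P u g del gam a) (i : Fin 3) : ¬ F ∣ g i := by
  intro h
  apply P_ne D
  refine le_antisymm (fun p hp => ?_) ((Ideal.span_singleton_le_iff_mem _).2 D.F_mem)
  have h1 := D.loc i p hp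
  have h2 : Ideal.span {F, g i} ≤ Ideal.span {F} := by
    rw [Ideal.span_le]
    rintro x (rfl | rfl)
    · exact Ideal.mem_span_singleton_self _
    · exact Ideal.mem_span_singleton.2 h
  rcases D.F_prime.dvd_or_dvd (Ideal.mem_span_singleton.1 (h2 h1)) with h3 | h3
  · exact absurd h3 (not_dvd_u D i)
  · exact Ideal.mem_span_singleton.2 h3

/-- Cancelling a factor not divisible by `F`. -/
theorem cancel (D : Dat d F P u g del gam a) {c v : A} {x : K} (k : ℕ) (hc : ¬ F ∣ c)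
    (hv : ¬ F ∣ v) (hx : x ∈ LI ⊤ v) (h : algebraMap A K c * x ∈ LI (Ideal.span {F ^ k}) v) :
    x ∈ LI (Ideal.span {F ^ k}) v := by
  obtain ⟨n, p, -, hp⟩ := hx
  obtain ⟨m, q, hq, hq2⟩ := h
  have h1 : c * v ^ m * p = v ^ n * q := by
    apply IsFractionRing.injective A K
    rw [map_mul, map_mul, map_mul, map_pow, map_pow, ← hp, ← hq2]
    ring
  have h2 : F ^ k ∣ c * v ^ m * p := by
    rw [h1]
    exact Dvd.dvd.mul_left (Ideal.mem_span_singleton.1 hq) _
  have h3 : ¬ F ∣ c * v ^ m := by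
    intro h4
    rcases D.F_prime.dvd_or_dvd h4 with h5 | h5
    · exact hc h5
    · exact hv (D.F_prime.dvd_of_dvd_pow h5)
  have h4 : F ^ k ∣ p := D.F_prime.pow_dvd_of_dvd_mul_left k h3 h2
  exact ⟨n, p, Ideal.mem_span_singleton.2 h4, hp⟩

theorem not_dvd_mul (D : Dat d F P u g del gam a) {v w : A} (hv : ¬ F ∣ v) (hw : ¬ F ∣ w) :
    ¬ F ∣ v * w := fun h => (D.F_prime.dvd_or_dvd h).elim hv hw

/-- Division by `F` in the limit module. -/
theorem divF (D : Dat d F P u g del gam a) {t : ℤ} {s : ℕ → Fin 3 → K} (hs : InM F u gam a t s)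
    (h1 : ∀ i, s 1 i ∈ LI (Ideal.span {F ^ 1}) (u i)) :
    ∃ s', InM F u gam a (t - d) s' ∧ ∀ k i, s (k + 1) i = algebraMap A K F * s' k i := by
  have hF0 : algebraMap A K F ≠ 0 := by
    intro h
    exact D.F_prime.ne_zero ((map_eq_zero_iff _ (IsFractionRing.injective A K)).1 h)
  -- all levels are divisible by `F`
  have hall : ∀ k, 1 ≤ k → ∀ i, s k i ∈ LI (Ideal.span {F}) (u i) := by
    intro k hk
    induction k, hk using Nat.le_induction with
    | base =>
      intro i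
      have := h1 i
      rwa [pow_one] at this
    | succ k hk ih =>
      intro i
      have h2 := Submodule.add_mem _ (LI_mono (Ideal.span_singleton_le_span_singleton.2
        (dvd_pow_self F (by omega : k ≠ 0))) _ (hs.comp k hk i)) (ih i)
      rwa [sub_add_cancel] at h2
  have hdiv : ∀ (v : A) (k : ℕ) (x : K), algebraMap A K F * x ∈ LI (Ideal.span {F ^ (k + 1)}) v →
      x ∈ LI (Ideal.span {F ^ k}) v := by
    rintro v k x ⟨n, p, hp, hx⟩
    obtain ⟨q, rfl⟩ := Ideal.mem_span_singleton.1 hp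
    refine ⟨n, F ^ k * q, Ideal.mul_mem_right _ _ (Ideal.mem_span_singleton_self _), ?_⟩
    apply mul_left_cancel₀ hF0
    rw [← map_mul, ← mul_assoc F, ← pow_succ', ← hx]
    ring
  have hdiv0 : ∀ (v : A) (x : K), algebraMap A K F * x ∈ LI (Ideal.span {F}) v → x ∈ LI ⊤ v := by
    intro v x hx
    have h2 := hdiv v 0 x (by rwa [zero_add, pow_one])
    exact LI_mono le_top _ h2
  obtain ⟨s', hs'⟩ : ∃ s' : ℕ → Fin 3 → K, ∀ k i, s (k + 1) i = algebraMap A K F * s' k i :=
    ⟨fun k i => (algebraMap A K F)⁻¹ * s (k + 1) i, fun k i => by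
      rw [← mul_assoc, mul_inv_cancel₀ hF0, one_mul]⟩
  refine ⟨s', ⟨fun k hk => ⟨fun i => ⟨?_, ?_⟩, fun i j => ?_⟩, fun k hk i => ?_⟩, hs'⟩
  · apply hdiv0
    rw [← hs']
    exact hall _ (by omega) i
  · have h2 := ((hs.sec (k + 1) (by omega)).1 i).2
    rw [hs'] at h2
    obtain ⟨n, m, p, q, hp, hq, hq0, h3, h4⟩ := h2
    refine ⟨n, m + d, p, q * F, hp, hq.mul D.F_hom, mul_ne_zero hq0 D.F_prime.ne_zero, ?_, ?_⟩
    · push_cast
      omega
    · rw [map_mul, ← h4]
      ring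
  · apply hdiv
    have e : algebraMap A K F * (s' k i - a k i j * s' k j) =
        (s (k + 1) i - a (k + 1) i j * s (k + 1) j) + (a (k + 1) i j - a k i j) * s (k + 1) j := by
      rw [hs', hs']
      ring
    rw [e]
    refine Submodule.add_mem _ ((hs.sec (k + 1) (by omega)).2 i j) ?_
    obtain ⟨n, p, hp, hx⟩ := D.comp k hk i j
    obtain ⟨m, q, hq, hy⟩ := hall (k + 1) (by omega) j
    obtain ⟨p', rfl⟩ := Ideal.mem_span_singleton.1 hp
    obtain ⟨q', rfl⟩ := Ideal.mem_span_singleton.1 hq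
    refine ⟨n + m, F ^ (k + 1) * (p' * q' * u i ^ m), Ideal.mul_mem_right _ _
      (Ideal.mem_span_singleton_self _), ?_⟩
    have e2 : algebraMap A K (F ^ (k + 1) * (p' * q' * u i ^ m)) =
        algebraMap A K (F ^ k * p') * algebraMap A K (F * q') * algebraMap A K (u i) ^ m := by
      rw [← map_pow, ← map_mul, ← map_mul]
      congr 1
      ring
    rw [e2, ← hx, ← hy, map_mul]
    ring
  · apply hdiv
    rw [mul_sub, ← hs', ← hs']
    exact hs.comp (k + 1) (by omega) i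

end

end Pool.Agent.NOD.L3.Z21
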