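import Pool.Agent.NOD.L3.LEF

/-!
The section theorem S3 from its pieces, second part.
-/

set_option autoImplicit false

namespace Pool.Agent.NOD.L3.Z21

open MvPolynomial

theorem LI_mul_left {I : Ideal A} {v : A} (w : A) {x : K} (h : x ∈ LI I v) : x ∈ LI I (w * v) := by
  obtain ⟨n, p, hp, hx⟩ := h
  refine ⟨n, w ^ n * p, Ideal.mul_mem_left _ _ hp, ?_⟩
  rw [map_mul, map_mul, map_pow, ← hx]
  ring

theorem mul_mem_LI {I : Ideal A} {v : A} {x y : K} (h : x ∈ LI I v) (h' : y ∈ LI ⊤ v) :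
    x * y ∈ LI I v := by
  obtain ⟨n, p, hp, hx⟩ := h
  obtain ⟨m, q, -, hy⟩ := h'
  refine ⟨n + m, p * q, Ideal.mul_mem_right _ _ hp, ?_⟩
  rw [map_mul, ← hx, ← hy]
  ring

theorem alg_mul_mem_LI {I : Ideal A} {v p : A} {x : K} (hp : p ∈ I) (h' : x ∈ LI ⊤ v) :
    algebraMap A K p * x ∈ LI I v := mul_mem_LI (alg_mem_LI hp v) h'

theorem preg_two {F G : A} (hF : Prime F) (hG : ¬ F ∣ G) : PReg ![F, G] := by
  have hG0 : G ≠ 0 := fun h => hG (h ▸ dvd_zero F)
  have h1 : NZD (Ideal.span {G}) F := by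
    intro g hg
    obtain ⟨h, hh⟩ := Ideal.mem_span_singleton.1 hg
    have h2 : F ∣ G * h := ⟨g, hh.symm⟩
    obtain ⟨k, rfl⟩ := (hF.dvd_or_dvd h2).resolve_left hG
    refine Ideal.mem_span_singleton.2 ⟨k, ?_⟩
    apply mul_left_cancel₀ hF.ne_zero
    rw [hh]
    ring
  have h2 : NZD (Ideal.span {F}) G := by
    intro g hg
    exact Ideal.mem_span_singleton.2
      ((hF.dvd_or_dvd (Ideal.mem_span_singleton.1 hg)).resolve_left hG)
  have h3 : ∀ x : A, x ≠ 0 → NZD ⊥ x := by
    intro x hx g hg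
    exact Ideal.mem_bot.2 ((mul_eq_zero.1 (Ideal.mem_bot.1 hg)).resolve_left hx)
  intro S i hi
  by_cases h0 : (0 : Fin 2) ∈ S
  · have hi1 : i = 1 := by
      fin_cases i
      · exact absurd h0 hi
      · rfl
    subst hi1
    have hS : (S : Set (Fin 2)) = {0} := by
      ext j
      fin_cases j
      · simpa using h0
      · simpa using hi
    rw [hS, Set.image_singleton]
    exact h2
  · by_cases h4 : (1 : Fin 2) ∈ S
    · have hi1 : i = 0 := by
        fin_cases i
        · rfl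
        · exact absurd h4 hi
      subst hi1
      have hS : (S : Set (Fin 2)) = {1} := by
        ext j
        fin_cases j
        · simpa using h0
        · simpa using h4
      rw [hS, Set.image_singleton]
      exact h1
    · have hS : (S : Set (Fin 2)) = ∅ := by
        ext j
        fin_cases j
        · simpa using h0
        · simpa using h4
      rw [hS, Set.image_empty, Ideal.span_empty]
      fin_cases i
      · exact h3 F hF.ne_zero
      · exact h3 G hG0

section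

variable {d : ℕ} {F : A} {P : Ideal A} {u g : Fin 3 → A} {del gam : Fin 3 → ℕ}
  {a : ℕ → Fin 3 → Fin 3 → K}

theorem finite_homL (h : S_DIMA) (n : ℕ) : Module.Finite ℂ (homogeneousSubmodule (Fin 5) ℂ n) := by
  refine Module.finite_of_finrank_pos ?_
  rw [h n]
  exact Nat.choose_pos (by omega)

theorem finite_infL (h : S_DIMA) (I : Ideal A) (n : ℕ) : Module.Finite ℂ
    ((I.restrictScalars ℂ ⊓ homogeneousSubmodule (Fin 5) ℂ n : Submodule ℂ A)) := by
  have := finite_homL h n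
  exact Submodule.finiteDimensional_of_le inf_le_right

theorem hI_negL (I : Ideal A) {t : ℤ} (ht : t < 0) : hI I t = 0 := if_neg (by omega)

theorem hI_leL (h : S_DIMA) {I J : Ideal A} (hIJ : I ≤ J) (t : ℤ) : hI I t ≤ hI J t := by
  unfold hI
  split_ifs with h1
  · have := finite_infL h J t.toNat
    exact Submodule.finrank_mono (inf_le_inf_right _ hIJ)
  · exact le_rfl

theorem hI_topL (h : S_DIMA) (t : ℕ) : hI ⊤ t = (t + 4).choose 4 := by
  unfold hI
  rw [if_pos (by omega), Int.toNat_natCast, ← h t]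
  have e : ((⊤ : Ideal A).restrictScalars ℂ ⊓ homogeneousSubmodule (Fin 5) ℂ t : Submodule ℂ A) =
      homogeneousSubmodule (Fin 5) ℂ t := by
    rw [Submodule.restrictScalars_top, top_inf_eq]
  rw [e]

/-- Sections are multiples of the generator. -/
theorem VV_le (hDIMA : S_DIMA) (D : Dat d F P u g del gam a) (hLIM : S_LIM) {e : ℕ}
    {s : ℕ → Fin 3 → K} (hgen : ∀ (t : ℤ) (r : ℕ → Fin 3 → K), InM F u gam a t r →
      ∃ b : A, (0 ≤ t - e → b.IsHomogeneous (t - e).toNat) ∧ (t - e < 0 → b = 0) ∧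
        IsZ F u (fun k i => r k i - algebraMap A K b * s k i)) (t : ℕ) :
    Module.finrank ℂ (VV F u gam a (t + 1) t) ≤ hI ⊤ ((t : ℤ) - e) := by
  have hlt : (t : ℤ) < ((t + 1 : ℕ) : ℤ) * d := by
    have h1 := D.hd
    push_cast
    nlinarith
  have key : ∀ s₀ ∈ Sec F u gam a (t + 1) t, ∃ b : A,
      (0 ≤ (t : ℤ) - e → b.IsHomogeneous ((t : ℤ) - e).toNat) ∧ ((t : ℤ) - e < 0 → b = 0) ∧
      ∀ i, s₀ i - algebraMap A K b * s (t + 1) i ∈ LI (Ideal.span {F ^ (t + 1)}) (u i) := by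
    intro s₀ hs₀
    obtain ⟨r, hr, hr2⟩ := (hLIM d F P u g del gam a D).1 (t + 1) t (by omega) hlt s₀ hs₀
    obtain ⟨b, h1, h2, h3⟩ := hgen t r hr
    refine ⟨b, h1, h2, fun i => ?_⟩
    have h4 := Submodule.sub_mem _ (h3 (t + 1) (by omega) i) (hr2 i)
    have e1 : s₀ i - algebraMap A K b * s (t + 1) i =
        (r (t + 1) i - algebraMap A K b * s (t + 1) i) - (r (t + 1) i - s₀ i) := by ring
    rw [e1]
    exact h4
  rcases lt_or_ge ((t : ℤ) - e) 0 with hneg | hpos
  · have hbot : VV F u gam a (t + 1) t = ⊥ := by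
      rw [VV, Submodule.eq_bot_iff]
      rintro _ ⟨s₀, hs₀, rfl⟩
      obtain ⟨b, -, hb, hb2⟩ := key s₀ hs₀
      rw [Submodule.mkQ_apply, Submodule.Quotient.mk_eq_zero]
      intro i
      have := hb2 i
      rwa [hb hneg, map_zero, zero_mul, sub_zero] at this
    rw [hbot, finrank_bot]
    exact Nat.zero_le _
  · let Lm : A →ₗ[ℂ] (Fin 3 → K) := LinearMap.pi fun i =>
      (LinearMap.mulRight ℂ (s (t + 1) i)).comp (IsScalarTower.toAlgHom ℂ A K).toLinearMap
    have hLm : ∀ b i, Lm b i = algebraMap A K b * s (t + 1) i := fun b i => rfl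
    let W : Submodule ℂ A :=
      (⊤ : Ideal A).restrictScalars ℂ ⊓ homogeneousSubmodule (Fin 5) ℂ ((t : ℤ) - e).toNat
    have hW : Module.Finite ℂ W := finite_infL hDIMA ⊤ _
    have hle : VV F u gam a (t + 1) t ≤
        W.map ((Nul (Ideal.span {F ^ (t + 1)}) u).mkQ.comp Lm) := by
      rintro _ ⟨s₀, hs₀, rfl⟩
      obtain ⟨b, hb, -, hb2⟩ := key s₀ hs₀
      refine ⟨b, ⟨Submodule.mem_top, (mem_homogeneousSubmodule _ _).2 (hb hpos)⟩, ?_⟩
      rw [LinearMap.comp_apply, Submodule.mkQ_apply, Submodule.mkQ_apply]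
      symm
      rw [Submodule.Quotient.eq]
      intro i
      exact hb2 i
    calc Module.finrank ℂ (VV F u gam a (t + 1) t)
        ≤ Module.finrank ℂ (W.map ((Nul (Ideal.span {F ^ (t + 1)}) u).mkQ.comp Lm)) :=
          Submodule.finrank_mono hle
      _ ≤ Module.finrank ℂ W := Submodule.finrank_map_le _ _
      _ = hI ⊤ ((t : ℤ) - e) := by
          unfold hI
          rw [if_pos hpos]

/-- There is a nonzero element in the limit module. -/
theorem exists_ne (D : Dat d F P u g del gam a) (hUP : S_UPLOW) (hLIM : S_LIM) (hBPD : S_BPD)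
    (hDIMA : S_DIMA) (hHBQ : S_HBQ) (hNE : S_NUMEX) :
    ∃ (t : ℤ) (s : ℕ → Fin 3 → K), InM F u gam a t s ∧ ¬ IsZ F u s := by
  by_contra hcon
  push Not at hcon
  obtain ⟨M, hM⟩ := hHBQ d F P u g del gam a D
  have hd := D.hd
  obtain ⟨t, ht⟩ := hNE (fun τ => hI ⊤ τ - hI P τ) M d (del 0) (by omega)
    (fun τ hτ => by simp only [hI_negL _ hτ, Nat.sub_self])
    (fun τ => by have := hM τ; omega)
  have hlt : (t : ℤ) < ((t + 1 : ℕ) : ℤ) * d := by
    push_cast
    nlinarith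
  have hbot : VV F u gam a (t + 1) t = ⊥ := by
    rw [VV, Submodule.eq_bot_iff]
    rintro _ ⟨s₀, hs₀, rfl⟩
    obtain ⟨r, hr, hr2⟩ := (hLIM d F P u g del gam a D).1 (t + 1) t (by omega) hlt s₀ hs₀
    have hz := hcon t r hr
    rw [Submodule.mkQ_apply, Submodule.Quotient.mk_eq_zero]
    intro i
    have h4 := Submodule.sub_mem _ (hz (t + 1) (by omega) i) (hr2 i)
    rwa [sub_sub_cancel] at h4
  obtain ⟨-, -, h3⟩ := hUP d F P u g del gam a D (t + 1) t (by omega)
  rw [hbot, finrank_bot, hI_negL ⊤ (by omega : (t : ℤ) - ((t + 1 : ℕ) : ℤ) * d < 0)] at h3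
  have h4 : ∑ j ∈ Finset.Ico 1 (t + 1), Module.finrank ℂ (VB P u ((t : ℤ) - j * d)) ≤
      ∑ j ∈ Finset.range (t + 1), (hI ⊤ ((t : ℤ) - j * d + del 0) -
        hI P ((t : ℤ) - j * d + del 0)) := by
    calc ∑ j ∈ Finset.Ico 1 (t + 1), Module.finrank ℂ (VB P u ((t : ℤ) - j * d))
        ≤ ∑ j ∈ Finset.Ico 1 (t + 1), (hI ⊤ ((t : ℤ) - j * d + del 0) -
          hI P ((t : ℤ) - j * d + del 0)) := by
          refine Finset.sum_le_sum fun j _ => ?_
          have := ((hBPD d F P u g del gam a D).1 ((t : ℤ) - j * d)).2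
          omega
      _ ≤ _ := by
          refine Finset.sum_le_sum_of_subset ?_
          intro j hj
          rw [Finset.mem_range]
          exact (Finset.mem_Ico.1 hj).2
  have h5 : hI P t ≤ hI ⊤ t := hI_leL hDIMA le_top t
  have h6 := hI_topL hDIMA t

  omega

end

end Pool.Agent.NOD.L3.Z21
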