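import Pool.Agent.NOD.L3.LEF2

/-!
The section theorem S3 from its pieces, end.
-/

set_option autoImplicit false

namespace Pool.Agent.NOD.L3.Z21

open MvPolynomial

section

variable {d : ℕ} {F : A} {P : Ideal A} {u g : Fin 3 → A} {del gam : Fin 3 → ℕ}
  {a : ℕ → Fin 3 → Fin 3 → K}

/-- The generator `G` obtained from a section. -/
theorem exists_G (hCH0 : S_CH0) (D : Dat d F P u g del gam a) {e : ℕ} {s : ℕ → Fin 3 → K}
    (hs : InM F u gam a e s) :
    ∃ G : A, G.IsHomogeneous e ∧ G ∈ P ∧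
      ∀ i, algebraMap A K (g i) * s 1 i - algebraMap A K G ∈ LI (Ideal.span {F}) (u i) := by
  have h1 := hs.sec 1 le_rfl
  have hFF : Ideal.span {F} ≤ P := (Ideal.span_singleton_le_iff_mem _).2 D.F_mem
  obtain ⟨G, hG, -, hG2⟩ := hCH0 d F P u g del gam a D e (fun i => algebraMap A K (g i) * s 1 i)
    (fun i => ⟨by
      have := Submodule.smul_mem (LI ⊤ (u i)) (g i) (h1.1 i).1
      rwa [Algebra.smul_def] at this, by
      have := mul_mem_HS (alg_mem_HS (D.g_hom i)) (h1.1 i).2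
      rwa [add_sub_cancel] at this⟩)
    (fun i j => by
      have e1 : algebraMap A K (g i) * s 1 i - algebraMap A K (g j) * s 1 j =
          algebraMap A K (g i) * (s 1 i - a 1 i j * s 1 j) +
            (algebraMap A K (g i) * a 1 i j - algebraMap A K (g j)) * s 1 j := by ring
      rw [e1]
      refine Submodule.add_mem _ ?_ (mul_mem_LI (D.gen 1 le_rfl i j)
        (LI_mul_left (u i) (h1.1 j).1))
      have h2 := Submodule.smul_mem (LI (Ideal.span {F ^ 1}) (u i * u j)) (g i) (h1.2 i j)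
      rwa [Algebra.smul_def, pow_one] at h2)
  have hGh : G.IsHomogeneous e := by
    have := hG (Int.natCast_nonneg e)
    rwa [Int.toNat_natCast] at this
  refine ⟨G, hGh, ?_, hG2⟩
  apply mem_prime_of_LI D.P_prime (D.u_not 0)
  have h3 := Submodule.sub_mem _ (alg_mul_mem_LI (D.g_mem 0) (h1.1 0).1)
    (LI_mono hFF _ (hG2 0))
  rwa [sub_sub_cancel] at h3

/-- `G` is not divisible by `F`. -/
theorem not_dvd_G (D : Dat d F P u g del gam a) {e : ℕ} {s : ℕ → Fin 3 → K}
    (hs : InM F u gam a e s) (hs0 : ¬ IsZ F u s)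
    (hgen : ∀ (t : ℤ) (r : ℕ → Fin 3 → K), InM F u gam a t r →
      ∃ b : A, (0 ≤ t - e → b.IsHomogeneous (t - e).toNat) ∧ (t - e < 0 → b = 0) ∧
        IsZ F u (fun k i => r k i - algebraMap A K b * s k i)) {G : A}
    (hG : ∀ i, algebraMap A K (g i) * s 1 i - algebraMap A K G ∈ LI (Ideal.span {F}) (u i)) :
    ¬ F ∣ G := by
  intro hFG
  apply hs0
  have h1 : ∀ i, s 1 i ∈ LI (Ideal.span {F ^ 1}) (u i) := by
    intro i
    refine cancel D 1 (not_dvd_g D i) (not_dvd_u D i) ((hs.sec 1 le_rfl).1 i).1 ?_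
    rw [pow_one]
    have h2 := Submodule.add_mem _ (hG i) (alg_mem_LI (Ideal.mem_span_singleton.2 hFG) (u i))
    rwa [sub_add_cancel] at h2
  obtain ⟨s', hs', hss⟩ := divF D hs h1
  have hd := D.hd
  obtain ⟨b, -, hb, hz⟩ := hgen _ s' hs'
  have hb0 := hb (by omega)
  intro k hk
  obtain ⟨k, rfl⟩ : ∃ k', k = k' + 1 := ⟨k - 1, by omega⟩
  rcases Nat.eq_zero_or_pos k with rfl | hk0
  · exact h1
  · intro i
    have h3 := hz k hk0 i
    simp only [hb0, map_zero, zero_mul, sub_zero] at h3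
    rw [hss]
    obtain ⟨n, p, hp, hx⟩ := h3
    obtain ⟨q, rfl⟩ := Ideal.mem_span_singleton.1 hp
    refine ⟨n, F ^ (k + 1) * q, Ideal.mul_mem_right _ _ (Ideal.mem_span_singleton_self _), ?_⟩
    have e1 : F ^ (k + 1) * q = F * (F ^ k * q) := by ring
    rw [e1, map_mul, ← hx]
    ring

theorem hom_span (d e : ℕ) {F G : A} (hF : F.IsHomogeneous d) (hG : G.IsHomogeneous e) :
    HomId (Ideal.span {F, G}) := by
  intro f hf n
  obtain ⟨x, y, rfl⟩ := Ideal.mem_span_pair.1 hf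
  rw [map_add]
  have key : ∀ (m : ℕ) (H z : A), H.IsHomogeneous m → H ∈ Ideal.span {F, G} →
      homogeneousComponent n (z * H) ∈ Ideal.span {F, G} := by
    intro m H z hH hm
    rcases le_or_gt m n with hmn | hmn
    · have e1 : homogeneousComponent n (z * H) = homogeneousComponent (n - m) z * H := by
        conv_lhs => rw [← sum_homogeneousComponent z, Finset.sum_mul, map_sum]
        have h2 : ∀ i, homogeneousComponent n (homogeneousComponent i z * H) =
            if i = n - m then homogeneousComponent i z * H else 0 := by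
          intro i
          have h3 : (homogeneousComponent i z * H).IsHomogeneous (i + m) :=
            (homogeneousComponent_isHomogeneous i z).mul hH
          rw [homogeneousComponent_of_mem ((mem_homogeneousSubmodule _ _).2 h3)]
          by_cases h4 : i = n - m
          · rw [if_pos (by omega), if_pos h4]
          · rw [if_neg (by omega), if_neg h4]
        rw [Finset.sum_congr rfl fun i _ => h2 i, Finset.sum_ite_eq']
        split_ifs with h5
        · rfl
        · rw [homogeneousComponent_eq_zero _ _ (by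
            rw [Finset.mem_range] at h5
            omega), zero_mul]
      rw [e1]
      exact Ideal.mul_mem_left _ _ hm
    · have e1 : homogeneousComponent n (z * H) = 0 := by
        conv_lhs => rw [← sum_homogeneousComponent z, Finset.sum_mul, map_sum]
        refine Finset.sum_eq_zero fun i _ => ?_
        have h3 : (homogeneousComponent i z * H).IsHomogeneous (i + m) :=
          (homogeneousComponent_isHomogeneous i z).mul hH
        rw [homogeneousComponent_of_mem ((mem_homogeneousSubmodule _ _).2 h3), if_neg (by omega)]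
      rw [e1]
      exact Ideal.zero_mem _
  exact Ideal.add_mem _ (key d F x hF (Ideal.subset_span (by simp)))
    (key e G y hG (Ideal.subset_span (by simp)))

/-- The end of the proof. -/
theorem lef_core (hNF : S_NF) (hCH0 : S_CH0) (hUP : S_UPLOW) (hLIM : S_LIM) (hGEN : S_GEN)
    (hBPD : S_BPD) (hDIMA : S_DIMA) (hHCI : S_HCI) (hHBQ : S_HBQ) (hMONO : S_MONO) (hLB : S_LB)
    (hNE : S_NUMEX) (hNN : S_NUMEND) (D : Dat d F P u g del gam a) :
    ∃ (e : ℕ) (G : A), G.IsHomogeneous e ∧ P = Ideal.span {F, G} := by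
  obtain ⟨e, s, hs, hs0, hgen⟩ := hGEN d F P u g del gam a D
    (exists_ne D hUP hLIM hBPD hDIMA hHBQ hNE)
  obtain ⟨G, hGh, hGP, hG⟩ := exists_G hCH0 D hs
  have hFG := not_dvd_G D hs hs0 hgen hG
  have hd := D.hd
  have hle : Ideal.span {F, G} ≤ P := by
    rw [Ideal.span_le]
    rintro x (rfl | rfl)
    · exact D.F_mem
    · exact hGP
  refine ⟨e, G, hGh, le_antisymm ?_ hle⟩
  by_contra hcon
  have hhom := hom_span d e D.F_hom hGh
  obtain ⟨p, n₀, hp, hpP, hpn⟩ : ∃ (p : A) (n₀ : ℕ), p.IsHomogeneous n₀ ∧ p ∈ P ∧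
      p ∉ Ideal.span {F, G} := by
    obtain ⟨p₀, hp₀, hp₀n⟩ := SetLike.not_le_iff_exists.1 hcon
    by_contra h
    push Not at h
    apply hp₀n
    rw [← sum_homogeneousComponent p₀]
    exact Ideal.sum_mem _ fun n _ => h _ n (homogeneousComponent_isHomogeneous n p₀)
      (D.P_hom p₀ hp₀ n)
  have he0 : 0 < e := by
    by_contra h
    have he : e = 0 := by omega
    subst he
    have h1 : G = C (coeff 0 G) := by
      rw [← homogeneousComponent_zero, homogeneousComponent_of_mem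
        ((mem_homogeneousSubmodule _ _).2 hGh), if_pos rfl]
    have h2 : coeff 0 G ≠ 0 := by
      intro h3
      rw [h3, C_0] at h1
      exact hFG (h1 ▸ dvd_zero F)
    apply D.P_prime.ne_top
    apply Ideal.eq_top_of_isUnit_mem _ hGP
    rw [h1]
    exact (IsUnit.mk0 _ h2).map C
  obtain ⟨y, hy1, -, hy⟩ := hNF d e F G P (by omega) he0 D.F_hom hGh (preg_two D.F_prime hFG)
    D.P_prime D.P_ht
  have hLB' := hLB F G p y d e n₀ P D.F_hom hGh hp hy1 hy D.P_hom D.F_mem hGP hpP hpn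
  obtain ⟨M, hM⟩ := hHBQ d F P u g del gam a D
  -- the functions
  have hPt : ∀ t, hI P t ≤ hI ⊤ t := hI_leL hDIMA le_top
  have hQP : ∀ t, hI (Ideal.span {F, G}) t ≤ hI P t := hI_leL hDIMA hle
  have hQ : ∀ t : ℤ, (hI (Ideal.span {F, G}) t : ℤ) =
      hI ⊤ (t - d) + hI ⊤ (t - e) - hI ⊤ (t - d - e) := by
    intro t
    rcases lt_or_ge t 0 with h | h
    · rw [hI_negL _ h, hI_negL _ (by omega : t - d < 0), hI_negL _ (by omega : t - e < 0),
        hI_negL _ (by omega : t - d - e < 0)]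
      simp
    · obtain ⟨n, rfl⟩ := Int.eq_ofNat_of_zero_le h
      have h1 := hHCI d e F G n D.F_hom hGh D.F_prime.ne_zero (by
        intro g' hg'
        exact Ideal.mem_span_singleton.2
          ((D.F_prime.dvd_or_dvd (Ideal.mem_span_singleton.1 hg')).resolve_left hFG))
      push_cast [← h1]
      omega
  obtain ⟨t, ht⟩ := hNN (fun τ => hI ⊤ τ - hI P τ) (fun τ => hI P τ - hI (Ideal.span {F, G}) τ) M d
    (del 0) n₀ (by omega) (fun τ hτ => by simp only [hI_negL _ hτ, Nat.sub_self])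
    (fun τ => by
      have h1 := hMONO d F P u g del gam a D τ
      have h2 := hPt τ
      have h3 := hPt (τ + 1)
      omega)
    (fun τ => by have := hM τ; omega)
    (fun τ hτ => by have := hLB' τ hτ; omega)
  have hkd : (t : ℤ) - ((t + 1 : ℕ) : ℤ) * d < 0 := by
    push_cast
    nlinarith
  obtain ⟨-, -, h3⟩ := hUP d F P u g del gam a D (t + 1) t (by omega)
  have h4 := VV_le hDIMA D hLIM hgen t
  rw [hI_negL ⊤ hkd] at h3
  -- telescoping
  have e1 : ∀ k : ℕ, ∑ j ∈ Finset.range k, ((hI ⊤ ((t : ℤ) - e - j * d) : ℤ) -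
      hI ⊤ ((t : ℤ) - e - (j + 1) * d)) = hI ⊤ ((t : ℤ) - e) - hI ⊤ ((t : ℤ) - e - k * d) := by
    intro k
    induction k with
    | zero => simp
    | succ k ih =>
      rw [Finset.sum_range_succ, ih]
      push_cast
      ring
  have e2 : ∀ k : ℕ, ∑ j ∈ Finset.range k, ((hI ⊤ ((t : ℤ) - j * d) : ℤ) -
      hI ⊤ ((t : ℤ) - (j + 1) * d)) = hI ⊤ (t : ℤ) - hI ⊤ ((t : ℤ) - k * d) := by
    intro k
    induction k with
    | zero => simp
    | succ k ih =>
      rw [Finset.sum_range_succ, ih]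
      push_cast
      ring
  have hE1 := e1 (t + 1)
  have hE2 := e2 (t + 1)
  rw [hI_negL ⊤ (by omega : (t : ℤ) - e - ((t + 1 : ℕ) : ℤ) * d < 0)] at hE1
  rw [hI_negL ⊤ hkd] at hE2
  have hterm : ∀ j : ℕ, (((hI P ((t : ℤ) - j * d) - hI (Ideal.span {F, G}) ((t : ℤ) - j * d) : ℕ)) : ℤ) =
      ((hI ⊤ ((t : ℤ) - j * d) : ℤ) - hI ⊤ ((t : ℤ) - (j + 1) * d)) -
      (((hI ⊤ ((t : ℤ) - j * d) - hI P ((t : ℤ) - j * d) : ℕ)) : ℤ) -
      ((hI ⊤ ((t : ℤ) - e - j * d) : ℤ) - hI ⊤ ((t : ℤ) - e - (j + 1) * d)) := by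
    intro j
    have h5 := hQ ((t : ℤ) - j * d)
    have h6 := hPt ((t : ℤ) - j * d)
    have h7 := hQP ((t : ℤ) - j * d)
    have a1 : (t : ℤ) - j * d - d = (t : ℤ) - (j + 1) * d := by ring
    have a2 : (t : ℤ) - j * d - e = (t : ℤ) - e - j * d := by ring
    have a3 : (t : ℤ) - j * d - d - e = (t : ℤ) - e - (j + 1) * d := by ring
    rw [a3, a1, a2] at h5
    rw [Nat.cast_sub h7, Nat.cast_sub h6, h5]
    ring
  have hsum : ∑ j ∈ Finset.range (t + 1), (((hI P ((t : ℤ) - j * d) -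
      hI (Ideal.span {F, G}) ((t : ℤ) - j * d) : ℕ)) : ℤ) =
      hI ⊤ (t : ℤ) - ∑ j ∈ Finset.range (t + 1),
        (((hI ⊤ ((t : ℤ) - j * d) - hI P ((t : ℤ) - j * d) : ℕ)) : ℤ) - hI ⊤ ((t : ℤ) - e) := by
    rw [Finset.sum_congr rfl fun j _ => hterm j, Finset.sum_sub_distrib, Finset.sum_sub_distrib,
      hE1, hE2]
    push_cast
    ring
  -- the sums over `Ico`
  have hVB : ∑ j ∈ Finset.Ico 1 (t + 1), Module.finrank ℂ (VB P u ((t : ℤ) - j * d)) ≤
      ∑ j ∈ Finset.Ico 1 (t + 1), (hI ⊤ ((t : ℤ) - j * d + del 0) -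
        hI P ((t : ℤ) - j * d + del 0)) := by
    refine Finset.sum_le_sum fun j _ => ?_
    have := ((hBPD d F P u g del gam a D).1 ((t : ℤ) - j * d)).2
    omega
  have hI1 : ∀ f : ℕ → ℕ, ∑ j ∈ Finset.range (t + 1), f j = f 0 + ∑ j ∈ Finset.Ico 1 (t + 1), f j := by
    intro f
    rw [Finset.range_eq_Ico, Finset.sum_eq_sum_Ico_succ_bot (by omega)]
  have hR1 := hI1 (fun j => hI ⊤ ((t : ℤ) - j * d + del 0) - hI P ((t : ℤ) - j * d + del 0))
  have h8 : hI P t ≤ hI ⊤ t := hPt t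
  simp only [Nat.cast_zero, zero_mul, sub_zero] at hR1
  have hmono0 : hI ⊤ (t : ℤ) - hI P t ≤ hI ⊤ ((t : ℤ) + del 0) - hI P ((t : ℤ) + del 0) := by
    have h9 : ∀ n : ℕ, hI ⊤ (t : ℤ) - hI P t ≤ hI ⊤ ((t : ℤ) + n) - hI P ((t : ℤ) + n) := by
      intro n
      induction n with
      | zero => simp
      | succ n ih =>
        have h1 := hMONO d F P u g del gam a D ((t : ℤ) + n)
        have h2 := hPt ((t : ℤ) + n)
        have h3 := hPt ((t : ℤ) + n + 1)
        rw [add_assoc] at h1 h3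
        push_cast
        omega
    exact h9 (del 0)
  have hlast : (hI ⊤ (t : ℤ) : ℤ) - hI ⊤ ((t : ℤ) - e) ≤ ∑ j ∈ Finset.range (t + 1),
      (((hI ⊤ ((t : ℤ) - j * d + del 0) - hI P ((t : ℤ) - j * d + del 0) : ℕ)) : ℤ) := by
    rw [← Nat.cast_sum, hR1]
    omega
  rw [hsum] at ht
  linarith

end

/-- The section theorem. -/
theorem t_LEF (hNF : S_NF) (hCH0 : S_CH0) (hUP : S_UPLOW) (hLIM : S_LIM) (hGEN : S_GEN)
    (hBPD : S_BPD) (hDIMA : S_DIMA) (hHCI : S_HCI) (hHBQ : S_HBQ) (hMONO : S_MONO) (hLB : S_LB)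
    (hNE : S_NUMEX) (hNN : S_NUMEND) : S_LEF := by
  intro d F zs P C a hd hF hFp hP hPh hFP hht hs hc
  exact lef_core hNF hCH0 hUP hLIM hGEN hBPD hDIMA hHCI hHBQ hMONO hLB hNE hNN
    (dat_of C a hd hF hFp hP hPh hFP hht hs hc)

end Pool.Agent.NOD.L3.Z21
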