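import Pool.Agent.NOD.StmL

/-!
# Project NOD, section S3: basic lemmas on `LI` and `HS` (helper33)
-/

set_option autoImplicit false
set_option linter.all false

namespace Pool.Agent.NOD.L3

namespace L33

open MvPolynomial

theorem LI_mono {I J : Ideal A} (h : I ≤ J) (s : A) : LI I s ≤ LI J s := by
  rintro x ⟨n, p, hp, e⟩
  exact ⟨n, p, h hp, e⟩

theorem LI_right (I : Ideal A) (s t : A) : LI I s ≤ LI I (s * t) := by
  rintro x ⟨n, p, hp, e⟩
  refine ⟨n, t ^ n * p, I.mul_mem_left _ hp, ?_⟩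
  rw [map_mul, map_mul, ← e, map_pow, mul_pow]
  ring

theorem LI_left (I : Ideal A) (s t : A) : LI I t ≤ LI I (s * t) := by
  rw [mul_comm]; exact LI_right I t s

theorem LI_mul {I J : Ideal A} {s : A} {x y : K} (hx : x ∈ LI I s) (hy : y ∈ LI J s) :
    x * y ∈ LI (I * J) s := by
  obtain ⟨n, p, hp, e⟩ := hx
  obtain ⟨m, q, hq, e'⟩ := hy
  refine ⟨n + m, p * q, Ideal.mul_mem_mul hp hq, ?_⟩
  rw [map_mul, ← e, ← e']
  ring

theorem LI_mul_top {I : Ideal A} {s : A} {x y : K} (hx : x ∈ LI I s) (hy : y ∈ LI ⊤ s) :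
    x * y ∈ LI I s := by
  have := LI_mul hx hy
  rwa [Ideal.mul_top] at this

theorem LI_top_mul {I : Ideal A} {s : A} {x y : K} (hx : x ∈ LI ⊤ s) (hy : y ∈ LI I s) :
    x * y ∈ LI I s := by
  rw [mul_comm]; exact LI_mul_top hy hx

theorem LI_alg {I : Ideal A} (s : A) {p : A} (hp : p ∈ I) : algebraMap A K p ∈ LI I s :=
  ⟨0, p, hp, by simp⟩

theorem LI_alg_mul {I : Ideal A} {s : A} (p : A) {x : K} (hx : x ∈ LI I s) :
    algebraMap A K p * x ∈ LI I s := LI_top_mul (LI_alg s trivial) hx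

theorem LI_span_iff {s f : A} (hs : s ≠ 0) {x : K} :
    x ∈ LI (Ideal.span {f}) s ↔ ∃ y ∈ LI ⊤ s, x = algebraMap A K f * y := by
  constructor
  · rintro ⟨n, p, hp, e⟩
    obtain ⟨c, rfl⟩ := Ideal.mem_span_singleton'.1 hp
    have hs' : algebraMap A K s ≠ 0 := (map_ne_zero_iff _ (IsFractionRing.injective A K)).2 hs
    refine ⟨algebraMap A K c / algebraMap A K s ^ n, ⟨n, c, trivial, ?_⟩, ?_⟩
    · field_simp
    · rw [map_mul] at e
      field_simp
      rw [mul_comm x, e]; ring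
  · rintro ⟨y, ⟨n, p, -, e⟩, rfl⟩
    refine ⟨n, f * p, Ideal.mul_mem_right _ _ (Ideal.mem_span_singleton_self f), ?_⟩
    rw [map_mul, ← e]; ring

/-- `F^k LI (F) ⊆ LI (F^(k+1))` -/
theorem LI_pow_mul {F s : A} {x : K} (k : ℕ) (hx : x ∈ LI (Ideal.span {F}) s) :
    algebraMap A K (F ^ k) * x ∈ LI (Ideal.span {F ^ (k + 1)}) s := by
  obtain ⟨n, p, hp, e⟩ := hx
  obtain ⟨c, rfl⟩ := Ideal.mem_span_singleton'.1 hp
  refine ⟨n, F ^ k * (c * F), ?_, ?_⟩
  · rw [Ideal.mem_span_singleton]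
    exact ⟨c, by ring⟩
  · rw [map_mul, ← e]; ring

theorem HS_mul {a b : ℤ} {x y : K} (hx : x ∈ HS a) (hy : y ∈ HS b) : x * y ∈ HS (a + b) := by
  obtain ⟨n, m, p, q, hp, hq, hq0, h1, h2⟩ := hx
  obtain ⟨n', m', p', q', hp', hq', hq0', h1', h2'⟩ := hy
  refine ⟨n + n', m + m', p * p', q * q', hp.mul hp', hq.mul hq', mul_ne_zero hq0 hq0', ?_, ?_⟩
  · push_cast; omega
  · rw [map_mul, map_mul, ← h2, ← h2']; ring

theorem HS_alg {n : ℕ} {p : A} (hp : p.IsHomogeneous n) : algebraMap A K p ∈ HS n :=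
  ⟨n, 0, p, 1, hp, isHomogeneous_one _ _, one_ne_zero, by simp, by simp⟩

theorem HS_div {m : ℕ} {q : A} (hq : q.IsHomogeneous m) (hq0 : q ≠ 0) {t : ℤ} {x y : K}
    (hx : x ∈ HS t) (e : algebraMap A K q * y = x) : y ∈ HS (t - m) := by
  obtain ⟨n, m', p, q', hp, hq', hq0', h1, h2⟩ := hx
  refine ⟨n, m' + m, p, q' * q, hp, hq'.mul hq, mul_ne_zero hq0' hq0, ?_, ?_⟩
  · push_cast; omega
  · rw [map_mul, ← h2, ← e]; ring

theorem HS_cast {a b : ℤ} (h : a = b) {x : K} (hx : x ∈ HS a) : x ∈ HS b := h ▸ hx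

/-- cancellation of `g` modulo `F^m` -/
theorem cancel {F g v : A} (hF : Prime F) (hg : ¬ F ∣ g) (hv : ¬ F ∣ v) {x : K} {m : ℕ}
    (hx : x ∈ LI ⊤ v) (hgx : algebraMap A K g * x ∈ LI (Ideal.span {F ^ m}) v) :
    x ∈ LI (Ideal.span {F ^ m}) v := by
  obtain ⟨n, p, -, e⟩ := hx
  obtain ⟨n', q, hq, e'⟩ := hgx
  obtain ⟨c, rfl⟩ := Ideal.mem_span_singleton'.1 hq
  have hinj := IsFractionRing.injective A K
  have h1 : (v ^ n' * g) * p = v ^ n * (c * F ^ m) := by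
    apply hinj
    rw [map_mul, map_mul, map_mul, ← e, ← e', map_pow, map_pow]
    ring
  have h2 : F ^ m ∣ (v ^ n' * g) * p := ⟨v ^ n * c, by rw [h1]; ring⟩
  have h3 : ¬ F ∣ v ^ n' * g := fun h => (hF.dvd_or_dvd h).elim (fun h => hv (hF.dvd_of_dvd_pow h)) hg
  have h4 := hF.pow_dvd_of_dvd_mul_left m h3 h2
  exact ⟨n, p, Ideal.mem_span_singleton.2 h4, e⟩

section dat

variable {d : ℕ} {F : A} {P : Ideal A} {u g : Fin 3 → A} {del gam : Fin 3 → ℕ}
  {a : ℕ → Fin 3 → Fin 3 → K}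

theorem F_u (D : Dat d F P u g del gam a) (i : Fin 3) : ¬ F ∣ u i := by
  rintro ⟨c, hc⟩
  exact D.u_not i (by rw [hc]; exact P.mul_mem_right _ D.F_mem)

theorem u_ne (D : Dat d F P u g del gam a) (i : Fin 3) : u i ≠ 0 := fun h =>
  D.u_not i (by rw [h]; exact P.zero_mem)

theorem F_uu (D : Dat d F P u g del gam a) (i j : Fin 3) : ¬ F ∣ u i * u j := fun h =>
  (D.F_prime.dvd_or_dvd h).elim (F_u D i) (F_u D j)

theorem uu_ne (D : Dat d F P u g del gam a) (i j : Fin 3) : u i * u j ≠ 0 :=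
  mul_ne_zero (u_ne D i) (u_ne D j)

theorem F_g (D : Dat d F P u g del gam a) (i : Fin 3) : ¬ F ∣ g i := by
  rintro ⟨c, hc⟩
  have h1 : P ≤ Ideal.span {F} := by
    intro p hp
    have h2 := D.loc i p hp
    obtain ⟨x, y, e⟩ := Ideal.mem_span_pair.1 h2
    rw [Ideal.mem_span_singleton]
    have h3 : F ∣ u i * p := ⟨x + y * c, by rw [← e, hc]; ring⟩
    exact (D.F_prime.dvd_or_dvd h3).resolve_left (F_u D i)
  have h2 : P = Ideal.span {F} := le_antisymm h1 (by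
    rw [Ideal.span_le]; rintro x rfl; exact D.F_mem)
  have hPp := D.P_prime
  have h3 : P ∈ (Ideal.span {F}).minimalPrimes := by
    rw [← h2, Ideal.minimalPrimes_eq_subsingleton_self]
    exact rfl
  have h4 := Ideal.height_le_one_of_isPrincipal_of_mem_minimalPrimes (Ideal.span {F}) P h3
  rw [D.P_ht] at h4
  exact absurd h4 (by decide)

theorem F_ne (D : Dat d F P u g del gam a) : F ≠ 0 := D.F_prime.ne_zero

theorem Fk_hom (D : Dat d F P u g del gam a) (k : ℕ) : (F ^ k).IsHomogeneous (k * d) := by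
  have := D.F_hom.pow k
  rwa [mul_comm] at this

end dat

end L33

end Pool.Agent.NOD.L3
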