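import Pool.Agent.NOD.StmL

/-!
# Project NOD, section S3: tools (helper70)
-/

set_option autoImplicit false

namespace Pool.Agent.NOD.L3

open MvPolynomial

namespace T70

lemma LI_mono {I J : Ideal A} (h : I ≤ J) (s : A) : LI I s ≤ LI J s := by
  rintro x ⟨n, p, hp, hx⟩
  exact ⟨n, p, h hp, hx⟩

lemma pow_span_le {F : A} {j k : ℕ} (h : j ≤ k) :
    (Ideal.span {F ^ k} : Ideal A) ≤ Ideal.span {F ^ j} :=
  Ideal.span_singleton_le_span_singleton.2 (pow_dvd_pow F h)

lemma LI_pow_mono {F : A} {j k : ℕ} (h : j ≤ k) (s : A) :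
    LI (Ideal.span {F ^ k}) s ≤ LI (Ideal.span {F ^ j}) s := LI_mono (pow_span_le h) s

lemma LI_of_dvd {I : Ideal A} {s s' c : A} (hs : s = s' * c) {x : K} (hx : x ∈ LI I s') :
    x ∈ LI I s := by
  obtain ⟨n, p, hp, hx⟩ := hx
  refine ⟨n, c ^ n * p, I.mul_mem_left _ hp, ?_⟩
  rw [hs, map_mul, map_mul, map_pow, ← hx]
  ring

lemma LI_mul {I : Ideal A} {s s' c : A} (hs : s = s' * c) {x y : K} (hx : x ∈ LI I s)
    (hy : y ∈ LI ⊤ s') : x * y ∈ LI I s := by
  obtain ⟨n, p, hp, hx⟩ := hx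
  obtain ⟨m, q, -, hy⟩ := LI_of_dvd hs hy
  refine ⟨n + m, p * q, I.mul_mem_right _ hp, ?_⟩
  rw [map_mul, ← hx, ← hy]
  ring

/-- Multiplication by `F ^ j`. -/
lemma LI_mulF {F : A} {s : A} (j : ℕ) {r : K} (hr : r ∈ LI (Ideal.span {F ^ 1}) s) :
    algebraMap A K (F ^ j) * r ∈ LI (Ideal.span {F ^ (j + 1)}) s := by
  obtain ⟨n, p, hp, hx⟩ := hr
  obtain ⟨c, rfl⟩ := Ideal.mem_span_singleton'.1 hp
  refine ⟨n, c * F ^ (j + 1), Ideal.mem_span_singleton'.2 ⟨c, rfl⟩, ?_⟩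
  rw [mul_left_comm, hx, ← map_mul]
  congr 1
  ring

lemma LI_const_mul {I : Ideal A} {s : A} {x : K} (c : A) (hx : x ∈ LI I s) :
    algebraMap A K c * x ∈ LI I s := by
  rw [← Algebra.smul_def]
  exact Submodule.smul_mem _ _ hx

lemma HS_mul {t : ℤ} {x : K} (hx : x ∈ HS t) {c : A} {m : ℕ} (hc : c.IsHomogeneous m) :
    algebraMap A K c * x ∈ HS (t + m) := by
  obtain ⟨n, n', p, q, hp, hq, hq0, h1, h2⟩ := hx
  refine ⟨m + n, n', c * p, q, hc.mul hp, hq, hq0, ?_, ?_⟩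
  · push_cast
    omega
  · rw [map_mul, ← h2]
    ring

variable {d : ℕ} {F : A} {P : Ideal A} {u g : Fin 3 → A} {del gam : Fin 3 → ℕ}
  {a : ℕ → Fin 3 → Fin 3 → K}

/-- A section of level `k + 1` is a section of level `k`. -/
lemma Sec_down (hD : Dat d F P u g del gam a) {k : ℕ} (hk : 1 ≤ k) {t : ℤ} {s : Fin 3 → K}
    (hs : s ∈ Sec F u gam a (k + 1) t) : s ∈ Sec F u gam a k t := by
  refine ⟨hs.1, fun i j => ?_⟩
  have h1 := LI_pow_mono (F := F) (Nat.le_succ k) _ (hs.2 i j)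
  have h2 := hD.comp k hk i j
  have h3 : (a (k + 1) i j - a k i j) * s j ∈ LI (Ideal.span {F ^ k}) (u i * u j) :=
    LI_mul (s' := u j) (c := u i) (by ring) h2 (hs.1 j).1
  have e : s i - a k i j * s j = (s i - a (k + 1) i j * s j) +
      (a (k + 1) i j - a k i j) * s j := by ring
  rw [e]
  exact Submodule.add_mem _ h1 h3

lemma Sec_down_le (hD : Dat d F P u g del gam a) {j k : ℕ} (hj : 1 ≤ j) (hjk : j ≤ k) {t : ℤ}
    {s : Fin 3 → K} (hs : s ∈ Sec F u gam a k t) : s ∈ Sec F u gam a j t := by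
  induction k, hjk using Nat.le_induction with
  | base => exact hs
  | succ k hk ih => exact ih (Sec_down hD (hj.trans hk) hs)

lemma Sec_mul {k : ℕ} {t : ℤ} {s : Fin 3 → K} (hs : s ∈ Sec F u gam a k t) {c : A} {m : ℕ}
    (hc : c.IsHomogeneous m) : (fun i => algebraMap A K c * s i) ∈ Sec F u gam a k (t + m) := by
  refine ⟨fun i => ⟨LI_const_mul c (hs.1 i).1, ?_⟩, fun i j => ?_⟩
  · have := HS_mul (hs.1 i).2 hc
    have e : t - (gam i : ℤ) + m = t + m - gam i := by ring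
    rwa [e] at this
  · have := LI_const_mul c (hs.2 i j)
    have e : algebraMap A K c * s i - a k i j * (algebraMap A K c * s j) =
        algebraMap A K c * (s i - a k i j * s j) := by ring
    show algebraMap A K c * s i - a k i j * (algebraMap A K c * s j) ∈ _
    rw [e]
    exact this

lemma InM_mul {t : ℤ} {s : ℕ → Fin 3 → K} (hs : InM F u gam a t s) {c : A} {m : ℕ}
    (hc : c.IsHomogeneous m) : InM F u gam a (t + m) (fun k i => algebraMap A K c * s k i) where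
  sec k hk := Sec_mul (hs.sec k hk) hc
  comp k hk i := by
    rw [← mul_sub]
    exact LI_const_mul c (hs.comp k hk i)

lemma InM_sub {t : ℤ} {s r : ℕ → Fin 3 → K} (hs : InM F u gam a t s) (hr : InM F u gam a t r) :
    InM F u gam a t (fun k i => s k i - r k i) where
  sec k hk := Submodule.sub_mem _ (hs.sec k hk) (hr.sec k hk)
  comp k hk i := by
    have e : s (k + 1) i - r (k + 1) i - (s k i - r k i) =
        (s (k + 1) i - s k i) - (r (k + 1) i - r k i) := by ring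
    rw [e]
    exact Submodule.sub_mem _ (hs.comp k hk i) (hr.comp k hk i)

lemma IsZ_mul {s : ℕ → Fin 3 → K} (hs : IsZ F u s) (c : A) :
    IsZ F u (fun k i => algebraMap A K c * s k i) :=
  fun k hk i => LI_const_mul c (hs k hk i)

lemma IsZ_add {s r : ℕ → Fin 3 → K} (hs : IsZ F u s) (hr : IsZ F u r) :
    IsZ F u (fun k i => s k i + r k i) :=
  fun k hk i => Submodule.add_mem _ (hs k hk i) (hr k hk i)

lemma IsZ_congr {s r : ℕ → Fin 3 → K} (hs : IsZ F u s) (h : ∀ k i, s k i = r k i) :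
    IsZ F u r := fun k hk i => by rw [← h k i]; exact hs k hk i

end T70

end Pool.Agent.NOD.L3
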